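import Pool.Agent.Lib.MP_8865d3_nt.Tr.Defs
import Pool.Agent.Lib.MP_651af7_nt.Gm.FlB1

/-! The norm of the value of a factor. -/

namespace Pool.Agent.Lib.MP_8865d3_nt.Tr

open MvPolynomial Finset Height NumberField Filter Real Pool.Agent.Lib.MP_651af7_nt
open Tb Fc
open IntermediateField (adjoin)
open Rt (Pl av mu)

theorem nrm_sq {L E : Type} [Field L] [Field E] [Algebra L E] [FiniteDimensional L E] (x : E) :
    ∃ n', 0 < n' ∧ Module.finrank L E = (minpoly L x).natDegree * n' ∧
      Algebra.norm L x ^ 2 = (minpoly L x).coeff 0 ^ (2 * n') := by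
  have hx : IsIntegral L x := .of_finite L x
  refine ⟨Module.finrank (adjoin L {x}) E, Module.finrank_pos, ?_, ?_⟩
  · rw [← IntermediateField.adjoin.finrank hx, Module.finrank_mul_finrank]
  · rw [Algebra.norm_eq_norm_adjoin, ← IntermediateField.adjoin.powerBasis_gen hx,
      Algebra.PowerBasis.norm_gen_eq_coeff_zero_minpoly, IntermediateField.adjoin.powerBasis_gen,
      IntermediateField.minpoly_gen, ← pow_mul, mul_comm _ 2, pow_mul, pow_mul, mul_pow,
      ← pow_mul, mul_comm _ 2, pow_mul, neg_one_sq, one_pow, one_mul]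

theorem nrm_fin {L E : Type} [Field L] [CharZero L] [Field E] [Algebra L E] [FiniteDimensional L E]
    {P : Polynomial L} (hP : Irreducible P) (hm : P.Monic) {g : Polynomial E} (hg : g.Monic)
    (hd : g ∣ P.map (algebraMap L E)) (c : L) :
    ∃ μ : ℕ, μ * P.natDegree = Module.finrank L E * g.natDegree ∧
      Algebra.norm L (g.eval (algebraMap L E c)) = P.eval c ^ μ := by
  obtain ⟨μ, a, -, h1, h2⟩ := Gm.prod_conj (Ω := AlgebraicClosure L) hP hg hd
  have h3 : a = 1 := by
    have h4 := congrArg Polynomial.leadingCoeff h2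
    rw [(Polynomial.monic_prod_of_monic _ _ fun τ _ => hg.map _).leadingCoeff,
      Polynomial.leadingCoeff_mul, Polynomial.leadingCoeff_C,
      ((hm.map _).pow μ).leadingCoeff, mul_one] at h4
    exact h4.symm
  refine ⟨μ, h1, (algebraMap L (AlgebraicClosure L)).injective ?_⟩
  have h4 := congrArg (Polynomial.eval (algebraMap L (AlgebraicClosure L) c)) h2
  rw [h3, Polynomial.C_1, one_mul, Polynomial.eval_pow, Polynomial.eval_map,
    Polynomial.eval₂_at_apply, Polynomial.eval_prod] at h4
  rw [Algebra.norm_eq_prod_embeddings L (AlgebraicClosure L), map_pow, ← h4]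
  refine Finset.prod_congr rfl fun τ _ => ?_
  rw [← τ.commutes, Polynomial.eval_map]
  exact (Polynomial.eval₂_at_apply (τ : E →+* AlgebraicClosure L) _).symm

theorem nrm {L K : Type} [Field L] [CharZero L] [Field K] [Algebra L K] {P : Polynomial L}
    (hP : Irreducible P) (hm : P.Monic) {G : Polynomial K} (hG : G.Monic)
    (hd : G ∣ P.map (algebraMap L K)) {c : L} (hc : P.eval c ≠ 0) :
    G.eval (algebraMap L K c) ≠ 0 ∧ IsIntegral L (G.eval (algebraMap L K c))⁻¹ ∧ ∃ n, 0 < n ∧
      ((minpoly L (G.eval (algebraMap L K c))⁻¹).coeff 0 ^ P.natDegree * P.eval c ^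
        (G.natDegree * (minpoly L (G.eval (algebraMap L K c))⁻¹).natDegree)) ^ n = 1 := by
  classical
  let E := adjoin L (G.coeffs : Set K)
  have : FiniteDimensional L E := IntermediateField.finiteDimensional_adjoin fun x hx => by
    obtain ⟨i, -, rfl⟩ := Polynomial.mem_coeffs_iff.mp hx
    exact Polynomial.isIntegral_coeff_of_dvd P G hm hG hd i
  obtain ⟨g, hg1, hg2, hg3⟩ := Polynomial.lifts_and_natDegree_eq_and_monic
    (f := algebraMap E K) (p := G) ((Polynomial.lifts_iff_coeffs_subset_range _).mpr fun x hx =>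
      ⟨⟨x, IntermediateField.subset_adjoin _ _ hx⟩, rfl⟩) hG
  have hd' : g ∣ P.map (algebraMap L E) := by
    rw [← Polynomial.map_dvd_map' (algebraMap E K), hg1, Polynomial.map_map,
      ← IsScalarTower.algebraMap_eq]
    exact hd
  obtain ⟨μ, h1, h2⟩ := nrm_fin hP hm hg3 hd' c
  have h3 : G.eval (algebraMap L K c) = algebraMap E K (g.eval (algebraMap L E c)) := by
    rw [← hg1, Polynomial.eval_map, IsScalarTower.algebraMap_apply L E K, Polynomial.eval₂_at_apply]
  have h4 : g.eval (algebraMap L E c) ≠ 0 := fun h => by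
    rw [h, Algebra.norm_zero] at h2
    exact pow_ne_zero μ hc h2.symm
  obtain ⟨n, hn, h5, h6⟩ := nrm_sq (L := L) (g.eval (algebraMap L E c))⁻¹
  have h7 : Algebra.norm L (g.eval (algebraMap L E c))⁻¹ * P.eval c ^ μ = 1 := by
    rw [← h2, ← map_mul, inv_mul_cancel₀ h4, map_one]
  rw [h3, ← map_inv₀, minpoly.algebraMap_eq (algebraMap E K).injective, ← hg2]
  refine ⟨(map_ne_zero _).mpr h4, (IsIntegral.of_finite L _).algebraMap, 2 * n, by omega, ?_⟩
  rw [mul_pow, ← pow_mul, mul_comm P.natDegree, pow_mul, ← h6, ← pow_mul, ← pow_mul,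
    show g.natDegree * (minpoly L (g.eval (algebraMap L E c))⁻¹).natDegree * (2 * n) =
      μ * (2 * P.natDegree) by
        rw [mul_left_comm μ, h1, h5]
        ring, pow_mul _ μ, ← mul_pow, h7, one_pow]

end Pool.Agent.Lib.MP_8865d3_nt.Tr
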