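import Pool.Agent.Lib.MP_8865d3_nt.Tr.Sml

/-! A sum over all places without cancellation inside S. -/

namespace Pool.Agent.Lib.MP_8865d3_nt.Tr

open MvPolynomial Finset Height NumberField Filter Real Pool.Agent.Lib.MP_651af7_nt
open Tb Fc
open IntermediateField (adjoin)
open Rt (Pl av mu)

variable {k : Type} [Field k] [NumberField k] {S : Finset (FinitePlace k)}
  {f g : AbsoluteValue k ℝ → ℝ}

/-- Positive parts at the infinite places and in `S`, the plain sum outside. -/
noncomputable def jS (S : Finset (FinitePlace k)) (f : AbsoluteValue k ℝ → ℝ) : ℝ :=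
  iS S (fun w => max (f w) 0) + oS S f

theorem jS_le (hf : FS f) (hg : FS g) (C : Pl S → ℝ) (h1 : ∀ s, f (av s) ≤ g (av s) + C s)
    (h2 : ∀ w : FinitePlace k, w ∉ S → f w.1 ≤ g w.1) : jS S f ≤ jS S g + ∑ s, mu s * |C s| := by
  have h3 : iS S (fun w => max (f w) 0) ≤ iS S (fun w => max (g w) 0) + ∑ s, mu s * |C s| := by
    rw [iS, iS, ← sum_add_distrib]
    refine sum_le_sum fun s _ => ?_
    rw [← mul_add]
    refine mul_le_mul_of_nonneg_left (max_le ?_ ?_) (Nat.cast_nonneg _)
    · linarith [h1 s, le_max_left (g (av s)) 0, le_abs_self (C s)]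
    · linarith [le_max_right (g (av s)) 0, abs_nonneg (C s)]
  unfold jS
  linarith [oS_mono hf hg h2]

theorem jS_add (hf : FS f) (hg : FS g) : jS S (fun w => f w + g w) ≤ jS S f + jS S g := by
  have h : iS S (fun w => max (f w + g w) 0) ≤ iS S fun w => max (f w) 0 + max (g w) 0 :=
    iS_mono fun s => max_le (add_le_add (le_max_left _ _) (le_max_left _ _))
      (add_nonneg (le_max_right _ _) (le_max_right _ _))
  rw [iS_add] at h
  unfold jS
  rw [oS_add hf hg]
  linarith

theorem jS_mul {c : ℝ} (hc : 0 ≤ c) (hf : FS f) : jS S (fun w => c * f w) = c * jS S f := by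
  unfold jS
  rw [oS_mul c hf, mul_add, ← iS_mul]
  simp only [mul_max_of_nonneg _ _ hc, mul_zero]

theorem jS_sum {τ : Type} (s : Finset τ) {f : τ → AbsoluteValue k ℝ → ℝ} (h : ∀ i, FS (f i)) :
    jS S (fun w => ∑ i ∈ s, f i w) ≤ ∑ i ∈ s, jS S (f i) := by
  classical
  induction s using Finset.induction_on with
  | empty => simp [jS, iS, oS]
  | insert a s ha ih =>
    simp only [sum_insert ha]
    exact (jS_add (h a) (FS.sum s h)).trans (add_le_add le_rfl ih)

theorem jS_nonpos (h : ∀ w, f w ≤ 0) : jS S f ≤ 0 := by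
  have h1 : iS S (fun w => max (f w) 0) = 0 := by simp only [iS, max_eq_right (h _), mul_zero,
    sum_const_zero]
  have h2 : oS S f ≤ 0 :=
    finsum_induction (· ≤ 0) le_rfl (fun _ _ => add_nonpos) fun _ =>
      finsum_induction (· ≤ 0) le_rfl (fun _ _ => add_nonpos) fun _ => h _
  unfold jS
  linarith

theorem jS_pos (S : Finset (FinitePlace k)) (x : k) :
    jS S (fun w => log⁺ (w x)) = logHeight₁ x := by
  have e : ls ![x, 1] = fun w => log⁺ (w x) := funext fun w => by
    have h : ⨆ i : Fin 2, w (![x, 1] i) = max 1 (w x) := by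
      refine le_antisymm (ciSup_le fun i => ?_) (max_le ?_ ?_)
      · fin_cases i <;> simp
      · simpa using Finite.le_ciSup (fun i : Fin 2 => w (![x, 1] i)) 1
      · simpa using Finite.le_ciSup (fun i : Fin 2 => w (![x, 1] i)) 0
    rw [ls, posLog_eq_log_max_one (w.nonneg x), h]
  rw [logHeight₁_eq_logHeight, ht_split S (x := ![x, 1]) (fun h => one_ne_zero (congrFun h 1)), e,
    jS]
  simp only [max_eq_left posLog_nonneg]

theorem jS_gn_le (S : Finset (FinitePlace k)) {q : Polynomial k} (hq : q.Monic) :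
    jS S (gn q) ≤ ∑ j ∈ range (q.natDegree + 1), logHeight₁ (q.coeff j) := by
  have h : ∀ w : AbsoluteValue k ℝ,
      gn q w ≤ ∑ j ∈ range (q.natDegree + 1), log⁺ (w (q.coeff j)) := fun w => by
    obtain ⟨b, hb⟩ := q.exists_eq_gaussNorm w 1
    rw [one_pow, mul_one] at hb
    rw [gn, hb]
    by_cases h0 : q.coeff b = 0
    · rw [h0, map_zero, log_zero]
      exact sum_nonneg fun _ _ => posLog_nonneg
    · exact (le_max_right _ _).trans (single_le_sum (f := fun j => log⁺ (w (q.coeff j)))
        (fun _ _ => posLog_nonneg)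
        (mem_range.2 (Nat.lt_succ_of_le (Polynomial.le_natDegree_of_ne_zero h0))))
  have h1 := jS_le (S := S) (fs_gn q) (FS.sum (range (q.natDegree + 1)) fun j => fs_pos (q.coeff j))
    0 (fun s => by simpa using h (av s)) fun w _ => h w.1
  have h2 := jS_sum (S := S) (range (q.natDegree + 1)) fun j => fs_pos (q.coeff j)
  simp only [jS_pos] at h2
  simp only [Pi.zero_apply, abs_zero, mul_zero, sum_const_zero, add_zero] at h1
  exact h1.trans h2

theorem abs_le_jS (hf : FS f) {R R' : ℝ} (h1 : jS S f ≤ R) (h2 : jS S (fun w => -1 * f w) ≤ R') :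
    iS S (fun w => |f w|) + |oS S f| ≤ R + R' + max R R' := by
  have e : iS S (fun w => |f w|) =
      iS S (fun w => max (f w) 0) + iS S fun w => max (-1 * f w) 0 := by
    rw [← iS_add]
    simp only [neg_mul, one_mul, max_zero_add_max_neg_zero_eq_abs_self]
  have p1 : 0 ≤ iS S fun w => max (f w) 0 := iS_nonneg fun _ => le_max_right _ _
  have p2 : 0 ≤ iS S fun w => max (-1 * f w) 0 := iS_nonneg fun _ => le_max_right _ _
  unfold jS at h1 h2
  rw [oS_mul _ hf] at h2
  have p3 : |oS S f| ≤ max R R' :=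
    abs_le.2 ⟨by linarith [le_max_right R R'], by linarith [le_max_left R R']⟩
  linarith

end Pool.Agent.Lib.MP_8865d3_nt.Tr
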