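import Pool.Agent.Lib.MP_8865d3_nt.Tr.Pen
import Pool.Agent.Lib.MP_8865d3_nt.Tr.Js
import Pool.Agent.Lib.MP_651af7_nt.Jn.Gel

/-! The same bounds at an arbitrary place, up to constants. -/

namespace Pool.Agent.Lib.MP_8865d3_nt.Tr

open MvPolynomial Finset Height NumberField Filter Real Pool.Agent.Lib.MP_651af7_nt
open Tb Fc
open IntermediateField (adjoin)
open Rt (Pl av mu)

variable {k : Type} [Field k]

theorem pen_any (w : AbsoluteValue k ℝ) [CharZero k] (e s : ℕ) : ∃ C : ℝ, ∀ q : Polynomial k,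
    q.Monic → q.natDegree = e →
      ((s : ℝ) - e) * log (q.gaussNorm w 1) ≤ ∑ c ∈ range s, log⁺ (w (q.eval (c : k))) + C := by
  obtain ⟨Δ, M, hΔ, hM⟩ := Nc.pen_inv (n := e + 1) (c := fun a : Fin s => ((a : ℕ) : ℤ))
    fun a b h => Fin.ext (Nat.cast_injective h)
  have v0 : 0 < w (Δ : k) := w.pos (Int.cast_ne_zero.2 hΔ)
  obtain ⟨t, ht⟩ : ∃ t : ℝ, t = ∑ f, ∑ b, ∑ i, w (M f b i : k) := ⟨_, rfl⟩
  have t1 : ∀ f b, ∑ i, w (M f b i : k) ≤ t := fun f b => by
    rw [ht]
    exact (single_le_sum (f := fun b => ∑ i, w (M f b i : k))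
      (fun _ _ => sum_nonneg fun _ _ => w.nonneg _) (mem_univ b)).trans
      (single_le_sum (f := fun f => ∑ b, ∑ i, w (M f b i : k))
        (fun _ _ => sum_nonneg fun _ _ => sum_nonneg fun _ _ => w.nonneg _) (mem_univ f))
  have t0 : 0 ≤ t := by
    rw [ht]
    exact sum_nonneg fun _ _ => sum_nonneg fun _ _ => sum_nonneg fun _ _ => w.nonneg _
  obtain ⟨ρ, hρ⟩ : ∃ ρ : ℝ, ρ = w (Δ : k) / (t + 1) := ⟨_, rfl⟩
  have r0 : 0 < ρ := by rw [hρ]; positivity
  have r1 : (t + 1) * ρ = w (Δ : k) := by rw [hρ]; field_simp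
  refine ⟨s * |log ρ|, fun q hq he => ?_⟩
  have g1 := pen_one hq w
  have id1 : ∀ (f : Fin (e + 1) ↪ Fin s) (b : Fin (e + 1)),
      (Δ : k) * q.coeff b = ∑ i, (M f b i : k) * q.eval ((f i : ℕ) : k) := fun f b => by
    have h1 : ∀ j : Fin (e + 1), ∑ i, (M f b i : k) * ((f i : ℕ) : k) ^ (j : ℕ) =
        if b = j then (Δ : k) else 0 := fun j => by
      have := congrArg (fun x : ℤ => (x : k)) (congrFun (congrFun (hM f) b) j)
      simpa [Matrix.mul_apply, Matrix.one_apply, apply_ite] using this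
    simp only [Polynomial.eval_eq_sum_range, he, Finset.sum_range, mul_sum, mul_comm (q.coeff _),
      ← mul_assoc]
    rw [sum_comm]
    simp only [← sum_mul, h1, ite_mul, zero_mul, sum_ite_eq, mem_univ, if_true]
  obtain ⟨T, hT⟩ : ∃ T, T = univ.filter fun a : Fin s =>
    w (q.eval ((a : ℕ) : k)) < ρ * q.gaussNorm w 1 := ⟨_, rfl⟩
  have p0 : 0 < ρ * q.gaussNorm w 1 := by positivity
  have u3 : T.card ≤ e := by
    by_contra h
    obtain ⟨f, hf⟩ := Function.Embedding.exists_of_card_le_finset (α := Fin (e + 1))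
      ((Fintype.card_fin _).trans_le (not_le.1 h))
    obtain ⟨b, hb⟩ := q.exists_eq_gaussNorm w 1
    rw [one_pow, mul_one] at hb
    have hbe : b < e + 1 := Nat.lt_succ_of_le (he ▸ Polynomial.le_natDegree_of_ne_zero fun h0 => by
      rw [hb, h0, map_zero] at g1
      exact absurd g1 (by norm_num))
    have k1 := w.sum_le univ fun i => (M f ⟨b, hbe⟩ i : k) * q.eval ((f i : ℕ) : k)
    rw [← id1, map_mul, ← hb, ← r1] at k1
    have k2 : ∑ i, w ((M f ⟨b, hbe⟩ i : k) * q.eval ((f i : ℕ) : k)) ≤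
        ∑ i, w (M f ⟨b, hbe⟩ i : k) * (ρ * q.gaussNorm w 1) := sum_le_sum fun i _ => by
      have k3 := hf ⟨i, rfl⟩
      rw [hT, coe_filter] at k3
      rw [map_mul]
      exact mul_le_mul_of_nonneg_left k3.2.le (w.nonneg _)
    rw [← sum_mul] at k2
    linarith [mul_le_mul_of_nonneg_right (t1 f ⟨b, hbe⟩) p0.le]
  have g0 := log_nonneg g1
  have u4 : ∀ a : Fin s, log (q.gaussNorm w 1) - (if a ∈ T then log (q.gaussNorm w 1) else 0) +
      -|log ρ| ≤ log⁺ (w (q.eval ((a : ℕ) : k))) := fun a => by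
    split_ifs with h
    · linarith [posLog_nonneg (x := w (q.eval ((a : ℕ) : k))), abs_nonneg (log ρ)]
    · have := log_le_log p0 (not_lt.1 fun h' => h (hT ▸ mem_filter.2 ⟨mem_univ _, h'⟩))
      rw [log_mul r0.ne' (by positivity)] at this
      linarith [le_max_right 0 (log (w (q.eval ((a : ℕ) : k)))),
        posLog_apply (x := w (q.eval ((a : ℕ) : k))), neg_abs_le (log ρ)]
  have u5 := sum_le_sum fun a (_ : a ∈ univ) => u4 a
  rw [Fin.sum_univ_eq_sum_range (fun c => log⁺ (w (q.eval (c : k))))] at u5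
  simp only [sum_add_distrib, sum_sub_distrib, sum_const, card_univ, Fintype.card_fin,
    nsmul_eq_mul, sum_ite_mem, univ_inter] at u5
  linarith [mul_le_mul_of_nonneg_right (Nat.cast_le (α := ℝ).2 u3) g0]

theorem val_any (w : AbsoluteValue k ℝ) (c : k) (d : ℕ) : ∃ C : ℝ, ∀ q : Polynomial k,
    q.Monic → q.natDegree = d → log⁺ (w (q.eval c)) ≤ log (q.gaussNorm w 1) + C := by
  have t1 : 1 ≤ ∑ i ∈ range (d + 1), w c ^ i := by
    simpa using single_le_sum (f := fun i => w c ^ i) (fun _ _ => pow_nonneg (w.nonneg _) _)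
      (mem_range.2 d.succ_pos)
  refine ⟨log (∑ i ∈ range (d + 1), w c ^ i), fun q hq hd => ?_⟩
  have g1 := pen_one hq w
  have h1 : w (q.eval c) ≤ q.gaussNorm w 1 * ∑ i ∈ range (d + 1), w c ^ i := by
    rw [Polynomial.eval_eq_sum_range, hd, mul_sum]
    refine (w.sum_le _ _).trans (sum_le_sum fun i _ => ?_)
    have h2 := q.le_gaussNorm w zero_le_one i
    rw [one_pow, mul_one] at h2
    rw [map_mul, map_pow]
    exact mul_le_mul_of_nonneg_right h2 (pow_nonneg (w.nonneg _) _)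
  rw [← log_mul (by positivity) (by positivity),
    ← posLog_eq_log ((one_le_mul_of_one_le_of_one_le g1 t1).trans (le_abs_self _))]
  exact posLog_le_posLog (w.nonneg _) h1

variable [NumberField k]

theorem gn_mul_any {S : Finset (FinitePlace k)} (s : Pl S) (e : ℕ) : ∃ C : ℝ, ∀ p q : Polynomial k,
    p.Monic → q.Monic → (p * q).natDegree = e →
      |gn (p * q) (av s) - gn p (av s) - gn q (av s)| ≤ C := by
  obtain ⟨Mh, m0, -, m1, m2, m3⟩ := Jn.gl_measure (Rt.adm_av s)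
  obtain ⟨T, hT⟩ : ∃ T, T = Av.E (IsNonarchimedean (av s)) 2 := ⟨_, rfl⟩
  have hT1 : 1 ≤ T := by
    rw [hT, Av.E]
    split_ifs <;> norm_num
  rw [← hT] at m2 m3
  have key : ∀ p : Polynomial k, p.Monic → p.natDegree ≤ e →
      0 < Mh p ∧ |gn p (av s) - log (Mh p)| ≤ log (T ^ e) := fun p hp hd => by
    have g1 := pen_one hp (av s)
    have t0 : 0 < T ^ e := by positivity
    have a1 : p.gaussNorm (av s) 1 ≤ T ^ e * Mh p := by
      obtain ⟨i, hi⟩ := p.exists_eq_gaussNorm (av s) 1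
      rw [hi, one_pow, mul_one]
      exact m2 p e i hd
    have a2 : Mh p ≤ T ^ e * p.gaussNorm (av s) 1 := m3 p e _ hd (by linarith) fun i => by
      simpa using p.le_gaussNorm (av s) zero_le_one i
    have a3 : 0 < Mh p := (mul_pos_iff_of_pos_left t0).1 (by linarith)
    have a4 := log_le_log (by linarith) a1
    have a5 := log_le_log a3 a2
    rw [log_mul t0.ne' a3.ne'] at a4
    rw [log_mul t0.ne' (by linarith)] at a5
    exact ⟨a3, abs_le.2 ⟨by rw [gn]; linarith, by rw [gn]; linarith⟩⟩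
  refine ⟨3 * log (T ^ e), fun p q hp hq he => ?_⟩
  have hd := hp.natDegree_mul hq
  obtain ⟨-, b1⟩ := key _ (hp.mul hq) he.le
  obtain ⟨b2, b3⟩ := key p hp (by omega)
  obtain ⟨b4, b5⟩ := key q hq (by omega)
  rw [m1, log_mul b2.ne' b4.ne'] at b1
  rw [abs_le] at b1 b3 b5 ⊢
  constructor <;> linarith [b1.1, b1.2, b3.1, b3.2, b5.1, b5.2]

theorem pen_jS (e s : ℕ) (S : Finset (FinitePlace k)) {d : ℝ} (hd : 0 ≤ d) : ∃ C : ℝ,
    ∀ (q : Polynomial k) (g : AbsoluteValue k ℝ → ℝ), q.Monic → q.natDegree = e → FS g →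
      s * jS S (fun w => d * gn q w - g w) ≤
        ∑ c ∈ range s, jS S (fun w => d * log⁺ (w (q.eval (c : k))) - g w) + d * e * jS S (gn q) + C := by
  obtain ⟨Δ, M, hΔ, hM⟩ := Nc.pen_inv (n := e + 1) (c := fun a : Fin s => ((a : ℕ) : ℤ))
    fun a b h => Fin.ext (Nat.cast_injective h)
  choose C hC using fun t : Pl S => pen_any (av t) e s
  refine ⟨jS S (fun w => d * (-s * log (w (Δ : k)))) +
    ∑ t : Pl S, mu t * |d * C t - d * (-s * log (av t (Δ : k)))|, fun q g hq he hg => ?_⟩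
  have f0 : FS fun w => d * gn q w - g w := ((fs_gn q).mul d).sub hg
  have f1 : ∀ c : ℕ, FS fun w => d * log⁺ (w (q.eval (c : k))) - g w := fun c =>
    ((fs_pos _).mul d).sub hg
  have f2 := FS.sum (range s) f1
  have f3 : FS fun w => d * e * gn q w := (fs_gn q).mul _
  have f4 : FS fun w : AbsoluteValue k ℝ => d * (-s * log (w (Δ : k))) :=
    ((fs_log (Δ : k)).mul _).mul d
  have e1 : ∀ w : AbsoluteValue k ℝ, ∑ c ∈ range s, (d * log⁺ (w (q.eval (c : k))) - g w) =
      d * ∑ c ∈ range s, log⁺ (w (q.eval (c : k))) - s * g w := fun w => by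
    rw [sum_sub_distrib, ← mul_sum, sum_const, card_range, nsmul_eq_mul]
  have h1 := jS_le (S := S) (f0.mul s) ((f2.add f3).add f4)
    (fun t => d * C t - d * (-s * log (av t (Δ : k)))) (fun t => by
      have := mul_le_mul_of_nonneg_left (hC t q hq he) hd
      rw [e1, gn]
      linarith) (fun w _ => by
      have := mul_le_mul_of_nonneg_left (pen_loc (Int.cast_ne_zero.2 hΔ) hM hq he w.add_le) hd
      rw [e1, gn]
      linarith)
  have h2 := jS_add (S := S) (f2.add f3) f4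
  have h3 := jS_add (S := S) f2 f3
  have h4 := jS_sum (S := S) (range s) f1
  rw [jS_mul (Nat.cast_nonneg s) f0] at h1
  rw [jS_mul (by positivity) (fs_gn q)] at h3
  linarith

end Pool.Agent.Lib.MP_8865d3_nt.Tr
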