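import Pool.Agent.Lib.MP_8865d3_nt.Tr.Tor
import Pool.Agent.Lib.MP_8865d3_nt.Tr.Nrm
import Pool.Agent.Lib.MP_8865d3_nt.Tr.PenA

/-! The share of a factor at the generic point. -/

namespace Pool.Agent.Lib.MP_8865d3_nt.Tr

open MvPolynomial Finset Height NumberField Filter Real Pool.Agent.Lib.MP_651af7_nt
open Tb Fc
open IntermediateField (adjoin)
open Rt (Pl av mu)

variable {k K ι κ ν β : Type} [Field k] [NumberField k] [Field K] [Algebra k K] [Fintype ι]
  [Fintype κ] [Fintype ν] {𝓕 : Filter β} {v : β → K → k} {y : ι → K} {u : κ → K} {φ ψ : κ → ν → K}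

theorem Rp.eval (h : Sp 𝓕 v) {G : Polynomial K} {g : β → Polynomial k} (hg : Rp 𝓕 v G g) (c : ℕ) :
    ∀ᶠ p in 𝓕, v p (G.eval (c : K)) = (g p).eval (c : k) := by
  filter_upwards [hg, h.sum (range (G.natDegree + 1)) fun j => G.coeff j * (c : K) ^ j,
    (eventually_all_finset (range (G.natDegree + 1))).2 fun j _ => h.mul (G.coeff j) ((c : K) ^ j),
    (eventually_all_finset (range (G.natDegree + 1))).2 fun j _ => h.pow (c : K) j,
    h.const (c : k)] with p h1 h2 h3 h4 h5
  rw [map_natCast] at h5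
  rw [Polynomial.eval_eq_sum_range, h2, Polynomial.eval_eq_sum_range, h1.2.1]
  exact sum_congr rfl fun j hj => by
    rw [h3 j hj, h4 j hj, h5, h1.2.2 j (Nat.lt_succ_iff.1 (mem_range.1 hj))]

theorem fac_val [Nonempty ν] (E : Env 𝓕 v y) (hu : AlgebraicIndependent (adjoin k (Set.range y)) u)
    (hφ : Blk (adjoin k (Set.range y)) φ) (hψ : Blk (adjoin k (Set.range y)) ψ)
    {P : Polynomial (adjoin (adjoin k (Set.range y)) (Set.range u))} (hP : Irreducible P)
    (hm : P.Monic) {G : Polynomial K} (hG : G.Monic) (hd : G ∣ P.map (algebraMap _ K))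
    {q g : β → Polynomial k} (hq : Rp 𝓕 v (P.map (algebraMap _ K)) q) (hg : Rp 𝓕 v G g) (c : ℕ) :
    Sml 𝓕 (HH v y u) (NN v u φ ψ) fun p S => jS S fun w =>
      G.natDegree * log⁺ (w ((q p).eval (c : k))) - P.natDegree * gn (g p) w := by
  have h1 := hq.eval E.sp c
  rw [← map_natCast (algebraMap (adjoin (adjoin k (Set.range y)) (Set.range u)) K),
    Polynomial.eval_map_algebraMap, Polynomial.aeval_algebraMap_apply,
    Polynomial.coe_aeval_eq_eval] at h1
  by_cases hc : P.eval (c : adjoin (adjoin k (Set.range y)) (Set.range u)) = 0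
  · refine (sml_const (N := NN v u φ ψ) (hh_nonneg v y u) fun _ => 0).mono ?_
    rw [hc, map_zero] at h1
    filter_upwards [h1, E.sp.zero, hg] with p a b d
    refine ⟨rfl, fun S => ⟨rfl, ?_⟩⟩
    refine jS_nonpos fun w => ?_
    have := mul_nonneg (Nat.cast_nonneg (α := ℝ) P.natDegree) (gn_nonneg d.1 w)
    simpa [← a, b] using this
  obtain ⟨h0, hτ, n, hn, h2⟩ := nrm hP hm hG hd hc
  have h3 := tor E hu hφ hψ (inv_ne_zero h0) hτ
  have hpos := Nat.cast_pos (α := ℝ).2 (minpoly.natDegree_pos hτ)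
  have h4 := E.sp.inv (G.eval (algebraMap _ K (c : adjoin (adjoin k (Set.range y)) (Set.range u))))
  have h5 := hg.eval E.sp c
  rw [← map_natCast (algebraMap (adjoin (adjoin k (Set.range y)) (Set.range u)) K)] at h5
  generalize G.eval (algebraMap _ K (c : adjoin (adjoin k (Set.range y)) (Set.range u))) = z at *
  generalize minpoly (adjoin (adjoin k (Set.range y)) (Set.range u)) z⁻¹ = Q at *
  have h6 := congrArg (algebraMap _ K) h2
  rw [map_pow, map_mul, map_pow, map_pow, map_one] at h6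
  generalize algebraMap _ K (P.eval (c : adjoin (adjoin k (Set.range y)) (Set.range u))) = x at *
  choose C hC using fun w : AbsoluteValue k ℝ => val_any w (c : k) G.natDegree
  have hn0 := Nat.cast_nonneg (α := ℝ) P.natDegree
  refine ((h3.mul (div_nonneg hn0 hpos.le) (hh_nonneg v y u)).add
    (sml_const (hh_nonneg v y u) fun S => ∑ s : Pl S, mu s * |P.natDegree * C (av s)|)).mono ?_
  filter_upwards [h1, h4, h5, hg, E.sp.one,
    E.sp.pow (algebraMap _ K (Q.coeff 0) ^ P.natDegree * x ^ (G.natDegree * Q.natDegree)) n,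
    E.sp.mul (algebraMap _ K (Q.coeff 0) ^ P.natDegree) (x ^ (G.natDegree * Q.natDegree)),
    E.sp.pow (algebraMap _ K (Q.coeff 0)) P.natDegree, E.sp.pow x (G.natDegree * Q.natDegree)]
    with p a1 a2 a3 a4 a5 a6 a7 a8 a9
  refine ⟨rfl, fun S => ⟨rfl, ?_⟩⟩
  rw [h6, a5, a7, a8, a9, a1] at a6
  have b1 : ∀ w : AbsoluteValue k ℝ,
      (P.natDegree : ℝ) / Q.natDegree * (log⁺ (w (v p (algebraMap _ K (Q.coeff 0)))⁻¹) -
        Q.natDegree * log⁺ (w ((g p).eval (c : k)))) =
      G.natDegree * log⁺ (w ((q p).eval (c : k))) -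
        P.natDegree * log⁺ (w ((g p).eval (c : k))) := fun w => by
    have h7 := congrArg w a6
    rw [map_one, map_pow, eq_comm, pow_eq_one_iff_of_nonneg (w.nonneg _) hn.ne', map_mul, map_pow,
      map_pow] at h7
    have h8 : (P.natDegree : ℝ) * log⁺ (w (v p (algebraMap _ K (Q.coeff 0)))⁻¹) =
        (G.natDegree * Q.natDegree : ℕ) * log⁺ (w ((q p).eval (c : k))) := by
      rw [← posLog_pow, ← posLog_pow, map_inv₀, inv_pow, ← eq_inv_of_mul_eq_one_right h7]
    rw [mul_sub, div_mul_eq_mul_div, h8, ← mul_assoc, div_mul_cancel₀ _ hpos.ne', Nat.cast_mul,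
      mul_right_comm, mul_div_cancel_right₀ _ hpos.ne']
  rw [← jS_mul (div_nonneg hn0 hpos.le) ((fs_pos _).sub ((fs_pos _).mul _)), a2, inv_inv, a3,
    ← IntermediateField.algebraMap_apply, funext b1]
  refine jS_le (((fs_pos _).mul _).sub ((fs_gn _).mul _)) (((fs_pos _).mul _).sub
    ((fs_pos _).mul _)) _ (fun s => ?_) fun w _ => ?_
  · have := mul_le_mul_of_nonneg_left (hC (av s) (g p) a4.1 a4.2.1) hn0
    rw [gn]
    linarith
  · exact sub_le_sub_left (mul_le_mul_of_nonneg_left (val_le a4.1 c w) hn0) _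

theorem fac_bd (E : Env 𝓕 v y)
    {P : Polynomial (adjoin (adjoin k (Set.range y)) (Set.range u))} {q : β → Polynomial k}
    (hq : Rp 𝓕 v (P.map (algebraMap _ K)) q) :
    ∃ C : ℝ, 0 ≤ C ∧ ∀ᶠ p in 𝓕, ∀ S, jS S (gn (q p)) ≤ C * (1 + HH v y u p) := by
  choose C h0 hC using fun j => E.bd κ u (algebraMap _ K (P.coeff j)) isIntegral_algebraMap
  refine ⟨∑ j ∈ range (P.natDegree + 1), C j, sum_nonneg fun j _ => h0 j, ?_⟩
  filter_upwards [hq, (eventually_all_finset (range (P.natDegree + 1))).2 fun j _ => hC j]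
    with p h1 h2 S
  rw [Polynomial.natDegree_map] at h1
  refine (jS_gn_le S h1.1).trans ?_
  rw [h1.2.1, sum_mul]
  refine sum_le_sum fun j hj => ?_
  rw [h1.2.2 j (Nat.lt_succ_iff.1 (mem_range.1 hj)), Polynomial.coeff_map]
  exact h2 j hj

theorem fac [Nonempty ν] (E : Env 𝓕 v y) (hu : AlgebraicIndependent (adjoin k (Set.range y)) u)
    (hφ : Blk (adjoin k (Set.range y)) φ) (hψ : Blk (adjoin k (Set.range y)) ψ)
    {P : Polynomial (adjoin (adjoin k (Set.range y)) (Set.range u))} (hP : Irreducible P)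
    (hm : P.Monic) {G : Polynomial K} (hG : G.Monic) (hd : G ∣ P.map (algebraMap _ K))
    {q g : β → Polynomial k} (hq : Rp 𝓕 v (P.map (algebraMap _ K)) q) (hg : Rp 𝓕 v G g) :
    Sml 𝓕 (HH v y u) (NN v u φ ψ) fun p S => jS S fun w =>
      G.natDegree * gn (q p) w - P.natDegree * gn (g p) w := by
  obtain ⟨C, h0, hC⟩ := fac_bd E hq
  refine sml_of_eps fun ε hε => ?_
  obtain ⟨s, hs⟩ := exists_nat_gt (G.natDegree * P.natDegree * C / ε)
  have hs0 : (0 : ℝ) < s := lt_of_le_of_lt (by positivity) hs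
  rw [div_lt_iff₀ hε] at hs
  choose D hD using fun S : Finset (FinitePlace k) =>
    pen_jS P.natDegree s S (Nat.cast_nonneg (α := ℝ) G.natDegree)
  have hH := hh_nonneg v y u
  refine (((sml_sum hH (range s) fun c _ => fac_val E hu hφ hψ hP hm hG hd hq hg c).mul
    (inv_nonneg.2 hs0.le) hH).add (sml_const hH fun S =>
      (s : ℝ)⁻¹ * (D S + G.natDegree * P.natDegree * C))).mono ?_
  filter_upwards [hq, hC] with p h1 h2
  refine ⟨rfl, fun S => ⟨rfl, ?_⟩⟩
  rw [Polynomial.natDegree_map] at h1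
  have h3 := hD S (q p) (fun w => P.natDegree * gn (g p) w) h1.1 h1.2.1
    ((fs_gn (g p)).mul P.natDegree)
  have h4 := mul_le_mul_of_nonneg_left (h2 S)
    (mul_nonneg (Nat.cast_nonneg (α := ℝ) G.natDegree) (Nat.cast_nonneg P.natDegree))
  have h5 := mul_le_mul_of_nonneg_right hs.le (hH p)
  rw [← mul_add, le_inv_mul_iff₀ hs0]
  linarith

end Pool.Agent.Lib.MP_8865d3_nt.Tr
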