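import Pool.Agent.Lib.MP_8865d3_nt.Tr.Defs
import Pool.Agent.Lib.MP_651af7_nt.Sh.AExt

/-! Small terms. -/

namespace Pool.Agent.Lib.MP_8865d3_nt.Tr

open MvPolynomial Finset Height NumberField Filter Real Pool.Agent.Lib.MP_651af7_nt
open Tb Fc
open IntermediateField (adjoin)
open Rt (Pl av mu)

variable {k K ι κ ν β : Type} [Field k] [NumberField k] [Field K] [Algebra k K] {𝓕 : Filter β}
  {H H' : β → ℝ} {N N' a b : β → Finset (FinitePlace k) → ℝ} {v : β → K → k}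

theorem Sml.mono (h : Sml 𝓕 H N a)
    (h1 : ∀ᶠ p in 𝓕, H p = H' p ∧ ∀ S, N p S = N' p S ∧ b p S ≤ a p S) : Sml 𝓕 H' N' b := by
  intro ε hε
  obtain ⟨c, W, hW, h2⟩ := h ε hε
  refine ⟨c, _, inter_mem hW h1, fun S => ?_⟩
  obtain ⟨C, hC⟩ := h2 S
  refine ⟨C, fun p hp => ?_⟩
  obtain ⟨h3, h4⟩ := hp.2
  rw [← h3, ← (h4 S).1]
  exact (h4 S).2.trans (hC p hp.1)

theorem Sml.add (h : Sml 𝓕 H N a) (h' : Sml 𝓕 H N b) : Sml 𝓕 H N fun p S => a p S + b p S := by
  intro ε hε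
  obtain ⟨c, W, hW, h2⟩ := h (ε / 2) (half_pos hε)
  obtain ⟨c', W', hW', h2'⟩ := h' (ε / 2) (half_pos hε)
  refine ⟨c + c', _, inter_mem hW hW', fun S => ?_⟩
  obtain ⟨C, hC⟩ := h2 S
  obtain ⟨C', hC'⟩ := h2' S
  refine ⟨C + C', fun p hp => ?_⟩
  have h3 := hC p hp.1
  have h4 := hC' p hp.2
  simp only
  linarith

theorem Sml.mul (h : Sml 𝓕 H N a) {c : ℝ} (hc : 0 ≤ c) (hH : ∀ p, 0 ≤ H p) :
    Sml 𝓕 H N fun p S => c * a p S := by
  intro ε hε
  have h0 : 0 < c + 1 := by linarith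
  obtain ⟨d, W, hW, h2⟩ := h (ε / (c + 1)) (div_pos hε h0)
  refine ⟨c * d, W, hW, fun S => ?_⟩
  obtain ⟨C, hC⟩ := h2 S
  refine ⟨c * C, fun p hp => ?_⟩
  have h3 := mul_le_mul_of_nonneg_left (hC p hp) hc
  have h4 : c * (ε / (c + 1)) ≤ ε := by
    rw [← mul_div_assoc, div_le_iff₀ h0]
    nlinarith
  have h5 := mul_le_mul_of_nonneg_right h4 (hH p)
  simp only
  linarith

theorem sml_const (hH : ∀ p, 0 ≤ H p) (C : Finset (FinitePlace k) → ℝ) :
    Sml 𝓕 H N fun _ S => C S := by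
  intro ε hε
  refine ⟨0, Set.univ, univ_mem, fun S => ⟨C S, fun p _ => ?_⟩⟩
  have := mul_nonneg hε.le (hH p)
  simp only
  linarith

theorem sml_sum (hH : ∀ p, 0 ≤ H p) {τ : Type} (s : Finset τ)
    {a : τ → β → Finset (FinitePlace k) → ℝ} (h : ∀ i ∈ s, Sml 𝓕 H N (a i)) :
    Sml 𝓕 H N fun p S => ∑ i ∈ s, a i p S := by
  classical
  induction s using Finset.induction_on with
  | empty => simpa only [sum_empty] using sml_const hH fun _ => 0
  | insert i s hi ih =>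
    simp only [sum_insert hi]
    exact (h i (mem_insert_self _ _)).add (ih fun j hj => h j (mem_insert_of_mem hj))

theorem sml_of_eps (h : ∀ ε : ℝ, 0 < ε → Sml 𝓕 H N fun p S => a p S - ε * H p) : Sml 𝓕 H N a := by
  intro ε hε
  obtain ⟨c, W, hW, h2⟩ := h (ε / 2) (half_pos hε) (ε / 2) (half_pos hε)
  refine ⟨c, W, hW, fun S => ?_⟩
  obtain ⟨C, hC⟩ := h2 S
  refine ⟨C, fun p hp => ?_⟩
  have h3 := hC p hp
  simp only at h3
  linarith

theorem sml_of_ultra (hN : ∀ p S, 0 ≤ N p S) (h : ∀ U : Ultrafilter β, ↑U ≤ 𝓕 → Sml U H N a) :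
    Sml 𝓕 H N a := by
  intro ε hε
  by_contra hc
  let G : Filter β :=
    { sets := {V | ∃ c : ℝ, ∀ S, ∃ C : ℝ, ∀ p, p ∉ V → a p S ≤ ε * H p + c * N p S + C}
      univ_sets := ⟨0, fun _ => ⟨0, fun p hp => absurd (Set.mem_univ p) hp⟩⟩
      sets_of_superset := by
        rintro V V' ⟨c, h1⟩ hV
        refine ⟨c, fun S => ?_⟩
        obtain ⟨C, hC⟩ := h1 S
        exact ⟨C, fun p hp => hC p fun h2 => hp (hV h2)⟩
      inter_sets := by
        rintro V V' ⟨c, h1⟩ ⟨c', h1'⟩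
        refine ⟨max c c', fun S => ?_⟩
        obtain ⟨C, hC⟩ := h1 S
        obtain ⟨C', hC'⟩ := h1' S
        refine ⟨max C C', fun p hp => ?_⟩
        have h2 := mul_le_mul_of_nonneg_right (le_max_left c c') (hN p S)
        have h3 := mul_le_mul_of_nonneg_right (le_max_right c c') (hN p S)
        have h4 := le_max_left C C'
        have h5 := le_max_right C C'
        by_cases h6 : p ∈ V
        · have := hC' p fun h7 => hp ⟨h6, h7⟩
          linarith
        · have := hC p h6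
          linarith }
  have hne : (𝓕 ⊓ G).NeBot := by
    refine inf_neBot_iff.2 fun W hW V hV => ?_
    by_contra h1
    obtain ⟨c, h2⟩ := hV
    refine hc ⟨c, W, hW, fun S => ?_⟩
    obtain ⟨C, hC⟩ := h2 S
    exact ⟨C, fun p hp => hC p fun h3 => h1 ⟨p, hp, h3⟩⟩
  have hU := Ultrafilter.of_le (𝓕 ⊓ G)
  obtain ⟨c, W, hW, h2⟩ := h _ (hU.trans inf_le_left) ε hε
  have h3 : Wᶜ ∈ G := ⟨c, fun S => (h2 S).imp fun C hC p hp => hC p (not_not.1 hp)⟩
  exact Ultrafilter.compl_mem_iff_notMem.1 (hU.trans inf_le_right h3) hW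

theorem hh_nonneg [Fintype ι] [Fintype κ] (v : β → K → k) (y : ι → K) (u : κ → K) (p : β) :
    0 ≤ HH v y u p :=
  add_nonneg (logHeight_nonneg _) (sum_nonneg fun _ _ => zero_le_logHeight₁ _)

theorem nn_nonneg [Fintype κ] (v : β → K → k) (u : κ → K) (φ ψ : κ → ν → K) (p : β)
    (S : Finset (FinitePlace k)) : 0 ≤ NN v u φ ψ p S :=
  sum_nonneg fun _ _ => oS_nonneg fun _ => abs_nonneg _

theorem fs_lam [Finite ν] (x : k) (a b : ν → k) : FS (lam x a b) :=
  (fs_log x).add ((fs_ls a).sub (fs_ls b))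

theorem fs_pos (x : k) : FS fun w => log⁺ (w x) :=
  (fs_log x).comp₂ (fs_log x) (fun a _ => max 0 a) (max_self 0)

omit [NumberField k] in
theorem gn_eq (q : Polynomial k) (w : AbsoluteValue k ℝ) :
    log (Sh.gs 0 q (fun _ : Unit => (1 : k)) w) = gn q w := by
  have h := Sh.gs_eq (l := 0) (V := w) (y := fun _ : Unit => (1 : k))
    (fun e => one_ne_zero (congrFun e ())) q
  rw [pow_zero, one_pow, mul_one] at h
  rw [h, gn]

theorem fs_gn (q : Polynomial k) : FS (gn q) :=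
  funext (gn_eq q) ▸ Sh.finS_gs (fun e => one_ne_zero (congrFun e ())) q 0

omit [NumberField k] in
theorem gn_one {q : Polynomial k} (hq : q.Monic) (w : AbsoluteValue k ℝ) : 1 ≤ q.gaussNorm w 1 := by
  simpa [hq.coeff_natDegree] using q.le_gaussNorm w zero_le_one q.natDegree

omit [NumberField k] in
theorem gn_nonneg {q : Polynomial k} (hq : q.Monic) (w : AbsoluteValue k ℝ) : 0 ≤ gn q w :=
  log_nonneg (gn_one hq w)

theorem gn_mul {p q : Polynomial k} (hp : p.Monic) (hq : q.Monic) (w : FinitePlace k) :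
    gn (p * q) w.1 = gn p w.1 + gn q w.1 := by
  rw [gn, Polynomial.gaussNorm_mul (v := w.1) w.add_le one_pos,
    log_mul (zero_lt_one.trans_le (gn_one hp _)).ne' (zero_lt_one.trans_le (gn_one hq _)).ne']
  rfl

theorem oS_pos_le (S : Finset (FinitePlace k)) (x : k) :
    oS S (fun w => log⁺ (w x)) ≤ logHeight₁ x := by
  have e : ls ![x, 1] = fun w => log⁺ (w x) := funext fun w => by
    rw [ls, posLog_eq_log_max_one (w.nonneg _)]
    refine congrArg _ (le_antisymm (ciSup_le (Fin.forall_fin_two.2 ⟨?_, ?_⟩)) (max_le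
      (le_ciSup_of_le (Finite.bddAbove_range _) 1 ?_)
      (le_ciSup_of_le (Finite.bddAbove_range _) 0 ?_))) <;> simp
  rw [logHeight₁_eq_logHeight, ht_split S fun h => one_ne_zero (congrFun h 1), e]
  exact le_add_of_nonneg_left (iS_nonneg fun _ => posLog_nonneg)

theorem root_gn {L : Type} [Field L] [NumberField L] [Algebra k L] (S : Finset (FinitePlace k))
    (t : L) : (minpoly k t).natDegree * ((∑ᶠ W ∈ {W : FinitePlace L |
      ∀ w ∈ S, ¬W.maximalIdeal.asIdeal.LiesOver w.maximalIdeal.asIdeal}, log⁺ (W.1 t)) /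
        Module.finrank k L) = oS S (gn (minpoly k t)) := by
  have h := Sh.avg_root S 0 (x := fun _ : Unit => (1 : k)) (fun e => one_ne_zero (congrFun e ())) t
  simp only [gn_eq, Sh.avg, pow_zero, div_one] at h
  rw [Sh.not_above]
  exact h

end Pool.Agent.Lib.MP_8865d3_nt.Tr
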