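import Pool.Agent.Lib.MP_8865d3_nt.Tr.Num
import Pool.Agent.Lib.MP_8865d3_nt.Tr.Sml

/-! The terms of two coprime polynomials on a torus bundle. -/

namespace Pool.Agent.Lib.MP_8865d3_nt.Tr

open MvPolynomial Finset Height NumberField Filter Real Pool.Agent.Lib.MP_651af7_nt
open Tb Fc
open IntermediateField (adjoin)
open Rt (Pl av mu)

theorem lin_aeval {F K κ : Type} [Field F] [Field K] [Algebra F K] (u : κ → K) (τ : K)
    (P : MvPolynomial (Option κ) F) : aeval (fun o : Option κ => o.elim τ u) P =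
      (optionEquivLeft F κ P).eval₂ (aeval u : MvPolynomial κ F →ₐ[F] K).toRingHom τ := by
  induction P using MvPolynomial.induction_on with
  | C c => simp
  | add P Q hP hQ => rw [map_add, map_add, Polynomial.eval₂_add, hP, hQ]
  | mul_X P s hP =>
    rw [map_mul, map_mul, Polynomial.eval₂_mul, hP]
    cases s <;> simp

theorem lin_ker {A K : Type} [CommRing A] [IsDomain A] [UniqueFactorizationMonoid A] [Field K]
    {i : A →+* K} (hi : Function.Injective i) {G₀ G₁ : A} (h1 : G₁ ≠ 0)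
    (hc : IsRelPrime G₀ G₁) (P : Polynomial A) (hP : P.eval₂ i (i G₀ / i G₁) = 0) :
    Polynomial.C G₁ * Polynomial.X + Polynomial.C (-G₀) ∣ P := by
  let L := FractionRing A
  let j : L →+* K := IsFractionRing.lift hi
  have hj : j.comp (algebraMap A L) = i := RingHom.ext fun x => IsFractionRing.lift_algebraMap hi x
  have h2 : (Polynomial.C G₁ * Polynomial.X + Polynomial.C (-G₀)).IsPrimitive := fun r hr => by
    have h3 := (Polynomial.C_dvd_iff_dvd_coeff _ _).1 hr
    exact hc (by simpa using h3 0) (by simpa using h3 1)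
  have h3 : algebraMap A L G₁ ≠ 0 := (map_ne_zero_iff _ (IsFractionRing.injective A L)).2 h1
  have h4 : (P.map (algebraMap A L)).IsRoot (algebraMap A L G₀ / algebraMap A L G₁) := by
    refine j.injective ?_
    rw [map_zero, ← hP, Polynomial.eval_map, Polynomial.hom_eval₂, hj, map_div₀,
      ← RingHom.comp_apply, ← RingHom.comp_apply, hj]
  refine h2.dvd_of_fraction_map_dvd_fraction_map (K := L) ?_
  have h6 : (Polynomial.C G₁ * Polynomial.X + Polynomial.C (-G₀)).map (algebraMap A L) =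
      Polynomial.C (algebraMap A L G₁) *
        (Polynomial.X - Polynomial.C (algebraMap A L G₀ / algebraMap A L G₁)) := by
    rw [mul_sub, ← Polynomial.C_mul, mul_div_cancel₀ _ h3]
    simp [sub_eq_add_neg]
  rw [h6, (Polynomial.isUnit_C.2 h3.isUnit).mul_left_dvd]
  exact Polynomial.dvd_iff_isRoot.2 h4

variable {k K ι κ ν β : Type} [Field k] [NumberField k] [Field K] [Algebra k K] [Fintype ι]
  [Fintype κ] [Fintype ν] {𝓕 : Filter β} {v : β → K → k} {y : ι → K} {u : κ → K} {φ ψ : κ → ν → K}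

/-- The value of one term of a polynomial. -/
noncomputable def tm (v : β → K → k) (u : κ → K) {F : IntermediateField k K}
    (G : MvPolynomial κ F) (p : β) (a : κ →₀ ℕ) : k :=
  v p (coeff a G : F) * ∏ i, v p (u i) ^ a i

omit [NumberField k] in
theorem log_tm {F : IntermediateField k K} {G : MvPolynomial κ F} {p : β} {a : κ →₀ ℕ}
    (h : tm v u G p a ≠ 0) (hu : ∀ i, v p (u i) ≠ 0) (w : AbsoluteValue k ℝ) :
    log (w (tm v u G p a)) = log (w (v p (coeff a G : F))) + ∑ i, a i * log (w (v p (u i))) := by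
  rw [tm, map_mul, map_prod, log_mul (w.ne_zero (left_ne_zero_of_mul h))
    (prod_ne_zero_iff.2 fun i _ => w.ne_zero (pow_ne_zero _ (hu i))),
    log_prod fun i _ => w.ne_zero (pow_ne_zero _ (hu i))]
  simp only [map_pow, log_pow]

omit [NumberField k] in
theorem tm_ne (h : Sp 𝓕 v) (hu : ∀ i, u i ≠ 0) {F : IntermediateField k K} {G : MvPolynomial κ F}
    (hG : G ≠ 0) {U : Finset (κ →₀ ℕ)} (hU : G.support ⊆ U) :
    ∀ᶠ p in 𝓕, (fun a : U => tm v u G p a) ≠ 0 := by
  obtain ⟨a, ha⟩ := support_nonempty.2 hG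
  filter_upwards [h.ne (a := (coeff a G : F)) (by exact_mod_cast mem_support_iff.1 ha),
    eventually_all.2 fun i => h.ne (hu i)] with p h1 h2 h3
  exact mul_ne_zero h1 (prod_ne_zero_iff.2 fun i _ => pow_ne_zero _ (h2 i)) (congrFun h3 ⟨a, hU ha⟩)

theorem sml_nn {H : β → ℝ} {N : β → Finset (FinitePlace k) → ℝ} (hH : ∀ p, 0 ≤ H p) (c : ℝ) :
    Sml 𝓕 H N fun p S => c * N p S := fun ε hε =>
  ⟨c, Set.univ, univ_mem, fun _ => ⟨0, fun p _ => by nlinarith [hH p]⟩⟩

omit [Field K] [Algebra k K] in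
theorem le_hh (v : β → K → k) (y : ι → K) (u : κ → K) (p : β) :
    logHeight (fun a => v p (y a)) ≤ HH v y u p :=
  le_add_of_nonneg_right (sum_nonneg fun _ _ => zero_le_logHeight₁ _)

theorem sml_fal (E : Env 𝓕 v y) (N : β → Finset (FinitePlace k) → ℝ) (z : adjoin k (Set.range y)) :
    Sml 𝓕 (HH v y u) N fun p S => iS S fun w => |log (w (v p z))| := fun ε hε => by
  obtain ⟨W, hW, h⟩ := E.fal z z.2 ε hε
  refine ⟨0, W, hW, fun S => (h S).imp fun C h p hp => ?_⟩
  nlinarith [h p hp, le_hh v y u p]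

omit [Fintype ν] in
theorem lin_num (x : k) (S : Finset (FinitePlace k)) {r d n ε : ℝ} (hn : 0 ≤ n)
    (hε : 0 ≤ ε) (h1 : d ≤ (1 + ε) * n) (h2 : r - d ≤ ε * n) :
    r * oS S (fun w => max (lam x (fun _ : ν => 1) (fun _ => 1) w) 0) -
      d * oS S (lam x (fun _ : ν => 1) fun _ => 1) ≤
      n * (oS S (fun w => log⁺ (w x⁻¹)) + 2 * ε * logHeight₁ x) := by
  have h3 : (fun w : AbsoluteValue k ℝ => max (lam x (fun _ : ν => 1) (fun _ => 1) w) 0) =
      fun w => log⁺ (w x) := funext fun w => by rw [lam, sub_self, add_zero, max_comm]; rfl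
  have h4 : lam x (fun _ : ν => 1) (fun _ => 1) = fun w => log⁺ (w x) - log⁺ (w x⁻¹) :=
    funext fun w => by rw [lam, sub_self, add_zero, map_inv₀, posLog_sub_posLog_inv]
  have h5 := oS_pos_le S x
  have h6 := oS_pos_le S x⁻¹
  have h7 : 0 ≤ oS S fun w => log⁺ (w x) := oS_nonneg fun _ => posLog_nonneg
  have h8 : 0 ≤ oS S fun w => log⁺ (w x⁻¹) := oS_nonneg fun _ => posLog_nonneg
  rw [logHeight₁_inv] at h6
  rw [h3, h4, oS_sub (fs_pos x) (fs_pos x⁻¹)]
  nlinarith [mul_le_mul_of_nonneg_right h1 h8, mul_le_mul_of_nonneg_right h2 h7,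
    mul_le_mul_of_nonneg_left h5 (mul_nonneg hε hn), mul_le_mul_of_nonneg_left h6 (mul_nonneg hε hn)]

theorem lin_abs (x : k) (a b : ν → k) (S : Finset (FinitePlace k)) (r d : ℝ) :
    r * oS S (fun w => max (lam x a b w) 0) - d * oS S (lam x a b) ≤
      (|r| + |d|) * oS S fun w => |lam x a b w| := by
  have h0 := fs_lam x a b
  have h1 : FS fun w => max (lam x a b w) 0 := h0.comp₂ h0 (fun s _ => max s 0) (max_self 0)
  rw [← oS_mul _ h1, ← oS_mul _ h0, ← oS_sub (h1.mul _) (h0.mul _), ← oS_mul _ h0.abs]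
  refine oS_mono ((h1.mul _).sub (h0.mul _)) (h0.abs.mul _) fun w _ => ?_
  have h2 : |max (lam x a b w.1) 0| ≤ |lam x a b w.1| := by
    rw [abs_of_nonneg (le_max_right _ _)]
    exact max_le (le_abs_self _) (abs_nonneg _)
  have h3 := le_abs_self (r * max (lam x a b w.1) 0)
  have h4 := neg_le_abs (d * lam x a b w.1)
  rw [abs_mul] at h3 h4
  nlinarith [mul_le_mul_of_nonneg_left h2 (abs_nonneg r)]

theorem lin [Nonempty ν] (E : Env 𝓕 v y) (hu : AlgebraicIndependent (adjoin k (Set.range y)) u)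
    (hφ : Blk (adjoin k (Set.range y)) φ) (hψ : Blk (adjoin k (Set.range y)) ψ)
    {G₀ G₁ : MvPolynomial κ (adjoin k (Set.range y))} (h0 : G₀ ≠ 0) (h1 : G₁ ≠ 0)
    (hc : IsRelPrime G₀ G₁) {U : Finset (κ →₀ ℕ)} (hU₀ : G₀.support ⊆ U) (hU₁ : G₁.support ⊆ U) :
    Sml 𝓕 (HH v y u) (NN v u φ ψ) fun p S => iS S (ls fun a : U => tm v u G₀ p a) +
      oS S (fun w => max (ls (fun a : U => tm v u G₀ p a) w) (ls (fun a : U => tm v u G₁ p a) w)) -
      oS S fun w => log⁺ (w (v p (aeval u G₁ / aeval u G₀))) := by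
  classical
  have a0 : aeval u G₀ ≠ 0 := fun h => h0 (hu.eq_zero_of_aeval_eq_zero _ h)
  have a1 : aeval u G₁ ≠ 0 := fun h => h1 (hu.eq_zero_of_aeval_eq_zero _ h)
  have u0 : ∀ i, u i ≠ 0 := fun i => hu.ne_zero i
  set τ := aeval u G₀ / aeval u G₁ with hτ
  have t0 : τ ≠ 0 := div_ne_zero a0 a1
  obtain ⟨f, hf⟩ := (optionEquivLeft (adjoin k (Set.range y)) κ).surjective
    (Polynomial.C G₁ * Polynomial.X + Polynomial.C (-G₀))
  have c0 : ∀ a : κ →₀ ℕ, coeff (a.optionElim 0) f = -coeff a G₀ := fun a => by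
    rw [← optionEquivLeft_coeff_some_coeff_none, hf]
    simp
  have c1 : ∀ a : κ →₀ ℕ, coeff (a.optionElim 1) f = coeff a G₁ := fun a => by
    rw [← optionEquivLeft_coeff_some_coeff_none, hf]
    simp
  have d1 : f.degreeOf none = 1 := by
    rw [← natDegree_optionEquivLeft, hf, Polynomial.natDegree_linear h1]
  have f0 : f ≠ 0 := fun h => by simp [h] at d1
  have hL : ∀ z ∈ Algebra.adjoin (adjoin k (Set.range y)) (Set.range fun o : Option κ => o.elim τ u),
      Bd 𝓕 v (HH v y u) z := fun z hz => by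
    have h2 : ∀ G : MvPolynomial κ (adjoin k (Set.range y)),
        aeval u G ∈ adjoin (adjoin k (Set.range y)) (Set.range u) := fun G =>
      IntermediateField.algebra_adjoin_le_adjoin _ _ (by
        rw [Algebra.adjoin_range_eq_range_aeval]
        exact ⟨G, rfl⟩)
    have h3 : z ∈ adjoin (adjoin k (Set.range y)) (Set.range u) :=
      Algebra.adjoin_le (S := (adjoin (adjoin k (Set.range y)) (Set.range u)).toSubalgebra) (by
        rintro _ ⟨_ | i, rfl⟩
        exacts [(adjoin _ (Set.range u)).div_mem (h2 G₀) (h2 G₁),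
          IntermediateField.subset_adjoin _ _ ⟨i, rfl⟩]) hz
    exact E.bd κ u z (isIntegral_algebraMap (x := (⟨z, h3⟩ : adjoin _ (Set.range u))))
  obtain ⟨B, hB0, hB⟩ := hL τ (Algebra.subset_adjoin ⟨none, rfl⟩)
  have hH := hh_nonneg v y u
  refine sml_of_eps fun ε hε => ?_
  obtain ⟨δ, hδ, hδ'⟩ : ∃ δ, 0 < δ ∧ 2 * δ * B ≤ ε := ⟨ε / (2 * (B + 1)), by positivity, by
    rw [mul_div_assoc', div_mul_eq_mul_div, div_le_iff₀ (by positivity)]
    nlinarith⟩
  obtain ⟨M, N, hN, n1, n2⟩ := num (fun s => f.degreeOf s) hδ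
  let A : β → AbsoluteValue k ℝ → ℝ := fun p w => ls (fun a : U => tm v u G₀ p a) w -
    ∑ a ∈ U, |log (w (v p (coeff a G₀ : adjoin k (Set.range y))))|
  let D : ℕ := U.sup fun a => univ.sup a
  let l : β → κ → AbsoluteValue k ℝ → ℝ := fun p i =>
    lam (v p (u i)) (fun a => v p (φ i a)) fun a => v p (ψ i a)
  let m : β → AbsoluteValue k ℝ → ℝ := fun p w =>
    max (ls (fun a : U => tm v u G₀ p a) w) (ls (fun a : U => tm v u G₁ p a) w)
  have fm : ∀ p, FS (m p) := fun p => (fs_ls _).comp₂ (fs_ls _) max (max_self 0)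
  have fl : ∀ p, FS fun w => D * ∑ i, |l p i w| := fun p =>
    (FS.sum _ fun i => (fs_lam _ _ _).abs).mul _
  let R : β → Finset (FinitePlace k) → ℝ := fun p S => ∑ s : Option κ,
    ((Fintype.card (Bo N) - Fintype.card (Bo M)) * N s * oS S (fun w =>
      max (lam (v p (s.elim τ u)) (fun a => v p (s.elim (fun _ => 1) φ a))
        (fun a => v p (s.elim (fun _ => 1) ψ a)) w) 0) - (sm N s - sm M s) * oS S
      (lam (v p (s.elim τ u)) (fun a => v p (s.elim (fun _ => 1) φ a))
        fun a => v p (s.elim (fun _ => 1) ψ a)))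
  have blk : ∀ {χ : κ → ν → K}, Blk (adjoin k (Set.range y)) χ →
      Blk (adjoin k (Set.range y)) fun s : Option κ => s.elim (fun _ => (1 : K)) χ := fun h =>
    ⟨fun s a => by cases s; exacts [one_mem _, h.1 _ a], fun s => by
      cases s
      exacts [fun e => one_ne_zero (congrFun e (Classical.arbitrary ν)), h.2 _]⟩
  have key : Sml 𝓕 (HH v y u) (NN v u φ ψ) fun p S => Fintype.card (Bo M) *
      (iS S (A p) + oS S fun w => m p w - D * ∑ i, |l p i w|) - R p S := fun η hη => by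
    obtain ⟨W, hW, h⟩ := E.hyp (Option κ) ν (fun o => o.elim τ u) _ _ f M N (HH v y u)
      (fun s => by cases s; exacts [t0, u0 _]) (blk hφ) (blk hψ) f0
      (by rw [lin_aeval, hf]; simp [hτ, mul_div_cancel₀ _ a1])
      (fun P hP => by
        rw [lin_aeval] at hP
        rw [← map_dvd_iff (optionEquivLeft (adjoin k (Set.range y)) κ), hf]
        exact lin_ker (by exact hu) h1 hc _ hP) hN (le_hh v y u) hL η hη
    refine ⟨0, _, inter_mem hW ((tm_ne E.sp u0 h0 hU₀).and ((tm_ne E.sp u0 h1 hU₁).and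
      ((eventually_all.2 fun i => E.sp.ne (u0 i)).and (E.sp.zero.and
        ((eventually_all_finset U).2 fun a _ => (E.sp.mul (algebraMap k K (-1))
          (coeff a G₀ : adjoin k (Set.range y))).and (E.sp.const (-1))))))),
      fun S => (h S).imp fun C h p ⟨hp, p0, p1, p2, p3, p4⟩ => ?_⟩
    have p5 : ∀ a ∈ U, v p (coeff (Finsupp.optionElim 0 a) f : adjoin k (Set.range y)) =
        -v p (coeff a G₀ : adjoin k (Set.range y)) := fun a ha => by
      rw [c0, ← neg_one_mul (v p _), ← (p4 a ha).2, ← (p4 a ha).1]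
      simp
    have p6 : ∀ (G : MvPolynomial κ (adjoin k (Set.range y))) (a : U) (j : ℕ) (w : FinitePlace k),
        tm v u G p a ≠ 0 → log (w.1 (tm v u G p a)) - D * ∑ i, |l p i w.1| ≤
          log (w.1 (v p (coeff a G : adjoin k (Set.range y)))) -
          ∑ s, (Finsupp.optionElim j a.1 s : ℕ) *
            (ls (fun b => v p (s.elim (fun _ => 1) φ b)) w.1 -
              ls (fun b => v p (s.elim (fun _ => 1) ψ b)) w.1) := fun G a j w h2 => by
      rw [log_tm h2 p2, Fintype.sum_option, mul_sum]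
      simp only [Option.elim_none, sub_self, mul_zero, zero_add, Option.elim_some,
        Finsupp.optionElim_apply_some]
      rw [add_sub_assoc, sub_eq_add_neg _ (∑ i, _ * (_ - _)), ← sum_sub_distrib, ← sum_neg_distrib]
      refine add_le_add_right (sum_le_sum fun i _ => ?_) _
      have h3 : (a.1 i : ℝ) ≤ D := by
        exact_mod_cast (le_sup (f := a.1) (mem_univ i)).trans
          (le_sup (f := fun a : κ →₀ ℕ => univ.sup a) a.2)
      have h4 : l p i w.1 = log (w.1 (v p (u i))) + (ls (fun b => v p (φ i b)) w.1 -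
        ls (fun b => v p (ψ i b)) w.1) := rfl
      nlinarith [mul_le_mul_of_nonneg_right h3 (abs_nonneg (l p i w.1)),
        mul_le_mul_of_nonneg_left (le_abs_self (l p i w.1)) (Nat.cast_nonneg (α := ℝ) (a.1 i))]
    have h2 := h p hp (A p) (fun w => m p w - D * ∑ i, |l p i w|) ((fm p).sub (fl p))
      (fun s => ?_) fun w => ?_
    · linarith
    · obtain ⟨a, h2, h3⟩ := exists_ls p0 (av s)
      refine ⟨Finsupp.optionElim 0 a.1, mem_support_iff.2 fun e => ?_, ?_⟩
      · rw [c0, neg_eq_zero] at e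
        exact left_ne_zero_of_mul h2 (by rw [e]; exact p3)
      · have h4 := (le_abs_self _).trans (single_le_sum (f := fun a =>
          |log (av s (v p (coeff a G₀ : adjoin k (Set.range y))))|) (fun _ _ => abs_nonneg _) a.2)
        rw [Fintype.sum_option]
        simp only [A, h3, log_tm h2 p2, Finsupp.optionElim_apply_none, Nat.cast_zero, zero_mul,
          zero_add, Finsupp.optionElim_apply_some, Option.elim_some]
        linarith
    · rcases le_total (ls (fun a : U => tm v u G₀ p a) w.1) (ls (fun a : U => tm v u G₁ p a) w.1)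
        with h2 | h2
      · obtain ⟨a, h3, h4⟩ := exists_ls p1 w.1
        refine ⟨Finsupp.optionElim 1 a.1, by rw [c1]; exact left_ne_zero_of_mul h3, ?_⟩
        simp only [m, max_eq_right h2, h4, c1]
        exact p6 G₁ a 1 w h3
      · obtain ⟨a, h3, h4⟩ := exists_ls p0 w.1
        refine ⟨Finsupp.optionElim 0 a.1, by
          rw [p5 _ a.2]; exact neg_ne_zero.2 (left_ne_zero_of_mul h3), ?_⟩
        simp only [m, max_eq_left h2, h4, p5 _ a.2, AbsoluteValue.map_neg]
        exact p6 G₀ a 0 w h3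
  have n0 : (0 : ℝ) < Fintype.card (Bo M) := Nat.cast_pos.2 Fintype.card_pos
  let c : κ → ℝ := fun i => |((Fintype.card (Bo N) : ℝ) - Fintype.card (Bo M)) * N (some i)| +
    |sm N (some i) - sm M (some i)|
  refine ((((key.add (sml_nn hH (∑ i, c i))).mul (inv_nonneg.2 n0.le) hH).add
    (sml_sum hH U fun a _ => sml_fal E _ (coeff a G₀))).add ((sml_nn hH D).add
      (sml_const hH fun _ => ε))).mono ?_
  filter_upwards [hB, E.sp.one, E.sp.inv τ] with p p1 p3 p4
  refine ⟨rfl, fun S => ⟨rfl, ?_⟩⟩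
  have h2 : R p S ≤ Fintype.card (Bo M) * (oS S (fun w => log⁺ (w (v p τ)⁻¹)) +
      2 * δ * logHeight₁ (v p τ)) + (∑ i, c i) * NN v u φ ψ p S := by
    simp only [R]
    rw [Fintype.sum_option, sum_mul]
    refine add_le_add ?_ (sum_le_sum fun i _ => (lin_abs _ _ _ S _ _).trans
      (mul_le_mul_of_nonneg_left (single_le_sum (f := fun i => oS S fun w => |l p i w|)
        (fun _ _ => oS_nonneg fun _ => abs_nonneg _) (mem_univ i)) (by positivity)))
    simp only [Option.elim_none, p3]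
    exact lin_num _ S n0.le hδ.le (by simpa [d1] using n1) n2
  have h3 : oS S (fun w => m p w - D * ∑ i, |l p i w|) = oS S (m p) - D * NN v u φ ψ p S := by
    rw [oS_sub (fm p) (fl p), oS_mul _ (FS.sum _ fun i => (fs_lam _ _ _).abs),
      oS_sum _ fun i => (fs_lam _ _ _).abs]
    rfl
  have h4 : iS S (A p) = iS S (ls fun a : U => tm v u G₀ p a) - ∑ a ∈ U,
      iS S fun w => |log (w (v p (coeff a G₀ : adjoin k (Set.range y))))| := by
    rw [← iS_sum, ← iS_sub]
  have h5 : 2 * δ * logHeight₁ (v p τ) ≤ ε * (1 + HH v y u p) := by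
    nlinarith [mul_le_mul_of_nonneg_left p1 (by positivity : 0 ≤ 2 * δ),
      mul_le_mul_of_nonneg_right hδ' (by linarith [hH p] : 0 ≤ 1 + HH v y u p)]
  rw [← inv_div, ← hτ, p4, h3, h4]
  have h6 : iS S (ls fun a : U => tm v u G₀ p a) - (∑ a ∈ U,
      iS S fun w => |log (w (v p (coeff a G₀ : adjoin k (Set.range y))))|) +
      (oS S (m p) - D * NN v u φ ψ p S) - (oS S (fun w => log⁺ (w (v p τ)⁻¹)) +
      2 * δ * logHeight₁ (v p τ)) ≤ (Fintype.card (Bo M) : ℝ)⁻¹ * (Fintype.card (Bo M) *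
      (iS S (ls fun a : U => tm v u G₀ p a) - (∑ a ∈ U,
      iS S fun w => |log (w (v p (coeff a G₀ : adjoin k (Set.range y))))|) +
      (oS S (m p) - D * NN v u φ ψ p S)) - R p S + (∑ i, c i) * NN v u φ ψ p S) := by
    rw [le_inv_mul_iff₀ n0]
    linarith
  linarith

end Pool.Agent.Lib.MP_8865d3_nt.Tr
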