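import Pool.Agent.Lib.MP_8865d3_nt.Tr.Defs

/-! The determinant at a dominant term. -/

namespace Pool.Agent.Lib.MP_8865d3_nt.Tr

open MvPolynomial Finset Height NumberField Filter Real Pool.Agent.Lib.MP_651af7_nt
open Tb Fc
open IntermediateField (adjoin)
open Rt (Pl av mu)

theorem vx_add {F : Type} [Field F] {w : AbsoluteValue F ℝ} (hw : IsNonarchimedean w) {a b : F}
    (h : w b < w a) : w (a + b) = w a := by
  refine le_antisymm ((hw _ _).trans (max_le le_rfl h.le)) (not_lt.1 fun h' => ?_)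
  have e := hw (a + b) (-b)
  rw [add_neg_cancel_right, w.map_neg] at e
  exact e.not_gt (max_lt h' h)

/-- Among the maximisers take the exponent of largest Euclidean norm; by strict convexity no other
term of the Leibniz formula uses maximisers only. -/
theorem vtx {F σ : Type} [Field F] [Fintype σ] [DecidableEq σ] {w : AbsoluteValue F ℝ}
    (hw : IsNonarchimedean w) {U : Finset (σ →₀ ℕ)} {c : (σ →₀ ℕ) → F} (hc : ∀ m ∉ U, c m = 0)
    (h0 : ∃ m, c m ≠ 0) (n : σ → ℝ) (M : σ → ℕ) :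
    ∃ m₀ ∈ U, c m₀ ≠ 0 ∧ (∀ m, c m ≠ 0 →
      log (w (c m)) + ∑ s, m s * n s ≤ log (w (c m₀)) + ∑ s, m₀ s * n s) ∧
      w (rm c m₀ M).det = w (c m₀) ^ Fintype.card (Bo M) := by
  classical
  obtain ⟨g, hg⟩ : ∃ g : (σ →₀ ℕ) → ℝ, ∀ m, g m = log (w (c m)) + ∑ s, m s * n s :=
    ⟨_, fun _ => rfl⟩
  have hU : ∀ m, c m ≠ 0 → m ∈ U.filter fun m => c m ≠ 0 := fun m h =>
    mem_filter.2 ⟨by_contra fun a => h (hc m a), h⟩
  obtain ⟨m₁, a1, a2⟩ := exists_max_image (U.filter fun m => c m ≠ 0) g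
    (h0.imp fun m h => hU m h)
  obtain ⟨m₀, b1, b2⟩ := exists_max_image ((U.filter fun m => c m ≠ 0).filter fun m => g m₁ ≤ g m)
    (fun m => ∑ s, (m s : ℝ) ^ 2) ⟨m₁, mem_filter.2 ⟨a1, le_rfl⟩⟩
  obtain ⟨b3, b4⟩ := mem_filter.1 b1
  obtain ⟨b5, b6⟩ := mem_filter.1 b3
  have top : ∀ m, c m ≠ 0 → g m ≤ g m₀ := fun m h => (a2 m (hU m h)).trans b4
  have p0 : 0 < w (c m₀) ^ Fintype.card (Bo M) := pow_pos (w.pos b6) _
  refine ⟨m₀, b5, b6, fun m h => hg m ▸ hg m₀ ▸ top m h, ?_⟩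
  have key : ∀ p : Equiv.Perm (Bo M), p ≠ 1 →
      w (∏ i, rm c m₀ M (p i) i) < w (c m₀) ^ Fintype.card (Bo M) := fun p hp => by
    by_cases hz : ∃ i, rm c m₀ M (p i) i = 0
    · obtain ⟨i, hi⟩ := hz
      rwa [prod_eq_zero (f := fun i => rm c m₀ M (p i) i) (mem_univ i) hi, map_zero]
    have h1 : ∀ i, bx (p i) ≤ m₀ + bx i := fun i => by_contra fun a => hz ⟨i, if_neg a⟩
    obtain ⟨μ, hμ⟩ : ∃ μ : Bo M → σ →₀ ℕ, ∀ i, μ i = m₀ + bx i - bx (p i) := ⟨_, fun _ => rfl⟩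
    have h2 : ∀ i, rm c m₀ M (p i) i = c (μ i) := fun i => hμ i ▸ if_pos (h1 i)
    have h3 : ∀ i, c (μ i) ≠ 0 := fun i a => hz ⟨i, (h2 i).trans a⟩
    have h4 : ∀ i s, (μ i s : ℝ) = m₀ s + ((i s : ℕ) : ℝ) - ((p i s : ℕ) : ℝ) := fun i s => by
      rw [hμ, Finsupp.tsub_apply, Nat.cast_sub (h1 i s), Finsupp.add_apply, Nat.cast_add]
      rfl
    have h5 : ∀ s, ∑ i, (μ i s : ℝ) = Fintype.card (Bo M) * m₀ s := fun s => by
      simp only [h4, sum_sub_distrib, sum_add_distrib, sum_const, card_univ, nsmul_eq_mul]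
      rw [Equiv.sum_comp p fun i => ((i s : ℕ) : ℝ), add_sub_cancel_right]
    have h6 : ∃ i ∈ (univ : Finset (Bo M)), g (μ i) < g m₀ := by
      by_contra! hn
      have e1 := sum_le_sum fun i (_ : i ∈ univ) =>
        b2 (μ i) (mem_filter.2 ⟨hU _ (h3 i), b4.trans (hn i (mem_univ i))⟩)
      have e2 : ∑ i, ∑ s, ((μ i s : ℝ) - m₀ s) ^ 2 =
          ∑ i, ∑ s, (μ i s : ℝ) ^ 2 - ∑ _i : Bo M, ∑ s, (m₀ s : ℝ) ^ 2 := by
        rw [sum_comm, sum_comm (f := fun i s => (μ i s : ℝ) ^ 2),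
          sum_comm (f := fun (_ : Bo M) s => (m₀ s : ℝ) ^ 2), ← sum_sub_distrib]
        refine sum_congr rfl fun s _ => ?_
        simp only [sub_sq, sum_add_distrib, sum_sub_distrib, ← sum_mul, ← mul_sum, h5, sum_const,
          card_univ, nsmul_eq_mul]
        ring
      have n1 : ∀ i, 0 ≤ ∑ s, ((μ i s : ℝ) - m₀ s) ^ 2 := fun i =>
        sum_nonneg fun s _ => sq_nonneg _
      refine hp (Equiv.ext fun i => funext fun s => Fin.ext ?_)
      have e3 := (single_le_sum (f := fun s => ((μ i s : ℝ) - m₀ s) ^ 2) (fun s _ => sq_nonneg _)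
        (mem_univ s)).trans ((single_le_sum (fun i _ => n1 i) (mem_univ i)).trans
        (e2.trans_le (sub_nonpos.2 e1)))
      have e4 := pow_eq_zero_iff two_ne_zero |>.1 (le_antisymm e3 (sq_nonneg _))
      rw [h4] at e4
      have e5 : ((p i s : ℕ) : ℝ) = ((i s : ℕ) : ℝ) := by linarith
      exact_mod_cast e5
    have h7 := sum_lt_sum (fun i _ => top _ (h3 i)) h6
    simp only [hg, sum_add_distrib, sum_const, card_univ, nsmul_eq_mul] at h7
    rw [sum_comm, mul_sum] at h7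
    simp only [← sum_mul, h5, mul_assoc, add_lt_add_iff_right] at h7
    have h8 : 0 < ∏ i, w (c (μ i)) := prod_pos fun i _ => w.pos (h3 i)
    rw [prod_congr rfl fun i _ => h2 i, map_prod, ← log_lt_log_iff h8 p0, log_pow,
      log_prod fun i _ => (w.pos (h3 i)).ne']
    exact h7
  have e1 : ∏ i, rm c m₀ M i i = c m₀ ^ Fintype.card (Bo M) := by
    rw [prod_congr rfl fun i _ => show rm c m₀ M i i = c m₀ from
      (if_pos le_add_self).trans (by rw [add_tsub_cancel_right]), prod_const, card_univ]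
  have e2 : w (∑ p ∈ univ.erase (1 : Equiv.Perm (Bo M)), ((Equiv.Perm.sign p : ℤ) : F) *
      ∏ i, rm c m₀ M (p i) i) < w (c m₀) ^ Fintype.card (Bo M) := by
    refine sum_induction _ (fun x => w x < w (c m₀) ^ Fintype.card (Bo M))
      (fun a b ha hb => (hw a b).trans_lt (max_lt ha hb)) (by rwa [map_zero]) fun p hp => ?_
    have e3 : w ((Equiv.Perm.sign p : ℤ) : F) = 1 := by
      rcases Int.units_eq_one_or (Equiv.Perm.sign p) with e | e <;> simp [e]
    rw [map_mul, e3, one_mul]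
    exact key p (ne_of_mem_erase hp)
  rw [Matrix.det_apply', ← add_sum_erase _ _ (mem_univ 1)]
  simp only [Equiv.Perm.sign_one, Units.val_one, Int.cast_one, one_mul, Equiv.Perm.one_apply, e1]
  rw [← map_pow] at e2 ⊢
  exact vx_add hw e2

end Pool.Agent.Lib.MP_8865d3_nt.Tr
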