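import Pool.Agent.Lib.MP_8865d3_nt.Tr.La
import Pool.Agent.Lib.MP_8865d3_nt.Tr.Vx

/-! The monomials of a box modulo one equation. -/

namespace Pool.Agent.Lib.MP_8865d3_nt.Tr

open MvPolynomial Finset Height NumberField Filter Real Pool.Agent.Lib.MP_651af7_nt
open Tb Fc
open IntermediateField (adjoin)
open Rt (Pl av mu)

section aux

variable {F σ : Type} [Field F] [Fintype σ] [DecidableEq σ]

omit [DecidableEq σ] in
theorem box_bx {M : σ → ℕ} (α : Bo M) (s : σ) : bx α s = α s := rfl

omit [DecidableEq σ] in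
theorem box_inj {M : σ → ℕ} {a b : Bo M} (h : bx a = bx b) : a = b :=
  funext fun s => Fin.ext (by rw [← box_bx, ← box_bx, h])

theorem box_coeff {M : σ → ℕ} (c : Bo M → F) (a : Bo M) :
    coeff (bx a) (∑ b, monomial (bx b) (c b)) = c a := by
  rw [coeff_sum, sum_eq_single a]
  · rw [coeff_monomial, if_pos rfl]
  · intro b _ hb
    rw [coeff_monomial, if_neg fun h => hb (box_inj h)]
  · exact fun h => absurd (mem_univ a) h

theorem box_deg {M : σ → ℕ} (c : Bo M → F) (s : σ) :
    (∑ b, monomial (bx b) (c b)).degreeOf s ≤ M s := by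
  refine (degreeOf_sum_le s _ _).trans (Finset.sup_le fun b _ => ?_)
  by_cases hb : c b = 0
  · simp [hb]
  · rw [degreeOf_monomial_eq _ _ hb, box_bx]
    exact Nat.lt_succ_iff.1 (b s).2

theorem box_sum {M : σ → ℕ} {P : MvPolynomial σ F} (h : ∀ s, P.degreeOf s ≤ M s) :
    P = ∑ b : Bo M, monomial (bx b) (coeff (bx b) P) := by
  ext m
  by_cases hm : ∀ s, m s ≤ M s
  · have h1 : m = bx (M := M) fun s => ⟨m s, Nat.lt_succ_of_le (hm s)⟩ := by
      ext s
      rfl
    rw [h1, box_coeff]
  · have h1 : ∀ Q : MvPolynomial σ F, (∀ s, Q.degreeOf s ≤ M s) → coeff m Q = 0 := fun Q hQ => by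
      by_contra hc
      exact hm fun s => (monomial_le_degreeOf s (mem_support_iff.2 hc)).trans (hQ s)
    rw [h1 P h, h1 _ (box_deg _)]

theorem box_aeval {K : Type} [Field K] [Algebra F K] (ξ : σ → K) {M : σ → ℕ} (c : Bo M → F) :
    aeval ξ (∑ b, monomial (bx b) (c b)) = ∑ b, c b • ∏ s, ξ s ^ (b s : ℕ) := by
  rw [map_sum]
  refine sum_congr rfl fun b _ => ?_
  rw [aeval_monomial, Finsupp.prod_fintype _ _ fun _ => pow_zero _, Algebra.smul_def]
  rfl

theorem box_ext {α β : Type} [Fintype α] [Fintype β] {j : α → β} (hj : Function.Injective j) :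
    ∃ e : α ⊕ Fin (Fintype.card β - Fintype.card α) ≃ β, ∀ a, e (.inl a) = j a := by
  classical
  have h : Fintype.card ((Set.range j)ᶜ : Set β) = Fintype.card β - Fintype.card α := by
    rw [Fintype.card_compl_set, Set.card_range_of_injective hj]
  exact ⟨((Equiv.ofInjective j hj).sumCongr (Fintype.equivFinOfCardEq h).symm).trans
    (Equiv.Set.sumCompl _), fun a => rfl⟩

end aux

theorem vtx_triv {F σ : Type} [Field F] [Fintype σ] [DecidableEq σ] {f : MvPolynomial σ F}
    (hf : f ≠ 0) (n : σ → ℝ) (M : σ → ℕ) :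
    ∃ m₀ ∈ f.support, (∀ m ∈ f.support, ∑ s, m s * n s ≤ ∑ s, m₀ s * n s) ∧
      (rm (fun a => coeff a f) m₀ M).det ≠ 0 := by
  classical
  have h1 : ∀ x : F, x ≠ 0 → (AbsoluteValue.trivial : AbsoluteValue F ℝ) x = 1 := fun x hx =>
    AbsoluteValue.trivial_apply hx
  have hw : IsNonarchimedean (AbsoluteValue.trivial : AbsoluteValue F ℝ) := by
    intro x y
    by_cases hx : x = 0
    · rw [hx, zero_add]
      exact le_max_right _ _
    · by_cases hxy : x + y = 0
      · rw [hxy, map_zero]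
        exact le_max_of_le_left (AbsoluteValue.nonneg _ _)
      · rw [h1 _ hxy, h1 _ hx]
        exact le_max_left _ _
  obtain ⟨m₀, hm, hc, hmax, hdet⟩ := vtx hw (U := f.support) (c := fun a => coeff a f)
    (fun m hm => notMem_support_iff.1 hm) (exists_coeff_ne_zero hf) n M
  refine ⟨m₀, hm, fun m hm => ?_, fun h => ?_⟩
  · have h2 := hmax m (mem_support_iff.1 hm)
    rwa [h1 _ hc, h1 _ (mem_support_iff.1 hm), add_le_add_iff_left] at h2
  · rw [h, map_zero, h1 _ hc, one_pow] at hdet
    exact zero_ne_one hdet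

theorem box {F K σ : Type} [Field F] [Field K] [Algebra F K] [Fintype σ] [DecidableEq σ]
    {ξ : σ → K} {f : MvPolynomial σ F} (hf : f ≠ 0) (h0 : aeval ξ f = 0)
    (hk : ∀ P, aeval ξ P = 0 → f ∣ P) {M N : σ → ℕ} (hN : ∀ s, N s = M s + f.degreeOf s) :
    ∃ (r : ℕ) (t : Fin r → K) (B : Matrix (Bo N) (Fin r) F)
      (e : f.support → (Bo M ⊕ Fin r ≃ Bo N)) (ρ : F), ρ ≠ 0 ∧ LinearIndependent F t ∧
      (∀ α, ∑ l, B α l • t l = ∏ s, ξ s ^ (α s : ℕ)) ∧
      (∀ m b s, (e m (.inl b) s : ℕ) = m.1 s + b s) ∧ ∀ m : f.support,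
        (rm (fun a => coeff a f) m M).det ^ 2 =
          (ρ * (B.submatrix (fun l => e m (.inr l)) id).det) ^ 2 := by
  have hlt : ∀ (m : f.support) (b : Bo M) (s : σ), m.1 s + b s < N s + 1 := fun m b s => by
    have h1 := monomial_le_degreeOf s m.2
    have h2 := (b s).2
    have h3 := hN s
    omega
  have hj : ∀ m : f.support,
      Function.Injective fun (b : Bo M) => (fun s => ⟨m.1 s + b s, hlt m b s⟩ : Bo N) :=
    fun m a b h => funext fun s => Fin.ext (Nat.add_left_cancel (congrArg (fun x => (x s).1) h))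
  choose e he using fun m => box_ext (hj m)
  have he' : ∀ m b s, (e m (.inl b) s : ℕ) = m.1 s + b s := fun m b s => by rw [he]
  set R : Matrix (Bo M) (Bo N) F :=
    Matrix.of fun b a => coeff (bx a) (f * monomial (bx b) 1) with hR
  have hsub : ∀ m : f.support,
      (R.submatrix id fun b => e m (.inl b)) = rm (fun a => coeff a f) m M := fun m => by
    ext i j
    have h1 : bx (e m (.inl j)) = m.1 + bx j := by
      ext s
      rw [box_bx, he', Finsupp.add_apply, box_bx]
    simp only [hR, rm, Matrix.submatrix_apply, Matrix.of_apply, id, coeff_mul_monomial', h1,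
      mul_one]
  obtain ⟨m₀, hm₀, -, hd⟩ := vtx_triv hf 0 M
  obtain ⟨t, B, h1, h2, h3⟩ := la R (fun a => ∏ s, ξ s ^ (a s : ℕ)) (fun b => by
      have hdeg : ∀ s, (f * monomial (bx b) 1).degreeOf s ≤ N s := fun s => by
        have h1 := degreeOf_mul_le s f (monomial (bx b) 1)
        rw [degreeOf_monomial_eq _ _ one_ne_zero, box_bx] at h1
        have h2 := (b s).2
        have h3 := hN s
        omega
      have h1 := congrArg (aeval ξ) (box_sum hdeg)
      rw [box_aeval, map_mul, h0, zero_mul] at h1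
      exact h1.symm)
    (fun c hc => by
      obtain ⟨g, hg⟩ := hk _ ((box_aeval ξ c).trans hc)
      have hdeg : ∀ s, g.degreeOf s ≤ M s := fun s => by
        by_cases hg0 : g = 0
        · simp [hg0]
        · have h1 := box_deg c s
          rw [hg, degreeOf_mul_eq hf hg0, hN] at h1
          omega
      refine ⟨fun b => coeff (bx b) g, funext fun a => ?_⟩
      rw [← box_coeff c a, hg]
      conv_lhs => rw [box_sum hdeg, mul_sum, coeff_sum]
      refine sum_congr rfl fun b _ => ?_
      simp only [hR, Matrix.of_apply, coeff_mul_monomial']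
      split_ifs
      · rw [mul_one, mul_comm]
      · rw [mul_zero])
    (e ⟨m₀, hm₀⟩) (by rw [hsub]; exact hd)
  refine ⟨_, t, B, e, _, hd, h1, h2, he', fun m => ?_⟩
  rw [← hsub m, h3, hsub]

end Pool.Agent.Lib.MP_8865d3_nt.Tr
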