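import Pool.Agent.Lib.MP_8865d3_nt.Tr.Defs
import Pool.Agent.Lib.MP_651af7_nt.Nc.Sub
import Pool.Agent.Lib.MP_651af7_nt.Fc.Core

/-! Functions on the base and heights of algebraic functions. -/

namespace Pool.Agent.Lib.MP_8865d3_nt.Tr

open MvPolynomial Finset Height NumberField Filter Real Pool.Agent.Lib.MP_651af7_nt
open Tb Fc
open IntermediateField (adjoin)
open Rt (Pl av mu)

variable {k K ι β : Type} [Field k] [NumberField k] [Field K] [Algebra k K] [Fintype ι]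
  {𝓕 : Filter β} {v : β → K → k} {y : ι → K} {J : Ideal (MvPolynomial ι k)}

theorem envA_abs {t E E' : ℝ} (ht : 0 ≤ t) (h0 : 0 ≤ E) (h0' : 0 ≤ E') (h1 : t ≤ exp E)
    (h2 : t⁻¹ ≤ exp E') : |log t| ≤ E + E' := by
  rcases ht.eq_or_lt with rfl | ht
  · rw [log_zero, abs_zero]
    positivity
  have h3 := (log_le_iff_le_exp ht).2 h1
  have h4 := (log_le_iff_le_exp (inv_pos.2 ht)).2 h2
  rw [log_inv] at h4
  exact abs_le.2 ⟨by linarith, by linarith⟩

theorem env_fal (D : Nc.Dn J y) (h : Sp 𝓕 v) {z : K} (hz : z ∈ adjoin k (Set.range y)) {ε : ℝ}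
    (hε : 0 < ε) : ∃ W ∈ 𝓕, ∀ S, ∃ C : ℝ, ∀ p ∈ W,
      iS S (fun w => |log (w (v p z))|) ≤ ε * logHeight (fun a => v p (y a)) + C := by
  obtain ⟨W, hW, h1⟩ := D.fal h ⟨z, hz⟩ (ε / 2) (half_pos hε)
  obtain ⟨W', hW', h2⟩ := D.fal h ⟨z⁻¹, inv_mem hz⟩ (ε / 2) (half_pos hε)
  refine ⟨_, inter_mem (inter_mem hW hW') (h.inv z), fun S => ?_⟩
  obtain ⟨C, hC⟩ := h1 S
  obtain ⟨C', hC'⟩ := h2 S
  refine ⟨C + C', fun p hp => ?_⟩
  obtain ⟨E, e0, e1, e2⟩ := hC p hp.1.1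
  obtain ⟨E', f0, f1, f2⟩ := hC' p hp.1.2
  have h3 : iS S (fun w => |log (w (v p z))|) ≤ ∑ s : Pl S, (mu s * E s + mu s * E' s) := by
    refine sum_le_sum fun s _ => ?_
    rw [← mul_add]
    refine mul_le_mul_of_nonneg_left (envA_abs (apply_nonneg _ _) (e0 s) (f0 s) (e2 s _ le_rfl) ?_)
      (Nat.cast_nonneg _)
    have h4 : av s (v p z⁻¹) ≤ exp (E' s) := f2 s _ le_rfl
    have h5 : v p z⁻¹ = (v p z)⁻¹ := hp.2
    rwa [h5, map_inv₀] at h4
  rw [sum_add_distrib] at h3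
  linarith

theorem env_bd (h : Sp 𝓕 v) (h1 : ∃ a, y a = 1) {κ : Type} [Fintype κ] (u : κ → K) {z : K}
    (hz : IsIntegral (adjoin (adjoin k (Set.range y)) (Set.range u)) z) :
    Bd 𝓕 v (HH v y u) z := by
  obtain ⟨o, ho⟩ := h1
  have h2 : ∀ x ∈ adjoin (adjoin k (Set.range y)) (Set.range u),
      x ∈ adjoin k (Set.range (Sum.elim y u)) := fun x hx => by
    rw [← IntermediateField.mem_restrictScalars k, IntermediateField.adjoin_adjoin_left] at hx
    rwa [Set.Sum.elim_range]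
  obtain ⟨C, c0, hc⟩ := Fc.ht_alg h (f := Sum.elim y u) (z := z)
    (IntermediateField.isAlgebraic_adjoin_iff.1 (hz.isAlgebraic.ringHom_of_comp_eq
      ((algebraMap (adjoin (adjoin k (Set.range y)) (Set.range u)) K).codRestrict
        (adjoin k (Set.range (Sum.elim y u))) fun x => h2 x x.2) (RingHom.id K)
      (RingHom.injective _) rfl))
  refine ⟨C * (1 + Fintype.card ι), by positivity, ?_⟩
  filter_upwards [hc, h.one] with p p1 p2
  have e1 : ∑ i, logHeight₁ (v p (y i)) ≤ Fintype.card ι * logHeight fun i => v p (y i) :=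
    (sum_le_card_nsmul _ _ _ fun i _ => by
      have h3 := logHeight_comp_le ![i, o] fun i => v p (y i)
      rw [logHeight₁_eq_logHeight]
      refine le_of_eq_of_le (congrArg _ (funext fun b => ?_)) h3
      fin_cases b
      · rfl
      · simp [ho, p2]).trans_eq (by simp)
  have e2 : 0 ≤ ∑ i, logHeight₁ (v p (u i)) := sum_nonneg fun i _ => zero_le_logHeight₁ _
  have e3 := logHeight_nonneg fun i => v p (y i)
  have e4 : (0 : ℝ) ≤ Fintype.card ι := Nat.cast_nonneg _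
  simp only [Fintype.sum_sum_type, Sum.elim_inl, Sum.elim_inr] at p1
  rw [HH, mul_assoc]
  refine p1.trans (mul_le_mul_of_nonneg_left ?_ c0)
  nlinarith [mul_nonneg e4 e2]

end Pool.Agent.Lib.MP_8865d3_nt.Tr
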