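import Pool.Agent.Lib.MP_8865d3_nt.Tr.HypA
import Pool.Agent.Lib.MP_8865d3_nt.Tr.Box
import Pool.Agent.Lib.MP_8865d3_nt.Tr.EnvA
import Pool.Agent.Lib.MP_651af7_nt.Av.LosB

/-! The subspace inequality for a box. -/

namespace Pool.Agent.Lib.MP_8865d3_nt.Tr

open MvPolynomial Finset Height NumberField Filter Real Pool.Agent.Lib.MP_651af7_nt
open Tb Fc
open IntermediateField (adjoin)
open Rt (Pl av mu)

theorem mi_eq {σ ν R : Type} [Fintype σ] [CommRing R] {N : σ → ℕ} (a b : σ → ν → R) {r : ℕ}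
    (B : Matrix (Bo N) (Fin r) R) (η : Fin r → Bo N × (σ → ν) × (σ → ν)) :
    mi a b B η = (∏ l, wt a b (η l)) * (B.submatrix (fun l => (η l).1) id).det :=
  Matrix.det_mul_column _ _

variable {k K ι β : Type} [Field k] [NumberField k] [Field K] [Algebra k K] [Fintype ι]
  {𝓕 : Filter β} {v : β → K → k} {y : ι → K} {J : Ideal (MvPolynomial ι k)}

omit [NumberField k] in
theorem sp_wt (h : Sp 𝓕 v) {σ ν : Type} [Fintype σ] {N : σ → ℕ} (a b : σ → ν → K)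
    (i : Bo N × (σ → ν) × (σ → ν)) :
    ∀ᶠ p in 𝓕, v p (wt a b i) = wt (fun s c => v p (a s c)) (fun s c => v p (b s c)) i := by
  filter_upwards [h.prod univ fun s => a s (i.2.1 s) ^ (i.1 s : ℕ) * b s (i.2.2 s) ^ (N s - i.1 s),
    eventually_all.2 fun s => (h.mul (a s (i.2.1 s) ^ (i.1 s : ℕ))
      (b s (i.2.2 s) ^ (N s - i.1 s))).and ((h.pow (a s (i.2.1 s)) (i.1 s)).and
        (h.pow (b s (i.2.2 s)) (N s - i.1 s)))] with p h1 h2
  exact h1.trans (prod_congr rfl fun s _ => by rw [(h2 s).1, (h2 s).2.1, (h2 s).2.2])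

omit [NumberField k] in
theorem sp_mon (h : Sp 𝓕 v) {σ : Type} [Fintype σ] (ξ : σ → K) (n : σ → ℕ) :
    ∀ᶠ p in 𝓕, v p (∏ s, ξ s ^ n s) = ∏ s, v p (ξ s) ^ n s := by
  filter_upwards [h.prod univ fun s => ξ s ^ n s, eventually_all.2 fun s => h.pow (ξ s) (n s)]
    with p h1 h2
  exact h1.trans (prod_congr rfl fun s _ => h2 s)

omit [NumberField k] [Fintype ι] in
theorem sp_rm (h : Sp 𝓕 v) {σ : Type} [Fintype σ] [DecidableEq σ] {M : σ → ℕ} {r : ℕ}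
    {c : (σ →₀ ℕ) → adjoin k (Set.range y)} {m : σ →₀ ℕ} {ρ : adjoin k (Set.range y)}
    {B : Matrix (Fin r) (Fin r) (adjoin k (Set.range y))} (hd : (rm c m M).det ^ 2 = (ρ * B.det) ^ 2) :
    ∀ᶠ p in 𝓕, (rm (fun a => v p (c a)) m M).det ^ 2 = (v p ρ * (B.map fun z => v p z).det) ^ 2 := by
  filter_upwards [h.zero, sp_det h (rm c m M), sp_det h B, h.pow (rm c m M).det 2, h.mul ρ B.det,
    h.pow (ρ * B.det) 2] with p p0 p1 p2 p3 p4 p5
  have p6 : (rm c m M).map (fun z => v p z) = rm (fun a => v p (c a)) m M := by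
    ext i j
    simp only [rm, Matrix.map_apply, Matrix.of_apply]
    split_ifs
    exacts [rfl, p0]
  have p7 := congrArg (fun z : adjoin k (Set.range y) => v p z) hd
  simp only [SubmonoidClass.coe_pow, MulMemClass.coe_mul] at p7
  rw [← p6, ← p1, ← p3, p7, p5, p4, p2]

theorem env (D : Nc.Dn J y) (h : Sp 𝓕 v) : Env 𝓕 v y := by
  classical
  refine ⟨h, fun z hz ε hε => env_fal D h hz hε, fun κ _ u z hz => env_bd h D.one u hz, ?_⟩
  intro σ ν _ _ _ ξ φ ψ f M N H hξ hφ hψ hf h0 hk hN hy hb ε hε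
  obtain ⟨r, t, B, e, ρ, hρ, ht, hB, he, hd⟩ := box hf h0 hk hN
  obtain ⟨a, ha⟩ : ∃ a : σ → ν → adjoin k (Set.range y), ∀ s c, (a s c : K) = φ s c :=
    ⟨fun s c => ⟨_, hφ.1 s c⟩, fun _ _ => rfl⟩
  obtain ⟨b, hb'⟩ : ∃ b : σ → ν → adjoin k (Set.range y), ∀ s c, (b s c : K) = ψ s c :=
    ⟨fun s c => ⟨_, hψ.1 s c⟩, fun _ _ => rfl⟩
  have w1 : ∀ i : Bo N × (σ → ν) × (σ → ν), ((wt a b i : adjoin k (Set.range y)) : K) =
      wt φ ψ i := fun i => by simp [wt, ha, hb']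
  have g0 : ∀ m : f.support, (rm (fun a => coeff a f) m M).det ≠ 0 →
      (B.submatrix (fun l => e m (.inr l)) id).det ≠ 0 := fun m hm e0 =>
    pow_ne_zero 2 hm (by rw [hd, e0, mul_zero, zero_pow two_ne_zero])
  obtain ⟨m₀, m1, -, m2⟩ := vtx_triv hf 0 M
  choose i₁ hi₁ using fun s => Function.ne_iff.1 (hφ.2 s)
  choose i₂ hi₂ using fun s => Function.ne_iff.1 (hψ.2 s)
  obtain ⟨η, hη⟩ : ∃ η, mi a b B η ≠ 0 := ⟨fun l => (e ⟨m₀, m1⟩ (.inr l), i₁, i₂), by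
    rw [mi_eq]
    refine mul_ne_zero (prod_ne_zero_iff.2 fun l _ e0 => ?_) (g0 ⟨m₀, m1⟩ m2)
    have := w1 (e ⟨m₀, m1⟩ (.inr l), i₁, i₂)
    rw [e0] at this
    exact prod_ne_zero_iff.2 (fun s _ => mul_ne_zero (pow_ne_zero _ (hi₁ s))
      (pow_ne_zero _ (hi₂ s))) this.symm⟩
  obtain ⟨B', hB'⟩ : ∃ B' : Matrix (Bo N × (σ → ν) × (σ → ν)) (Fin r) (adjoin k (Set.range y)),
      B' = Matrix.of fun i l => wt a b i * B i.1 l := ⟨_, rfl⟩
  have x1 : ∀ i, ∑ l, B' i l • t l = wt φ ψ i * ∏ s, ξ s ^ (i.1 s : ℕ) := fun i => by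
    simp only [hB', Matrix.of_apply, mul_smul, ← smul_sum, hB]
    rw [Algebra.smul_def, ← w1]
    rfl
  have x2 : ∀ η, mne B' η = mi a b B η := fun η => by
    rw [hB']
    rfl
  choose C₁ c1 c2 using fun i : Bo N × (σ → ν) × (σ → ν) =>
    hb (wt φ ψ i * ∏ s, ξ s ^ (i.1 s : ℕ)) (mul_mem
      (w1 i ▸ Subalgebra.algebraMap_mem _ (wt a b i))
      (prod_mem fun s _ => pow_mem (Algebra.subset_adjoin (Set.mem_range_self s)) _))
  have c3 : 0 ≤ ∑ i, C₁ i := sum_nonneg fun i _ => c1 i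
  obtain ⟨δ, d0, d1⟩ : ∃ δ : ℝ, 0 < δ ∧ δ * (3 + ∑ i, C₁ i) = ε :=
    ⟨ε / (3 + ∑ i, C₁ i), by positivity, div_mul_cancel₀ _ (by positivity)⟩
  obtain ⟨W₁, u1, k1⟩ := D.sub h ht B' (x2 η ▸ hη)
    (fun m : {m : f.support // (rm (fun a => coeff a f) m M).det ≠ 0} =>
      B.submatrix (fun l => e m.1 (.inr l)) id) (fun m => g0 _ m.2) d0
  obtain ⟨W₂, u2, k2⟩ := env_fal D h (mi a b B η).2 d0
  obtain ⟨W₃, u3, k3⟩ := env_fal D h ρ.2 d0
  have n0 : ∀ {z : adjoin k (Set.range y)}, z ≠ 0 → ∀ᶠ p in 𝓕, v p z ≠ 0 := fun hz =>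
    h.ne fun e0 => hz (Subtype.ext e0)
  have q1 := eventually_all.2 fun m : f.support => sp_rm h (hd m)
  have q2 : ∀ᶠ p in 𝓕, B'.map (fun z => v p z) = Matrix.of fun i l =>
      wt (fun s c => v p (φ s c)) (fun s c => v p (ψ s c)) i * v p (B i.1 l) := by
    filter_upwards [eventually_all.2 fun i : Bo N × (σ → ν) × (σ → ν) => sp_wt h φ ψ i,
      eventually_all.2 fun i => eventually_all.2 fun l => h.mul (wt φ ψ i) (B i.1 l)] with p p1 p2
    ext i l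
    simp only [hB', Matrix.map_apply, Matrix.of_apply, MulMemClass.coe_mul, w1, p1, p2]
  have q3 := eventually_all.2 fun i : Bo N × (σ → ν) × (σ → ν) =>
    (h.mul (wt φ ψ i) (∏ s, ξ s ^ (i.1 s : ℕ))).and (sp_wt h φ ψ i)
  have q4 := eventually_all.2 fun α : Bo N => sp_mon h ξ fun s => α s
  have q5 := eventually_all.2 fun s => (h.ne (hξ s)).and ((h.ne (hi₁ s)).and (h.ne (hi₂ s)))
  refine ⟨_, inter_mem (inter_mem u1 (inter_mem u2 u3)) ((q1.and (q2.and (q3.and q4))).and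
    ((q5.and (h.zero.and (eventually_all.2 c2))).and ((n0 hρ).and ((n0 hη).and
      (sp_det h (B'.submatrix η id)))))), fun S => ?_⟩
  obtain ⟨C₂, k1⟩ := k1 S
  obtain ⟨C₃, k2⟩ := k2 S
  obtain ⟨C₄, k3⟩ := k3 S
  refine ⟨δ * ∑ i, C₁ i + C₂ + C₃ + C₄, fun p ⟨⟨p1, p2, p3⟩, ⟨p4, p5, p6, p7⟩, ⟨p8, p9, p10⟩, p11,
    p12, p13⟩ a' b' f1 f2 f3 => ?_⟩
  choose m r1 r2 r3 using fun s : Pl S => vtx_triv hf (fun t => log (av s (v p (ξ t)))) M
  have r4 := k1 p p1 fun s => ⟨⟨m s, r1 s⟩, r3 s⟩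
  have r5 : mne (B'.map fun z => v p z) = mi (fun s c => v p (φ s c)) (fun s c => v p (ψ s c))
      (B.map fun z => v p z) := by
    rw [p5]
    rfl
  have r6 : v p (mi a b B η : adjoin k (Set.range y)) = mi (fun s c => v p (φ s c))
      (fun s c => v p (ψ s c)) (B.map fun z => v p z) η := by
    rw [← r5, ← x2]
    exact p13
  have r7 : (fun i : Bo N × (σ → ν) × (σ → ν) => v p (wt φ ψ i * ∏ s, ξ s ^ (i.1 s : ℕ))) =
      fun i => wt (fun s c => v p (φ s c)) (fun s c => v p (ψ s c)) i *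
        ∏ s, v p (ξ s) ^ (i.1 s : ℕ) := funext fun i => by rw [(p6 i).1, (p6 i).2, p7]
  simp only [x1, Matrix.submatrix_apply, id, hB, p7, r5, Es.vol, Ex.lx] at r4
  have r8 := hyp_pt (x := fun s => v p (ξ s)) (a := fun s c => v p (φ s c))
    (b := fun s c => v p (ψ s c)) (B := B.map fun z => v p z) (e := e) (η := η) (S := S)
    (c := fun a => v p (coeff a f : adjoin k (Set.range y)))
    (fun s => (p8 s).1) (fun s => Function.ne_iff.2 ⟨_, (p8 s).2.1⟩)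
    (fun s => Function.ne_iff.2 ⟨_, (p8 s).2.2⟩)
    (fun m hm => by rw [notMem_support_iff.1 hm]; exact p9) p11 he p4 (by rw [← r6]; exact p12)
    (fun s => ⟨m s, r1 s⟩) r7 (r4.trans_eq (add_assoc _ _ _)) f1
    (fun s => (f2 s).elim fun m' a1 => a1.2.trans (r2 s m' a1.1)) f3
  have r9 := (Av.logHeight_le_sum _).trans (sum_le_sum fun i (_ : i ∈ univ) => p10 i)
  have r10 := k2 p p2
  have r11 := k3 p p3
  have r12 := mul_le_mul_of_nonneg_left (hy p) d0.le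
  have r13 := mul_le_mul_of_nonneg_left r9 d0.le
  rw [← sum_mul] at r13
  rw [r6] at r10
  rw [← card_cmp (e ⟨m₀, m1⟩), ← d1]
  linarith

end Pool.Agent.Lib.MP_8865d3_nt.Tr
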