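import Mathlib

/-! Local heights of an algebraic number, of the poles of an equation, and of a torsor. -/

namespace Pool.Agent.Lib.MP_8865d3_nt.Tr

open NumberField Real

variable {k L : Type} [Field k] [NumberField k] [Field L] [NumberField L] [Algebra k L]

/-- The local height of `t` at a finite place: the average over the places above. -/
noncomputable def lamF (v : FinitePlace k) (t : L) : ℝ :=
  (∑ᶠ W ∈ {W : FinitePlace L | W.maximalIdeal.asIdeal.LiesOver v.maximalIdeal.asIdeal},
    log⁺ (W t)) / Module.finrank k L

open Classical in
/-- The local height of `t` at an infinite place. -/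
noncomputable def lamI (v : InfinitePlace k) (t : L) : ℝ :=
  (∑ W : InfinitePlace L with W.comap (algebraMap k L) = v, W.mult * log⁺ (W t)) /
    Module.finrank k L

/-- The largest coefficient against the leading one. -/
noncomputable def pole {e : ℕ} (a : Fin (e + 1) → k) (w : AbsoluteValue k ℝ) : ℝ :=
  log ((⨆ j, w (a j)) / w (a (Fin.last e)))

/-- The distance from the unit circle of the metric `|z| * |a| / |b|`. -/
noncomputable def dfc {N : ℕ} (z : k) (a b : Fin N → k) (w : AbsoluteValue k ℝ) : ℝ :=
  |log (w z * (⨆ i, w (a i)) / ⨆ i, w (b i))|

end Pool.Agent.Lib.MP_8865d3_nt.Tr
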