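import Pool.Agent.Lib.MP_8865d3_nt.Tr.Sml
import Pool.Agent.Lib.MP_651af7_nt.Gm.FlB1

/-! The local height of an algebraic number against its minimal polynomial. -/

namespace Pool.Agent.Lib.MP_8865d3_nt.Tr

open MvPolynomial Finset Height NumberField Filter Real Pool.Agent.Lib.MP_651af7_nt
open Tb Fc
open IntermediateField (adjoin)
open Rt (Pl av mu)

variable {k L : Type} [Field k] [NumberField k] [Field L] [NumberField L] [Algebra k L]

theorem root_fin (v : FinitePlace k) (t : L) : (minpoly k t).natDegree * ((∑ᶠ W ∈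
    {W : FinitePlace L | W.maximalIdeal.asIdeal.LiesOver v.maximalIdeal.asIdeal}, log⁺ (W.1 t)) /
      Module.finrank k L) = gn (minpoly k t) v.1 := by
  have h0 := root_gn (∅ : Finset (FinitePlace k)) t
  have h1 := root_gn ({v} : Finset (FinitePlace k)) t
  have fL : (Function.support fun W : FinitePlace L => log⁺ (W.1 t)).Finite := fs_pos t
  have fk : (Function.support fun w : FinitePlace k => gn (minpoly k t) w.1).Finite := fs_gn _
  have e0 : {W : FinitePlace L | ∀ w ∈ (∅ : Finset (FinitePlace k)),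
      ¬W.maximalIdeal.asIdeal.LiesOver w.maximalIdeal.asIdeal} =
      {W : FinitePlace L | W.maximalIdeal.asIdeal.LiesOver v.maximalIdeal.asIdeal} ∪
        {W : FinitePlace L | ∀ w ∈ ({v} : Finset (FinitePlace k)),
          ¬W.maximalIdeal.asIdeal.LiesOver w.maximalIdeal.asIdeal} := by
    ext W
    simp [em]
  have e1 : ((∅ : Finset (FinitePlace k)) : Set (FinitePlace k))ᶜ =
      {v} ∪ ((({v} : Finset (FinitePlace k)) : Set (FinitePlace k)))ᶜ := by simp
  rw [e0, finsum_mem_union'
    (by exact Set.disjoint_left.2 fun W a b => b v (mem_singleton_self v) a) (fL.inter_of_right _)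
    (fL.inter_of_right _), oS, e1, finsum_mem_union'
    (by simp) (fk.inter_of_right _) (fk.inter_of_right _), finsum_mem_singleton, add_div,
    mul_add, h1, oS] at h0
  exact add_right_cancel h0

theorem rti_log {τ : Type} (s : Finset τ) (p : τ → Polynomial ℂ) (h : ∀ i, (p i).Monic) :
    (∏ i ∈ s, p i).logMahlerMeasure = ∑ i ∈ s, (p i).logMahlerMeasure := by
  classical
  induction s using Finset.induction_on with
  | empty => simp
  | insert i s hi ih =>
    rw [prod_insert hi, sum_insert hi, Polynomial.logMahlerMeasure_mul_eq_add_logMahlerMeasure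
      ((h i).mul (Polynomial.monic_prod_of_monic _ _ fun j _ => h j)).ne_zero, ih]

open Classical in
theorem rti_emb (φ : k →+* ℂ) (t : L) : (minpoly k t).natDegree *
    ∑ σ : L →+* ℂ with σ.comp (algebraMap k L) = φ, log⁺ ‖σ t‖ =
      Module.finrank k L * ((minpoly k t).map φ).logMahlerMeasure := by
  let _ : Algebra k ℂ := φ.toAlgebra
  have : FiniteDimensional k L := Module.Finite.of_restrictScalars_finite ℚ k L
  have ht : IsIntegral k t := .of_finite k t
  have hm := (minpoly.monic ht).map (algebraMap k ℂ)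
  obtain ⟨μ, a, -, h1, h2⟩ := Gm.prod_conj (Ω := ℂ) (minpoly.irreducible ht)
    (Polynomial.monic_X_sub_C t) (Polynomial.dvd_iff_isRoot.2 (by
      rw [Polynomial.IsRoot, Polynomial.eval_map_algebraMap, minpoly.aeval]))
  have h0 : ∀ τ : L →ₐ[k] ℂ, ((Polynomial.X - Polynomial.C t).map (τ : L →+* ℂ)).Monic :=
    fun τ => (Polynomial.monic_X_sub_C t).map _
  have h3 : a = 1 := by
    have h4 := congrArg Polynomial.leadingCoeff h2
    rw [(Polynomial.monic_prod_of_monic _ _ fun τ _ => h0 τ).leadingCoeff,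
      Polynomial.leadingCoeff_mul, Polynomial.leadingCoeff_C, (hm.pow μ).leadingCoeff,
      mul_one] at h4
    exact h4.symm
  have h4 := congrArg Polynomial.logMahlerMeasure h2
  rw [h3, Polynomial.C_1, one_mul, rti_log _ _ h0, ← card_range μ, ← prod_const,
    rti_log _ _ fun _ => hm, sum_const, card_range, nsmul_eq_mul] at h4
  rw [Polynomial.natDegree_X_sub_C, mul_one] at h1
  rw [← h1, Nat.cast_mul, mul_comm (μ : ℝ), mul_assoc]
  congr 1
  refine Eq.trans (sum_bij (fun (τ : L →ₐ[k] ℂ) _ => (τ : L →+* ℂ))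
    (fun τ _ => mem_filter.2 ⟨mem_univ _, τ.comp_algebraMap⟩)
    (fun _ _ _ _ h => AlgHom.coe_ringHom_injective h)
    (fun σ hσ => ⟨⟨σ, fun x => RingHom.congr_fun (mem_filter.1 hσ).2 x⟩, mem_univ _, rfl⟩)
    fun τ _ => ?_).symm h4
  rw [Polynomial.map_sub, Polynomial.map_X, Polynomial.map_C, Polynomial.logMahlerMeasure_X_sub_C]

omit [NumberField k] in
theorem rti_mah (φ : k →+* ℂ) {p : Polynomial k} (hp : p.Monic) :
    |(p.map φ).logMahlerMeasure - log (p.gaussNorm (place φ) 1)| ≤ p.natDegree * log 2 := by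
  have h0 := Polynomial.mahlerMeasure_pos_of_ne_zero (hp.map φ).ne_zero
  have h1 : ∀ i, ‖φ (p.coeff i)‖ ≤ p.gaussNorm (place φ) 1 := fun i => by
    simpa using p.le_gaussNorm (place φ) zero_le_one i
  have h2 : 0 < p.gaussNorm (place φ) 1 := by
    have := h1 p.natDegree
    rw [hp.coeff_natDegree, map_one, norm_one] at this
    linarith
  have h3 : (p.map φ).mahlerMeasure ≤ 2 ^ p.natDegree * p.gaussNorm (place φ) 1 := by
    refine (p.map φ).mahlerMeasure_le_sum_norm_coeff.trans ?_
    have h4 : (p.map φ).support.card ≤ 2 ^ p.natDegree :=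
      (Polynomial.card_supp_le_succ_natDegree _).trans
        ((Nat.succ_le_succ Polynomial.natDegree_map_le).trans Nat.lt_two_pow_self)
    refine (sum_le_card_nsmul _ _ (p.gaussNorm (place φ) 1) fun i _ => ?_).trans ?_
    · rw [Polynomial.coeff_map]
      exact h1 i
    · rw [nsmul_eq_mul]
      exact mul_le_mul_of_nonneg_right (by exact_mod_cast h4) h2.le
  have h4 : p.gaussNorm (place φ) 1 ≤ 2 ^ p.natDegree * (p.map φ).mahlerMeasure := by
    obtain ⟨i, hi⟩ := p.exists_eq_gaussNorm (place φ) 1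
    rw [hi, one_pow, mul_one, place_apply, ← Polynomial.coeff_map]
    refine ((p.map φ).norm_coeff_le_choose_mul_mahlerMeasure i).trans
      (mul_le_mul_of_nonneg_right ?_ h0.le)
    exact_mod_cast (Nat.choose_le_two_pow _ _).trans
      (Nat.pow_le_pow_right two_pos Polynomial.natDegree_map_le)
  have h5 := log_le_log h0 h3
  have h6 := log_le_log h2 h4
  rw [log_mul (by positivity) h2.ne', log_pow] at h5
  rw [log_mul (by positivity) h0.ne', log_pow] at h6
  rw [Polynomial.logMahlerMeasure_eq_log_MahlerMeasure, abs_le]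
  constructor <;> linarith

open Classical in
theorem root_inf (v : InfinitePlace k) (t : L) :
    |(minpoly k t).natDegree * ((∑ W : InfinitePlace L with W.comap (algebraMap k L) = v,
      W.mult * log⁺ (W.1 t)) / Module.finrank k L) - v.mult * gn (minpoly k t) v.1| ≤
      (minpoly k t).natDegree * (v.mult * log 2) := by
  have : FiniteDimensional k L := Module.Finite.of_restrictScalars_finite ℚ k L
  have hn : (Module.finrank k L : ℝ) ≠ 0 := Nat.cast_ne_zero.2 Module.finrank_pos.ne'
  have h1 : ∑ W : InfinitePlace L with W.comap (algebraMap k L) = v, W.mult * log⁺ (W.1 t) =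
      ∑ φ : k →+* ℂ with InfinitePlace.mk φ = v,
        ∑ σ : L →+* ℂ with σ.comp (algebraMap k L) = φ, log⁺ ‖σ t‖ := by
    refine Eq.trans (sum_congr rfl fun W _ => ?_) ((sum_fiberwise_eq_sum_filter univ _
      InfinitePlace.mk fun σ : L →+* ℂ => log⁺ ‖σ t‖).trans ((sum_congr ?_ fun _ _ => rfl).trans
        (sum_fiberwise_eq_sum_filter univ _ (fun σ : L →+* ℂ => σ.comp (algebraMap k L))
          fun σ => log⁺ ‖σ t‖).symm))
    · rw [← InfinitePlace.card_filter_mk_eq, ← nsmul_eq_mul, ← sum_const]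
      refine sum_congr rfl fun σ hσ => ?_
      rw [← (mem_filter.1 hσ).2]
      rfl
    · ext σ
      simp only [mem_filter, mem_univ, true_and, InfinitePlace.comap_mk]
  rw [h1, ← mul_div_assoc, mul_sum, sum_congr rfl fun φ _ => rti_emb φ t, ← mul_sum,
    mul_div_cancel_left₀ _ hn, mul_left_comm, ← InfinitePlace.card_filter_mk_eq, ← nsmul_eq_mul,
    ← nsmul_eq_mul, ← sum_const, ← sum_sub_distrib]
  refine (abs_sum_le_sum_abs _ _).trans (sum_le_card_nsmul _ _ _ fun φ hφ => ?_)
  rw [← (mem_filter.1 hφ).2]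
  exact rti_mah φ (minpoly.monic (.of_finite k t))

end Pool.Agent.Lib.MP_8865d3_nt.Tr
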