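import Pool.Agent.Lib.MP_8865d3_nt.Tr.Ult
import Pool.Agent.Lib.MP_8865d3_nt.Tr.Hyp
import Pool.Agent.Lib.MP_8865d3_nt.Tr.Root
import Pool.Agent.Lib.MP_8865d3_nt.Tr.RDefs
import Pool.Agent.Lib.MP_651af7_nt.Fc.Main
import Pool.Agent.Lib.MP_651af7_nt.Nf.Cf

/-! From the factors of the equation of the fibre to its roots. -/

namespace Pool.Agent.Lib.MP_8865d3_nt.Tr

open MvPolynomial Finset Height NumberField Filter Real Pool.Agent.Lib.MP_651af7_nt
open Tb Fc Ds
open IntermediateField (adjoin)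

/-- The monic polynomial with the given ratios of coefficients. -/
noncomputable def mo {R : Type} [Field R] {e : ℕ} (a : Fin (e + 1) → R) : Polynomial R :=
  Polynomial.C (a (Fin.last e))⁻¹ * ∑ j : Fin (e + 1), Polynomial.monomial j (a j)

theorem mo_coeff {R : Type} [Field R] {e : ℕ} (a : Fin (e + 1) → R) (i : ℕ) :
    (mo a).coeff i = if h : i < e + 1 then (a (Fin.last e))⁻¹ * a ⟨i, h⟩ else 0 := by
  rw [mo, Polynomial.coeff_C_mul, Polynomial.finsetSum_coeff]
  simp only [Polynomial.coeff_monomial]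
  split_ifs with h
  · rw [sum_eq_single ⟨i, h⟩ (fun j _ hj => if_neg fun e => hj (Fin.ext e)) (by simp), if_pos rfl]
  · rw [sum_eq_zero fun j _ => if_neg (by omega), mul_zero]

theorem mo_monic {R : Type} [Field R] {e : ℕ} {a : Fin (e + 1) → R} (h : a (Fin.last e) ≠ 0) :
    (mo a).Monic ∧ (mo a).natDegree = e := by
  have h1 : (mo a).natDegree ≤ e := Polynomial.natDegree_le_iff_coeff_eq_zero.2 fun n hn => by
    rw [mo_coeff, dif_neg (by omega)]
  have h2 : (mo a).coeff e = 1 := by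
    rw [mo_coeff, dif_pos e.lt_succ_self]
    exact inv_mul_cancel₀ h
  exact ⟨Polynomial.monic_of_natDegree_le_of_coeff_eq_one e h1 h2,
    Polynomial.natDegree_eq_of_le_of_coeff_ne_zero h1 (h2 ▸ one_ne_zero)⟩

variable {k : Type} [Field k]

theorem gn_mo {e : ℕ} {a : Fin (e + 1) → k} (h : a (Fin.last e) ≠ 0) (w : AbsoluteValue k ℝ) :
    gn (mo a) w = pole a w := by
  have h0 := w.pos h
  have h1 := fun j => Finite.le_ciSup (fun j => w (a j)) j
  refine congrArg log (le_antisymm ?_ ?_)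
  · obtain ⟨i, hi⟩ := (mo a).exists_eq_gaussNorm w 1
    rw [hi, one_pow, mul_one, mo_coeff, le_div_iff₀ h0]
    split_ifs with c
    · rw [← map_mul, mul_right_comm, inv_mul_cancel₀ h, one_mul]
      exact h1 _
    · rw [map_zero, zero_mul]
      exact h0.le.trans (h1 _)
  · rw [div_le_iff₀ h0]
    refine ciSup_le fun j => ?_
    have := (mo a).le_gaussNorm w zero_le_one j
    rwa [one_pow, mul_one, mo_coeff, dif_pos j.2, map_mul, map_inv₀, inv_mul_le_iff₀' h0] at this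

theorem dfc_eq {N : ℕ} {z : k} {a b : Fin N → k} (hz : z ≠ 0) {i j : Fin N} (ha : a i ≠ 0)
    (hb : b j ≠ 0) (w : AbsoluteValue k ℝ) : |lam z a b w| = dfc z a b w := by
  have h1 := ((w.pos ha).trans_le (Finite.le_ciSup (fun i => w (a i)) i)).ne'
  have h2 := ((w.pos hb).trans_le (Finite.le_ciSup (fun i => w (b i)) j)).ne'
  rw [dfc, log_div (mul_ne_zero (w.pos hz).ne' h1) h2, log_mul (w.pos hz).ne' h1, lam, ls, ls,
    add_sub_assoc]

variable [NumberField k]

theorem ext_root {L : Type} [Field L] [NumberField L] [Algebra k L] (S : Finset (FinitePlace k))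
    (t : L) (e : ℕ) {f : AbsoluteValue k ℝ → ℝ} (hf : FS f) {R : ℝ}
    (h : iS S (fun w => |e * gn (minpoly k t) w - (minpoly k t).natDegree * f w|) +
      |e * oS S (gn (minpoly k t)) - (minpoly k t).natDegree * oS S f| ≤ R) :
    ∑ v : InfinitePlace k, |e * lamI v t - v.mult * f v.1| + ∑ v ∈ S, |e * lamF v t - f v.1| +
      |∑ᶠ v ∈ (S : Set (FinitePlace k))ᶜ, (e * lamF v t - f v.1)| ≤
        R + e * ∑ v : InfinitePlace k, v.mult * log 2 := by
  have : Module.Finite k L := Module.Finite.of_restrictScalars_finite ℚ k L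
  have h1 : (1 : ℝ) ≤ (minpoly k t).natDegree :=
    Nat.one_le_cast.2 (minpoly.natDegree_pos (Algebra.IsIntegral.isIntegral t))
  have h2 : ∀ v, (minpoly k t).natDegree * lamF v t = gn (minpoly k t) v.1 := fun v => root_fin v t
  have h3 : ∀ v, |(minpoly k t).natDegree * lamI v t - v.mult * gn (minpoly k t) v.1| ≤ _ :=
    fun v => root_inf v t
  have f1 := fs_gn (minpoly k t)
  generalize gn (minpoly k t) = G at *
  generalize ((minpoly k t).natDegree : ℝ) = d at *
  have d0 := zero_lt_one.trans_le h1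
  have h4 : ∀ v : FinitePlace k, e * lamF v t - f v.1 = d⁻¹ * (e * G v.1 - d * f v.1) := fun v => by
    rw [← h2]
    field_simp
  have h5 : ∑ᶠ v ∈ (S : Set (FinitePlace k))ᶜ, (e * lamF v t - f v.1) =
      d⁻¹ * (e * oS S G - d * oS S f) := by
    rw [← oS_mul _ f1, ← oS_mul _ hf, ← oS_sub (f1.mul _) (hf.mul _),
      ← oS_mul _ ((f1.mul _).sub (hf.mul _))]
    exact finsum_mem_congr rfl fun v _ => h4 v
  have h6 : ∀ a : ℝ, |d⁻¹ * a| ≤ |a| := fun a => by
    rw [abs_mul, abs_of_pos (inv_pos.2 d0)]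
    exact mul_le_of_le_one_left (abs_nonneg _) (inv_le_one_of_one_le₀ h1)
  have h7 := sum_le_sum fun v (_ : v ∈ S) => (congrArg abs (h4 v)).trans_le (h6 _)
  have h8 := sum_le_sum fun (v : InfinitePlace k) (_ : v ∈ univ) =>
    show |e * lamI v t - v.mult * f v.1| ≤ v.mult * |e * G v.1 - d * f v.1| + e * (v.mult * log 2) by
      have e1 : e * lamI v t - v.mult * f v.1 = v.mult * (d⁻¹ * (e * G v.1 - d * f v.1)) +
          e * (d⁻¹ * (d * lamI v t - v.mult * G v.1)) := by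
        field_simp
        ring
      rw [e1]
      refine (abs_add_le _ _).trans (add_le_add ?_ ?_) <;> rw [abs_mul, Nat.abs_cast] <;>
        refine mul_le_mul_of_nonneg_left ?_ (Nat.cast_nonneg _)
      · exact h6 _
      · rw [abs_mul, abs_of_pos (inv_pos.2 d0), inv_mul_le_iff₀ d0]
        exact h3 v
  rw [iS_eq] at h
  rw [sum_add_distrib, ← mul_sum] at h8
  rw [h5]
  linarith [h6 (e * oS S G - d * oS S f)]

theorem main {g n N e : ℕ} {J : Ideal (MvPolynomial (Fin g) k)}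
    (hA : Abelian (J.map (MvPolynomial.map (algebraMap k (AlgebraicClosure k)))))
    {K : Type} [Field K] [Algebra k K] {y : Fin g → K} {u : Fin n → K} (D : Nc.Pt J y)
    (hu : AlgebraicIndependent (adjoin k (Set.range y)) u)
    (hK : adjoin (adjoin k (Set.range y)) (Set.range u) = ⊤)
    {φ ψ : Fin n → Fin (N + 1) → MvPolynomial (Fin g) k}
    (hφ : ∀ i, ∃ a, aeval y (φ i a) ≠ 0) (hψ : ∀ i, ∃ a, aeval y (ψ i a) ≠ 0)
    {ρ : Fin (e + 1) → MvPolynomial (Fin g ⊕ Fin n) k}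
    (hρ : aeval (Sum.elim y u) (ρ (Fin.last e)) ≠ 0)
    (hf : Irreducible (∑ j : Fin (e + 1), Polynomial.monomial j (aeval (Sum.elim y u) (ρ j))))
    {ε : ℝ} (hε : 0 < ε) :
    ∃ (Θ : MvPolynomial (Fin g ⊕ Fin n) k) (c : ℝ), aeval (Sum.elim y u) Θ ≠ 0 ∧
      ∀ S : Finset (FinitePlace k), ∃ C : ℝ, ∀ (x : Fin g → k) (z : Fin n → k),
        (∀ P, aeval y P = 0 → eval x P = 0) → eval (Sum.elim x z) Θ ≠ 0 →
        eval (Sum.elim x z) (ρ (Fin.last e)) ≠ 0 ∧ ∀ G : Polynomial k, G.Monic →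
        G ∣ mo (fun j => eval (Sum.elim x z) (ρ j)) →
        iS S (fun w => |e * gn G w - G.natDegree * pole (fun j => eval (Sum.elim x z) (ρ j)) w|) +
          |e * oS S (gn G) - G.natDegree * oS S (pole fun j => eval (Sum.elim x z) (ρ j))| ≤
          ε * (logHeight x + ∑ i, logHeight₁ (z i)) + c * ∑ i, oS S
            (dfc (z i) (fun a => eval x (φ i a)) fun a => eval x (ψ i a)) + C := by
  obtain ⟨v, h, hv⟩ := sp_top (k := k) hK
  have w1 : ∀ P, ∀ᶠ p in gen k (Sum.elim y u), v p (aeval (Sum.elim y u) P) = eval p P := fun P => by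
    filter_upwards [hv, h.aeval (Sum.elim y u) P] with p p1 p2
    rw [p2, show (fun s => v p (Sum.elim y u s)) = p from funext (Sum.forall.2 p1)]
  have w2 : ∀ P, ∀ᶠ p in gen k (Sum.elim y u), v p (aeval y P) = eval (fun a => p (.inl a)) P :=
    fun P => by
      filter_upwards [hv, h.aeval y P] with p p1 p2
      rw [p2, funext p1.1]
  have b1 : ∀ {φ : Fin n → Fin (N + 1) → MvPolynomial (Fin g) k}, (∀ i, ∃ a, aeval y (φ i a) ≠ 0) →
      Blk (adjoin k (Set.range y)) fun i a => aeval y (φ i a) := fun hφ =>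
    ⟨fun i a => IntermediateField.algebra_adjoin_le_adjoin k _
      ((Algebra.adjoin_range_eq_range_aeval k y).ge ⟨_, rfl⟩), fun i => Function.ne_iff.2 (hφ i)⟩
  obtain ⟨m1, m2⟩ := mo_monic (a := fun j => aeval (Sum.elim y u) (ρ j)) hρ
  have w3 : ∀ᶠ p in gen k (Sum.elim y u), eval p (ρ (Fin.last e)) ≠ 0 := ⟨_, hρ, fun _ _ h => h⟩
  obtain ⟨c, W, hW, k1⟩ := both h (fun K' _ _ j β' 𝓕' v' h' => env (Nf.dn Nf.cf ⟨D.hom,
      D.one.imp fun a ha => by rw [ha, map_one], fun P d hP => by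
        rw [← D.gen P d hP, ← map_eq_zero_iff j j.injective, ← comp_aeval_apply]⟩ hA) h') hu hK
    (b1 hφ) (b1 hψ) ((irreducible_isUnit_mul (Polynomial.isUnit_C.2 (inv_ne_zero hρ).isUnit)).2 hf)
    m1 (q := fun p => mo fun j => eval p (ρ j)) (by
      filter_upwards [w3, eventually_all.2 fun j => (w1 (ρ j)).and (h.mul
        (aeval (Sum.elim y u) (ρ (Fin.last e)))⁻¹ (aeval (Sum.elim y u) (ρ j))),
        h.inv (aeval (Sum.elim y u) (ρ (Fin.last e)))] with p p1 p2 p3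
      refine ⟨(mo_monic p1).1, (mo_monic p1).2.trans m2.symm, fun j hj => ?_⟩
      replace hj := Nat.lt_succ_of_le (hj.trans_eq m2)
      refine Eq.trans ?_ (congrArg (v p) (mo_coeff _ j)).symm
      rw [mo_coeff, dif_pos hj, dif_pos hj, (p2 _).2, p3, (p2 _).1, (p2 _).1]) hε
  choose i₁ hi₁ using hφ
  choose i₂ hi₂ using hψ
  obtain ⟨Θ, a1, a2⟩ := inter_mem hW (hv.and (w3.and ((eventually_all.2 fun i => eventually_all.2
    fun a => (w2 (φ i a)).and (w2 (ψ i a))).and (eventually_all.2 fun i =>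
      (h.ne (hu.ne_zero i)).and ((h.ne (hi₁ i)).and (h.ne (hi₂ i)))))))
  refine ⟨Θ, c, a1, fun S => (k1 S).imp fun C k2 x z hx hΘ => ?_⟩
  obtain ⟨p1, ⟨p2, p3⟩, p4, p5, p6⟩ := a2 _ (rel hu hx z) hΘ
  refine ⟨p4, fun G g1 g2 => ?_⟩
  have k3 := k2 _ p1 G g1 g2
  have e1 : ∀ i w, |lam (z i) (fun a => eval x (φ i a)) (fun a => eval x (ψ i a)) w| = _ :=
    fun i => dfc_eq ((p3 i).symm.trans_ne (p6 i).1) ((p5 i _).1.symm.trans_ne (p6 i).2.1)
      ((p5 i _).2.symm.trans_ne (p6 i).2.2)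
  have e2 := funext (gn_mo (a := fun j => eval (Sum.elim x z) (ρ j)) p4)
  change iS S (fun w => |((mo _).natDegree : ℝ) * _ - _|) + |((mo _).natDegree : ℝ) * _ - _| ≤ _ at k3
  simpa only [m2, e2, HH, NN, p2, p3, fun i a => (p5 i a).1, fun i a => (p5 i a).2, Sum.elim_inl,
    Sum.elim_inr, e1] using k3

end Pool.Agent.Lib.MP_8865d3_nt.Tr
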