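import Pool.Agent.Lib.MP_651af7_nt.Tb.Pl
import Pool.Agent.Lib.MP_651af7_nt.Fc.Sp

/-! Roots of equations over torus bundles: vocabulary. -/

namespace Pool.Agent.Lib.MP_8865d3_nt.Tr

open MvPolynomial Finset Height NumberField Filter Real Pool.Agent.Lib.MP_651af7_nt
open Tb Fc
open IntermediateField (adjoin)
open Rt (Pl av mu)

/-- The points of a box. -/
abbrev Bo {σ : Type} (M : σ → ℕ) : Type := ∀ s, Fin (M s + 1)

section box

variable {σ ν R : Type} [Fintype σ] [DecidableEq σ] {M N : σ → ℕ}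

/-- The exponent vector of a point of a box. -/
noncomputable def bx (α : Bo M) : σ →₀ ℕ := Finsupp.equivFunOnFinite.symm fun s => α s

/-- The sum of one coordinate over the box. -/
noncomputable def sm (M : σ → ℕ) (s : σ) : ℝ := ∑ α : Bo M, ((α s : ℕ) : ℝ)

/-- The coefficients of `X ^ (m + j)` in `X ^ i * ∑ c a * X ^ a`. -/
noncomputable def rm [Zero R] (c : (σ →₀ ℕ) → R) (m : σ →₀ ℕ) (M : σ → ℕ) :
    Matrix (Bo M) (Bo M) R :=
  Matrix.of fun i j => if bx i ≤ m + bx j then c (m + bx j - bx i) else 0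

/-- The factor that turns a monomial into a section. -/
def wt [CommMonoid R] (a b : σ → ν → R) (i : Bo N × (σ → ν) × (σ → ν)) : R :=
  ∏ s, a s (i.2.1 s) ^ (i.1 s : ℕ) * b s (i.2.2 s) ^ (N s - i.1 s)

/-- The maximal minors of the matrix of the sections. -/
def mi [CommRing R] (a b : σ → ν → R) {r : ℕ} (B : Matrix (Bo N) (Fin r) R)
    (η : Fin r → Bo N × (σ → ν) × (σ → ν)) : R :=
  (Matrix.of fun l j => wt a b (η l) * B (η l).1 j).det

theorem sum_cmp {r : ℕ} (e : Bo M ⊕ Fin r ≃ Bo N) {m : σ →₀ ℕ}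
    (he : ∀ b s, (e (.inl b) s : ℕ) = m s + b s) (s : σ) :
    ∑ l, ((e (.inr l) s : ℕ) : ℝ) = sm N s - Fintype.card (Bo M) * m s - sm M s := by
  have h := e.sum_comp fun α => ((α s : ℕ) : ℝ)
  simp only [Fintype.sum_sum_type, he, Nat.cast_add, sum_add_distrib, sum_const, card_univ,
    nsmul_eq_mul] at h
  rw [sm, sm, ← h]
  ring

theorem card_cmp {r : ℕ} (e : Bo M ⊕ Fin r ≃ Bo N) :
    (r : ℝ) = Fintype.card (Bo N) - Fintype.card (Bo M) := by
  rw [← Fintype.card_congr e, Fintype.card_sum, Fintype.card_fin]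
  push_cast
  ring

end box

variable {k K ι κ ν β : Type} [Field k] [NumberField k] [Field K] [Algebra k K]

/-- `a` is at most `ε H + c N + O(1)`. -/
def Sml (𝓕 : Filter β) (H : β → ℝ) (N a : β → Finset (FinitePlace k) → ℝ) : Prop :=
  ∀ ε : ℝ, 0 < ε → ∃ c : ℝ, ∃ W ∈ 𝓕, ∀ S, ∃ C : ℝ, ∀ p ∈ W, a p S ≤ ε * H p + c * N p S + C

/-- The logarithm of the norm of `x` in the metric given by two blocks. -/
noncomputable def lam (x : k) (a b : ν → k) (w : AbsoluteValue k ℝ) : ℝ :=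
  log (w x) + (ls a w - ls b w)

/-- The logarithm of the largest coefficient. -/
noncomputable def gn (q : Polynomial k) (w : AbsoluteValue k ℝ) : ℝ := log (q.gaussNorm w 1)

/-- The height of the point. -/
noncomputable def HH [Fintype ι] [Fintype κ] (v : β → K → k) (y : ι → K) (u : κ → K) (p : β) : ℝ :=
  logHeight (fun a => v p (y a)) + ∑ i, logHeight₁ (v p (u i))

/-- The defect of integrality. -/
noncomputable def NN [Fintype κ] (v : β → K → k) (u : κ → K) (φ ψ : κ → ν → K) (p : β)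
    (S : Finset (FinitePlace k)) : ℝ :=
  ∑ i, oS S fun w => |lam (v p (u i)) (fun a => v p (φ i a)) (fun a => v p (ψ i a)) w|

/-- The height of `z` is bounded by a multiple of `H`. -/
def Bd (𝓕 : Filter β) (v : β → K → k) (H : β → ℝ) (z : K) : Prop :=
  ∃ C : ℝ, 0 ≤ C ∧ ∀ᶠ p in 𝓕, logHeight₁ (v p z) ≤ C * (1 + H p)

/-- The monic polynomials `g p` are the values of `G`. -/
def Rp (𝓕 : Filter β) (v : β → K → k) (G : Polynomial K) (g : β → Polynomial k) : Prop :=
  ∀ᶠ p in 𝓕, (g p).Monic ∧ (g p).natDegree = G.natDegree ∧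
    ∀ j ≤ G.natDegree, (g p).coeff j = v p (G.coeff j)

/-- Blocks of functions on the base. -/
def Blk (F : IntermediateField k K) (φ : κ → ν → K) : Prop := (∀ i a, φ i a ∈ F) ∧ ∀ i, φ i ≠ 0

/-- What is used of the base: Faltings' theorem, heights of algebraic functions, and the subspace
inequality for the monomials of a box modulo one equation. -/
structure Env [Fintype ι] (𝓕 : Filter β) (v : β → K → k) (y : ι → K) : Prop where
  sp : Sp 𝓕 v
  fal : ∀ z ∈ adjoin k (Set.range y), ∀ ε : ℝ, 0 < ε → ∃ W ∈ 𝓕, ∀ S, ∃ C : ℝ, ∀ p ∈ W,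
    iS S (fun w => |log (w (v p z))|) ≤ ε * logHeight (fun a => v p (y a)) + C
  bd : ∀ (κ : Type) [Fintype κ] (u : κ → K) (z : K),
    IsIntegral (adjoin (adjoin k (Set.range y)) (Set.range u)) z → Bd 𝓕 v (HH v y u) z
  hyp : ∀ (σ ν : Type) [Fintype σ] [DecidableEq σ] [Fintype ν] (ξ : σ → K) (φ ψ : σ → ν → K)
    (f : MvPolynomial σ (adjoin k (Set.range y))) (M N : σ → ℕ) (H : β → ℝ), (∀ s, ξ s ≠ 0) →
    Blk (adjoin k (Set.range y)) φ → Blk (adjoin k (Set.range y)) ψ → f ≠ 0 → aeval ξ f = 0 →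
    (∀ P, aeval ξ P = 0 → f ∣ P) → (∀ s, N s = M s + f.degreeOf s) →
    (∀ p, logHeight (fun a => v p (y a)) ≤ H p) →
    (∀ z ∈ Algebra.adjoin (adjoin k (Set.range y)) (Set.range ξ), Bd 𝓕 v H z) →
    ∀ ε : ℝ, 0 < ε → ∃ W ∈ 𝓕, ∀ S, ∃ C : ℝ, ∀ p ∈ W, ∀ a b : AbsoluteValue k ℝ → ℝ, FS b →
      (∀ s : Pl S, ∃ m ∈ f.support, a (av s) ≤ ∑ t, m t * log (av s (v p (ξ t)))) →
      (∀ w : FinitePlace k, ∃ m, v p (coeff m f : adjoin k (Set.range y)) ≠ 0 ∧
        b w.1 ≤ log (w.1 (v p (coeff m f : adjoin k (Set.range y)))) -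
          ∑ s, m s * (ls (fun a => v p (φ s a)) w.1 - ls (fun a => v p (ψ s a)) w.1)) →
      Fintype.card (Bo M) * (iS S a + oS S b) ≤
        ∑ s, ((Fintype.card (Bo N) - Fintype.card (Bo M)) * N s * oS S (fun w =>
          max (lam (v p (ξ s)) (fun a => v p (φ s a)) (fun a => v p (ψ s a)) w) 0) -
          (sm N s - sm M s) * oS S
            (lam (v p (ξ s)) (fun a => v p (φ s a)) fun a => v p (ψ s a))) + ε * H p + C

end Pool.Agent.Lib.MP_8865d3_nt.Tr
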