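import Pool.Agent.Lib.MP_8865d3_nt.Tr.Lin
import Pool.Agent.Lib.MP_8865d3_nt.Tr.Fac

/-! The coefficients of a primitive equation against its terms. -/

namespace Pool.Agent.Lib.MP_8865d3_nt.Tr

open MvPolynomial Finset Height NumberField Filter Real Pool.Agent.Lib.MP_651af7_nt
open Tb Fc
open IntermediateField (adjoin)
open Rt (Pl av mu)

theorem hst_good {A : Type} [CommRing A] [IsDomain A] [UniqueFactorizationMonoid A] [Algebra ℚ A]
    {g : Polynomial A} (hg : g.IsPrimitive) : ∃ c₀ : ℕ, ∀ c : ℕ, c₀ ≤ c →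
      g.eval (c : A) ≠ 0 ∧ IsRelPrime g.leadingCoeff (g.eval (c : A)) := by
  classical
  have g0 := hg.ne_zero
  have h1 : ∀ I : Ideal A, I.IsPrime → g.map (Ideal.Quotient.mk I) ≠ 0 →
      {c : ℕ | g.eval (c : A) ∈ I}.Finite := fun I hI h => by
    have : CharZero (A ⧸ I) := algebraRat.charZero _
    refine ((Polynomial.finite_setOfPred_isRoot h).preimage
      (Nat.cast_injective (R := A ⧸ I)).injOn).subset fun c hc => ?_
    change (g.map (Ideal.Quotient.mk I)).eval (c : A ⧸ I) = 0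
    rw [← map_natCast (Ideal.Quotient.mk I), Polynomial.eval_map, Polynomial.eval₂_hom]
    exact Ideal.Quotient.eq_zero_iff_mem.2 hc
  have h2 := h1 ⊥ Ideal.isPrime_bot ((Polynomial.map_ne_zero_iff (by
    rw [RingHom.injective_iff_ker_eq_bot, Ideal.mk_ker])).2 g0)
  have h3 : ∀ r ∈ (UniqueFactorizationMonoid.factors g.leadingCoeff).toFinset,
      {c : ℕ | g.eval (c : A) ∈ Ideal.span {r}}.Finite := fun r hr => by
    have h4 := UniqueFactorizationMonoid.prime_of_factor r (Multiset.mem_toFinset.1 hr)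
    refine h1 _ ((Ideal.span_singleton_prime h4.ne_zero).2 h4) fun e => h4.not_isUnit
      (hg r ((Polynomial.C_dvd_iff_dvd_coeff _ _).2 fun i => ?_))
    have h5 := congrArg (fun P => Polynomial.coeff P i) e
    simp only [Polynomial.coeff_map, Polynomial.coeff_zero] at h5
    exact Ideal.mem_span_singleton.1 (Ideal.Quotient.eq_zero_iff_mem.1 h5)
  obtain ⟨b, hb⟩ := (h2.union (Set.Finite.biUnion (Finset.finite_toSet _) h3)).bddAbove
  refine ⟨b + 1, fun c hc => ⟨fun e => absurd (hb (.inl e)) (by omega), ?_⟩⟩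
  refine (UniqueFactorizationMonoid.isRelPrime_iff_no_prime_factors
    (Polynomial.leadingCoeff_ne_zero.2 g0)).2 fun d h4 h5 h6 => ?_
  obtain ⟨r, h7, h8⟩ := UniqueFactorizationMonoid.exists_mem_factors_of_dvd
    (Polynomial.leadingCoeff_ne_zero.2 g0) h6.irreducible h4
  exact absurd (hb (.inr (Set.mem_biUnion (Multiset.mem_toFinset.2 h7)
    (Ideal.mem_span_singleton.2 (h8.symm.dvd.trans h5))))) (by omega)

theorem hst_cnt (e s c₀ : ℕ) : ∃ Δ : ℤ, Δ ≠ 0 ∧ ∀ (k : Type) [Field k] [NumberField k]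
    (w : FinitePlace k) (z : Fin (e + 1) → k) (j : Fin (e + 1)),
    (univ.filter fun c : Fin s => w.1 (∑ i : Fin (e + 1), ((c₀ + c : ℕ) : k) ^ (i : ℕ) * z i) <
      w.1 Δ * w.1 (z j)).card ≤ e := by
  obtain ⟨Δ, M, h0, h⟩ := Nc.pen_inv (n := e + 1) (c := fun c : Fin s => ((c₀ + c : ℕ) : ℤ))
    fun a b h => Fin.ext (by simpa using h)
  refine ⟨Δ, h0, fun k _ _ w z j => not_lt.1 fun h1 => ?_⟩
  obtain ⟨t, ht, h2⟩ := exists_subset_card_eq (Nat.succ_le_of_lt h1)
  let r : Fin (e + 1) ↪ Fin s := (t.orderEmbOfFin h2).toEmbedding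
  have h3 : (Δ : k) * z j = ∑ a, (M r j a : k) *
      ∑ i : Fin (e + 1), ((c₀ + r a : ℕ) : k) ^ (i : ℕ) * z i := by
    have h4 : ∀ i : Fin (e + 1), ∑ a, (M r j a : k) * ((c₀ + r a : ℕ) : k) ^ (i : ℕ) =
        if j = i then (Δ : k) else 0 := fun i => by
      have h5 := congrArg (Int.cast : ℤ → k) (congrFun (congrFun (h r) j) i)
      simpa [Matrix.mul_apply, Matrix.one_apply] using h5
    simp only [mul_sum, ← mul_assoc]
    rw [sum_comm]
    simp only [← sum_mul, h4, ite_mul, zero_mul, sum_ite_eq, mem_univ, if_true]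
  have hw : IsNonarchimedean w.1 := FinitePlace.add_le w
  obtain ⟨a, -, h4⟩ := hw.finset_image_add_of_nonempty
    (fun a => (M r j a : k) * ∑ i : Fin (e + 1), ((c₀ + r a : ℕ) : k) ^ (i : ℕ) * z i)
    univ_nonempty
  have h5 := (mem_filter.1 (ht (t.orderEmbOfFin_mem h2 a))).2
  have h6 : w.1 (M r j a : k) ≤ 1 := hw.apply_intCast_le_one
  rw [← h3, map_mul, map_mul] at h4
  exact absurd (h4.trans (mul_le_of_le_one_left (w.1.nonneg _) h6)) (not_le.2 h5)

theorem hst_sum {e s : ℕ} {X Y l : ℝ} (hY : Y ≤ X) (hl : l ≤ 0) {m : Fin s → ℝ}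
    {B : Finset (Fin s)} (hB : B.card ≤ e) (h1 : ∀ c, Y ≤ m c) (h2 : ∀ c ∉ B, X + l ≤ m c) :
    s * X - e * (X - Y) + s * l ≤ ∑ c, m c := by
  have h3 : ∑ c : Fin s, (X + l - if c ∈ B then X - Y else 0) ≤ ∑ c, m c :=
    sum_le_sum fun c _ => by
      split_ifs with h
      · linarith [h1 c]
      · linarith [h2 c h]
  rw [sum_sub_distrib, sum_ite_mem, univ_inter, sum_const, sum_const, card_univ, Fintype.card_fin,
    nsmul_eq_mul, nsmul_eq_mul] at h3
  nlinarith [mul_le_mul_of_nonneg_right (Nat.cast_le (α := ℝ).2 hB) (sub_nonneg.2 hY)]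

theorem hst_coeff {F κ : Type} [Field F] (g : Polynomial (MvPolynomial κ F)) (c : ℕ)
    (a : κ →₀ ℕ) : coeff a (g.eval (c : MvPolynomial κ F)) =
      ∑ i : Fin (g.natDegree + 1), (c : F) ^ (i : ℕ) * coeff a (g.coeff i) := by
  rw [Polynomial.eval_eq_sum_range, sum_range, coeff_sum]
  refine sum_congr rfl fun i _ => ?_
  rw [mul_comm, ← map_natCast (C : F →+* MvPolynomial κ F), ← map_pow, coeff_C_mul]

variable {k K ι κ ν β : Type} [Field k] [NumberField k] [Field K] [Algebra k K] [Fintype ι]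
  [Fintype κ] [Fintype ν] {𝓕 : Filter β} {v : β → K → k} {y : ι → K} {u : κ → K} {φ ψ : κ → ν → K}

theorem tm_bd (E : Env 𝓕 v y) (G : MvPolynomial κ (adjoin k (Set.range y))) (a : κ →₀ ℕ) :
    ∃ C : ℝ, 0 ≤ C ∧ ∀ᶠ p in 𝓕, logHeight₁ (tm v u G p a) ≤ C * (1 + HH v y u p) := by
  have h1 : (coeff a G : adjoin k (Set.range y)) * ∏ i, u i ^ a i ∈
      adjoin (adjoin k (Set.range y)) (Set.range u) :=
    mul_mem (IntermediateField.algebraMap_mem _ (coeff a G)) (prod_mem fun i _ =>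
      pow_mem (IntermediateField.subset_adjoin _ _ (Set.mem_range_self i)) _)
  obtain ⟨C, h2, h3⟩ := E.bd κ u _ (isIntegral_algebraMap (x := (⟨_, h1⟩ : adjoin _ (Set.range u))))
  refine ⟨C, h2, ?_⟩
  filter_upwards [h3, E.sp.mul (coeff a G : adjoin k (Set.range y)) (∏ i, u i ^ a i),
    E.sp.prod univ fun i => u i ^ a i, eventually_all.2 fun i => E.sp.pow (u i) (a i)] with p p1 p2
    p3 p4
  rwa [tm, ← prod_congr rfl fun i _ => p4 i, ← p3, ← p2]

omit [NumberField k] in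
theorem ls_le_pos {τ : Type} [Fintype τ] {x : τ → k} (hx : x ≠ 0) (w : AbsoluteValue k ℝ) :
    ls x w ≤ ∑ i, log⁺ (w (x i)) := by
  obtain ⟨i, -, h⟩ := exists_ls hx w
  rw [h]
  exact (le_max_right _ _).trans
    (single_le_sum (f := fun i => log⁺ (w (x i))) (fun _ _ => posLog_nonneg) (mem_univ i))

theorem hst [Nonempty ν] (E : Env 𝓕 v y) (hu : AlgebraicIndependent (adjoin k (Set.range y)) u)
    (hφ : Blk (adjoin k (Set.range y)) φ) (hψ : Blk (adjoin k (Set.range y)) ψ)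
    {g : Polynomial (MvPolynomial κ (adjoin k (Set.range y)))} (hg : g.IsPrimitive)
    {U : Finset (κ →₀ ℕ)} (hU : ∀ j, (g.coeff j).support ⊆ U) {P : Polynomial K}
    (hP : g.map (aeval u : MvPolynomial κ (adjoin k (Set.range y)) →ₐ[_] K).toRingHom =
      Polynomial.C (aeval u g.leadingCoeff) * P) {q : β → Polynomial k} (hq : Rp 𝓕 v P q) :
    Sml 𝓕 (HH v y u) (NN v u φ ψ) fun p S => iS S (ls fun a : U => tm v u g.leadingCoeff p a) +
      oS S (ls fun i : Fin (g.natDegree + 1) × U => tm v u (g.coeff i.1) p i.2) -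
      oS S (gn (q p)) := by
  classical
  have l0 := Polynomial.leadingCoeff_ne_zero.2 hg.ne_zero
  have a0 : aeval u g.leadingCoeff ≠ 0 := fun h => l0 (hu.eq_zero_of_aeval_eq_zero _ h)
  have u0 : ∀ i, u i ≠ 0 := fun i => hu.ne_zero i
  have hH := hh_nonneg v y u
  obtain ⟨c₀, hc⟩ := hst_good hg
  obtain ⟨a₀, ha₀⟩ := support_nonempty.2 l0
  choose B B0 hB using fun i : Fin (g.natDegree + 1) × U => tm_bd (u := u) E (g.coeff i.1) i.2
  obtain ⟨B', B0', hB'⟩ := tm_bd (u := u) E g.leadingCoeff a₀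
  have B1 : 0 ≤ ∑ i, B i + B' := add_nonneg (sum_nonneg fun i _ => B0 i) B0'
  refine sml_of_eps fun ε hε => ?_
  obtain ⟨s, hs⟩ := exists_nat_gt (g.natDegree * (∑ i, B i + B') / ε)
  have s0 : (0 : ℝ) < s := lt_of_le_of_lt (by positivity) hs
  rw [div_lt_iff₀ hε] at hs
  obtain ⟨Δ, Δ0, hΔ⟩ := hst_cnt g.natDegree s c₀
  have Δ1 : (Δ : k) ≠ 0 := Int.cast_ne_zero.2 Δ0
  have hU' : ∀ c : ℕ, (g.eval (c : MvPolynomial κ (adjoin k (Set.range y)))).support ⊆ U :=
    fun c a ha => by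
      obtain ⟨i, -, h⟩ := exists_ne_zero_of_sum_ne_zero (hst_coeff g c a ▸ mem_support_iff.1 ha)
      exact hU i (mem_support_iff.2 (right_ne_zero_of_mul h))
  have h1 := sml_sum hH (univ : Finset (Fin s)) fun c _ => lin E hu hφ hψ l0
    (hc _ (Nat.le_add_right c₀ c)).1 (hc _ (Nat.le_add_right c₀ c)).2 (hU _) (hU' _)
  refine ((h1.mul (inv_nonneg.2 s0.le) hH).add
    (sml_const hH fun S => ε - oS S fun w => log (w (Δ : k)))).mono ?_
  have h2 : ∀ (c : ℕ) (a : κ →₀ ℕ), ∀ᶠ p in 𝓕, tm v u (g.eval (c : MvPolynomial κ _)) p a =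
      ∑ i : Fin (g.natDegree + 1), (c : k) ^ (i : ℕ) * tm v u (g.coeff i) p a := fun c a => by
    filter_upwards [E.sp.sum univ fun i : Fin (g.natDegree + 1) => algebraMap k K (c ^ (i : ℕ)) *
      (coeff a (g.coeff i) : adjoin k (Set.range y)), eventually_all.2
      fun i : Fin (g.natDegree + 1) => (E.sp.mul (algebraMap k K (c ^ (i : ℕ)))
        (coeff a (g.coeff i) : adjoin k (Set.range y))).and (E.sp.const (c ^ (i : ℕ)))] with p p1 p2
    simp only [tm, ← mul_assoc, ← sum_mul]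
    rw [← sum_congr rfl fun i _ => (p2 i).1.trans (congrArg (· * _) (p2 i).2), ← p1, hst_coeff]
    simp
  have h3 : ∀ c : ℕ, aeval u (g.eval (c : MvPolynomial κ (adjoin k (Set.range y)))) /
      aeval u g.leadingCoeff = P.eval (c : K) := fun c => by
    have h4 := congrArg (Polynomial.eval (c : K)) hP
    rw [Polynomial.eval_mul, Polynomial.eval_C, ← map_natCast (aeval u : MvPolynomial κ
      (adjoin k (Set.range y)) →ₐ[_] K).toRingHom, Polynomial.eval_map, Polynomial.eval₂_hom,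
      map_natCast] at h4
    rw [div_eq_iff a0, mul_comm]
    exact h4
  filter_upwards [hq, eventually_all.2 hB, hB', eventually_all.2 fun c : Fin s =>
    (hq.eval E.sp (c₀ + c)).and (eventually_all.2 fun a : U => h2 (c₀ + c) a),
    E.sp.ne (a := (coeff a₀ g.leadingCoeff : adjoin k (Set.range y)))
      (by exact_mod_cast mem_support_iff.1 ha₀), eventually_all.2 fun i => E.sp.ne (u0 i)]
    with p p1 p2 p3 p4 p5 p6
  refine ⟨rfl, fun S => ⟨rfl, ?_⟩⟩
  have t0 : tm v u g.leadingCoeff p a₀ ≠ 0 :=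
    mul_ne_zero p5 (prod_ne_zero_iff.2 fun i _ => pow_ne_zero _ (p6 i))
  set x := fun i : Fin (g.natDegree + 1) × U => tm v u (g.coeff i.1) p i.2 with hx
  set z := fun a : U => tm v u g.leadingCoeff p a with hz
  have z0 : z ≠ 0 := fun h => t0 (congrFun h ⟨a₀, hU _ ha₀⟩)
  have x0 : x ≠ 0 := fun h => t0 (congrFun h (Fin.last _, ⟨a₀, hU _ ha₀⟩))
  have zx : ∀ w, ls z w ≤ ls x w := fun w => ls_le z0 fun a => le_exp_ls x w (Fin.last _, a)
  have q1 : oS S (ls x) - oS S (ls z) ≤ (∑ i, B i + B') * (1 + HH v y u p) := by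
    have h4 : oS S (ls x) ≤ ∑ i, B i * (1 + HH v y u p) := by
      refine (oS_mono (fs_ls _) (FS.sum univ fun i => fs_pos (x i)) fun w _ =>
        ls_le_pos x0 w.1).trans ?_
      rw [oS_sum _ fun i => fs_pos (x i)]
      exact sum_le_sum fun i _ => (oS_pos_le S _).trans (p2 i)
    have h5 : oS S (fun w => -1 * ls z w) ≤
        oS S fun w => log⁺ (w (tm v u g.leadingCoeff p a₀)⁻¹) :=
      oS_mono ((fs_ls _).mul _) (fs_pos _) fun w _ => by
        have h6 := le_ls z w.1 (i := ⟨a₀, hU _ ha₀⟩) t0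
        have h7 : log (w.1 (tm v u g.leadingCoeff p a₀)⁻¹) ≤ log⁺ _ := le_max_right _ _
        rw [map_inv₀, log_inv] at h7
        rw [map_inv₀]
        linarith
    have h6 := oS_pos_le S (tm v u g.leadingCoeff p a₀)⁻¹
    rw [logHeight₁_inv] at h6
    rw [oS_mul _ (fs_ls _)] at h5
    rw [add_mul, sum_mul]
    linarith
  let m : Fin s → AbsoluteValue k ℝ → ℝ := fun c w => max (ls z w)
    (ls (fun a : U => tm v u (g.eval ((c₀ + c : ℕ) : MvPolynomial κ _)) p a) w)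
  have fm : ∀ c, FS (m c) := fun c => (fs_ls _).comp₂ (fs_ls _) max (max_self 0)
  have q2 : s * oS S (ls x) - g.natDegree * (oS S (ls x) - oS S (ls z)) +
      s * oS S (fun w => log (w (Δ : k))) ≤ ∑ c, oS S (m c) := by
    have f1 := (fs_ls x).sub (fs_ls z)
    rw [← oS_sum _ fm, ← oS_sub (fs_ls x) (fs_ls z), ← oS_mul _ (fs_ls x), ← oS_mul _ f1,
      ← oS_mul _ (fs_log _), ← oS_sub ((fs_ls x).mul _) (f1.mul _),
      ← oS_add (((fs_ls x).mul _).sub (f1.mul _)) ((fs_log _).mul _)]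
    refine oS_mono ((((fs_ls x).mul _).sub (f1.mul _)).add ((fs_log _).mul _)) (FS.sum _ fm)
      fun w _ => ?_
    obtain ⟨⟨j, a⟩, h4, h5⟩ := exists_ls x0 w.1
    have hw : IsNonarchimedean w.1 := FinitePlace.add_le w
    refine hst_sum (zx _) (log_nonpos (w.1.nonneg _) hw.apply_intCast_le_one)
      (hΔ k w (fun i => x (i, a)) j) (fun c => le_max_left _ _) fun c h6 => le_max_of_le_right ?_
    rw [mem_filter, not_and, not_lt] at h6
    have h7 := h6 (mem_univ c)
    have h8 := mul_pos (w.1.pos Δ1) (w.1.pos h4)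
    rw [← (p4 c).2 a] at h7
    rw [h5, add_comm, ← log_mul (w.1.pos Δ1).ne' (w.1.pos h4).ne']
    exact (log_le_log h8 h7).trans (le_ls
      (fun a : U => tm v u (g.eval ((c₀ + c : ℕ) : MvPolynomial κ _)) p a) w.1 (i := a)
      (w.1.pos_iff.1 (h8.trans_le h7)))
  have q3 : ∀ c : Fin s, oS S (fun w => log⁺ (w (v p (aeval u (g.eval ((c₀ + c : ℕ) :
      MvPolynomial κ (adjoin k (Set.range y)))) / aeval u g.leadingCoeff)))) ≤
      oS S (gn (q p)) := fun c => by
    rw [h3, (p4 c).1]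
    exact oS_mono (fs_pos _) (fs_gn _) fun w _ => val_le p1.1 _ w
  have q4 := sum_le_sum fun c (_ : c ∈ (univ : Finset (Fin s))) => q3 c
  rw [sum_const, card_univ, Fintype.card_fin, nsmul_eq_mul] at q4
  have q5 : g.natDegree * (oS S (ls x) - oS S (ls z)) ≤ s * (ε * (1 + HH v y u p)) := by
    nlinarith [mul_le_mul_of_nonneg_left q1 (Nat.cast_nonneg (α := ℝ) g.natDegree),
      mul_le_mul_of_nonneg_right hs.le (by linarith [hH p] : 0 ≤ 1 + HH v y u p)]
  rw [← sub_le_iff_le_add, le_inv_mul_iff₀ s0, sum_sub_distrib, sum_add_distrib, sum_const,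
    card_univ, Fintype.card_fin, nsmul_eq_mul]
  linarith

end Pool.Agent.Lib.MP_8865d3_nt.Tr
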