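import Pool.Agent.Lib.MP_8865d3_nt.Tr.Loc
import Pool.Agent.Lib.MP_8865d3_nt.Tr.Sml

/-! The subspace inequality for a box at one point. -/

namespace Pool.Agent.Lib.MP_8865d3_nt.Tr

open MvPolynomial Finset Height NumberField Filter Real Pool.Agent.Lib.MP_651af7_nt
open Tb Fc
open Rt (Pl av mu)

variable {k σ ν : Type} [Field k] [NumberField k] [Fintype σ] [DecidableEq σ] [Fintype ν]
  {M N : σ → ℕ} {a b : σ → ν → k} {S : Finset (FinitePlace k)}

theorem hyp_pt {x : σ → k} (hx : ∀ s, x s ≠ 0) (ha : ∀ s, a s ≠ 0) (hb : ∀ s, b s ≠ 0)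
    {U : Finset (σ →₀ ℕ)} {c : (σ →₀ ℕ) → k} (hc : ∀ m ∉ U, c m = 0) {r : ℕ}
    {B : Matrix (Bo N) (Fin r) k} {e : U → (Bo M ⊕ Fin r ≃ Bo N)} {ρ : k} (hρ : ρ ≠ 0)
    (he : ∀ m b s, (e m (.inl b) s : ℕ) = m.1 s + b s)
    (hd : ∀ m : U, (rm c m M).det ^ 2 = (ρ * (B.submatrix (fun l => e m (.inr l)) id).det) ^ 2)
    {η : Fin r → Bo N × (σ → ν) × (σ → ν)} (hη : mi a b B η ≠ 0) (m : Pl S → U) {R : ℝ}
    {X : Bo N × (σ → ν) × (σ → ν) → k} (hX : X = fun i => wt a b i * ∏ s, x s ^ (i.1 s : ℕ))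
    (hs : ∑ s : Pl S, mu s * ∑ l, log ((⨆ i, av s (X i)) /
      av s (∏ t, x t ^ (e (m s) (.inr l) t : ℕ))) + logHeight (mi a b B) ≤ r * logHeight X + R)
    {a' b' : AbsoluteValue k ℝ → ℝ} (hf : FS b')
    (h1 : ∀ s : Pl S, a' (av s) ≤ ∑ t, (m s).1 t * log (av s (x t)))
    (h2 : ∀ w : FinitePlace k, ∃ m, c m ≠ 0 ∧
      b' w.1 ≤ log (w.1 (c m)) - ∑ s, m s * (ls (a s) w.1 - ls (b s) w.1)) :
    Fintype.card (Bo M) * (iS S a' + oS S b') ≤
      ∑ s, (r * N s * oS S (fun w => max (lam (x s) (a s) (b s) w) 0) -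
        (sm N s - sm M s) * oS S (lam (x s) (a s) (b s))) + R +
        iS S (fun w => |log (w (mi a b B η))|) + iS S fun w => |log (w ρ)| := by
  have X0 : X ≠ 0 := hX ▸ sec_ne hx ha hb
  have fa := fun s => fs_ls (a s)
  have fb := fun s => fs_ls (b s)
  have fd : ∀ s, FS fun w => max (lam (x s) (a s) (b s) w) 0 := fun s =>
    (fs_lam (x s) (a s) (b s)).comp₂ (fa s) (fun u _ => max u 0) (max_self 0)
  have f1 := fun s => ((fb s).mul (r * N s)).add (((fa s).sub (fb s)).mul (sm N s - sm M s))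
  have f2 := (hf.mul (Fintype.card (Bo M))).sub (fs_log ρ)
  have f3 := fun s => ((fb s).add (fd s)).mul (N s)
  have c1 := oS_mono (S := S) (f2.add (FS.sum univ f1)) (fs_ls (mi a b B)) fun w _ => by
    obtain ⟨m, m1, m2⟩ := h2 w
    have := loc_low (w := w.1) (fun a b => w.add_le a b) hc hρ he hd ha hb m1
    have := mul_le_mul_of_nonneg_left m2 (Nat.cast_nonneg (α := ℝ) (Fintype.card (Bo M)))
    linarith
  have c2 := oS_mono (S := S) (fs_ls X) (FS.sum univ f3) fun w _ => hX ▸ loc_up hx ha hb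
  rw [oS_add f2 (FS.sum univ f1), oS_sub (hf.mul _) (fs_log ρ), oS_mul _ hf, oS_sum _ f1] at c1
  rw [oS_sum _ f3] at c2
  simp only [oS_add ((fb _).mul _) (((fa _).sub (fb _)).mul _), oS_mul _ (fb _),
    oS_mul _ ((fa _).sub (fb _)), oS_mul _ ((fb _).add (fd _)), oS_add (fb _) (fd _)] at c1 c2
  have c3 : r * iS S (ls X) - ∑ t, (sm N t - sm M t) * iS S (fun w => log (w (x t))) +
      Fintype.card (Bo M) * iS S a' ≤ ∑ s : Pl S, mu s * ∑ l, log ((⨆ i, av s (X i)) /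
        av s (∏ t, x t ^ (e (m s) (.inr l) t : ℕ))) := by
    simp only [← iS_mul, ← iS_sum, ← iS_sub, ← iS_add]
    refine sum_le_sum fun s _ => mul_le_mul_of_nonneg_left ?_ (Nat.cast_nonneg _)
    obtain ⟨i, hi⟩ := Function.ne_iff.1 X0
    have d1 : ∀ l, log ((⨆ i, av s (X i)) / av s (∏ t, x t ^ (e (m s) (.inr l) t : ℕ))) =
        ls X (av s) - ∑ t, (e (m s) (.inr l) t : ℕ) * log (av s (x t)) := fun l => by
      rw [log_div (((av s).pos hi).trans_le (Finite.le_ciSup (fun i => av s (X i)) i)).ne'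
        ((av s).pos (prod_ne_zero_iff.2 fun t _ => pow_ne_zero _ (hx t))).ne', map_prod,
        log_prod fun t _ => ((av s).pos (pow_ne_zero _ (hx t))).ne']
      simp only [map_pow, log_pow, ls]
    have d2 : ∑ l, ∑ t, (e (m s) (.inr l) t : ℕ) * log (av s (x t)) =
        ∑ t, (sm N t - sm M t) * log (av s (x t)) -
          Fintype.card (Bo M) * ∑ t, (m s).1 t * log (av s (x t)) := by
      rw [sum_comm, mul_sum, ← sum_sub_distrib]
      refine sum_congr rfl fun t _ => ?_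
      rw [← sum_mul, sum_cmp _ (he _)]
      ring
    have d3 := mul_le_mul_of_nonneg_left (h1 s) (Nat.cast_nonneg (α := ℝ) (Fintype.card (Bo M)))
    simp only [d1, sum_sub_distrib, d2, sum_const, card_univ, Fintype.card_fin, nsmul_eq_mul]
    linarith
  have c4 : -1 * iS S (fun w => |log (w (mi a b B η))|) ≤ iS S (ls (mi a b B)) := by
    rw [← iS_mul]
    exact iS_mono fun s => le_trans (by linarith [neg_abs_le (log (av s (mi a b B η)))])
      (le_ls _ _ hη)
  have c5 : -1 * iS S (fun w => |log (w ρ)|) ≤ iS S fun w => log (w ρ) := by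
    rw [← iS_mul]
    exact iS_mono fun s => by linarith [neg_abs_le (log (av s ρ))]
  have c6 : ∑ s, (r * N s * oS S (fun w => max (lam (x s) (a s) (b s) w) 0) -
      (sm N s - sm M s) * oS S (lam (x s) (a s) (b s))) =
      r * ∑ s, N s * (oS S (ls (b s)) + oS S fun w => max (lam (x s) (a s) (b s) w) 0) -
        ∑ s, (r * N s * oS S (ls (b s)) + (sm N s - sm M s) * oS S fun w =>
          ls (a s) w - ls (b s) w) + ∑ t, (sm N t - sm M t) * iS S fun w => log (w (x t)) := by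
    rw [mul_sum, ← sum_sub_distrib, ← sum_add_distrib]
    refine sum_congr rfl fun s _ => ?_
    rw [show oS S (lam (x s) (a s) (b s)) = _ from oS_add (fs_log (x s)) ((fa s).sub (fb s)),
      eq_neg_of_add_eq_zero_left (pf_split S (hx s))]
    ring
  have c7 := mul_le_mul_of_nonneg_left c2 (Nat.cast_nonneg (α := ℝ) r)
  rw [ht_split S X0, ht_split S (Function.ne_iff.2 ⟨η, hη⟩)] at hs
  have c8 := pf_split S hρ
  rw [c6]
  linarith

end Pool.Agent.Lib.MP_8865d3_nt.Tr
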