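import Pool.Agent.Lib.MP_8865d3_nt.Tr.Defs

/-! The equation of an algebraic function on a torus. -/

namespace Pool.Agent.Lib.MP_8865d3_nt.Tr

open MvPolynomial Finset Height NumberField Filter Real Pool.Agent.Lib.MP_651af7_nt
open Tb Fc
open IntermediateField (adjoin)
open Rt (Pl av mu)

theorem ker_coeff {F K κ : Type} [Field F] [Field K] [Algebra F K] [Fintype κ] (u : κ → K)
    (f : MvPolynomial (Option κ) F) (j : ℕ) :
    ∑ m ∈ f.support with m none = j, coeff m f • ∏ i, u i ^ m (some i) =
      aeval u ((optionEquivLeft F κ f).coeff j) := by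
  conv_rhs => rw [f.as_sum]
  simp only [map_sum, optionEquivLeft_monomial, Polynomial.finsetSum_coeff,
    Polynomial.coeff_monomial, Finset.sum_filter]
  refine Finset.sum_congr rfl fun m _ => ?_
  split_ifs
  · rw [aeval_monomial, Finsupp.prod_fintype _ _ (by simp), Algebra.smul_def]
    simp
  · simp

theorem ker {F K κ : Type} [Field F] [Field K] [Algebra F K] [Fintype κ] [DecidableEq κ] {u : κ → K}
    (hu : AlgebraicIndependent F u) {τ : K} (hτ : IsIntegral (adjoin F (Set.range u)) τ) :
    ∃ (f : MvPolynomial (Option κ) F) (a : K), f ≠ 0 ∧ a ≠ 0 ∧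
      aeval (fun o : Option κ => o.elim τ u) f = 0 ∧
      (∀ P, aeval (fun o : Option κ => o.elim τ u) P = 0 → f ∣ P) ∧
      f.degreeOf none = (minpoly (adjoin F (Set.range u)) τ).natDegree ∧
      ∀ j, ∑ m ∈ f.support with m none = j, coeff m f • ∏ i, u i ^ m (some i) =
        a * ((minpoly (adjoin F (Set.range u)) τ).coeff j : adjoin F (Set.range u)) := by
  classical
  let : Algebra (MvPolynomial κ F) (adjoin F (Set.range u)) :=
    (hu.aevalEquivField.toRingHom.comp (algebraMap _ (FractionRing (MvPolynomial κ F)))).toAlgebra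
  have hφ : ∀ q : MvPolynomial κ F,
      ((algebraMap (MvPolynomial κ F) (adjoin F (Set.range u)) q : adjoin F (Set.range u)) : K)
        = aeval u q := fun q => hu.aevalEquivField_algebraMap_apply_coe q
  have : IsFractionRing (MvPolynomial κ F) (adjoin F (Set.range u)) :=
    IsFractionRing.of_algEquiv (K := FractionRing (MvPolynomial κ F))
      { hu.aevalEquivField.toRingEquiv with commutes' := fun _ => rfl }
  have hinj := FaithfulSMul.algebraMap_injective (MvPolynomial κ F) (adjoin F (Set.range u))
  obtain ⟨_⟩ : Nonempty (NormalizedGCDMonoid (MvPolynomial κ F)) := inferInstance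
  have hev : ∀ P : MvPolynomial (Option κ) F, aeval (fun o : Option κ => o.elim τ u) P =
      Polynomial.aeval τ ((optionEquivLeft F κ P).map
        (algebraMap (MvPolynomial κ F) (adjoin F (Set.range u)))) := by
    intro P
    induction P using MvPolynomial.induction_on with
    | C r =>
      rw [optionEquivLeft_C, Polynomial.map_C, Polynomial.aeval_C, aeval_C]
      exact ((hφ (C r)).trans (aeval_C _ _)).symm
    | add p q hp hq => simp only [map_add, Polynomial.map_add, hp, hq]
    | mul_X p o hp =>
      simp only [map_mul, Polynomial.map_mul, hp]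
      congr 1
      cases o with
      | none => simp
      | some i =>
        rw [optionEquivLeft_X_some, Polynomial.map_C, Polynomial.aeval_C, aeval_X]
        exact ((hφ (X i)).trans (aeval_X _ _)).symm
  set μ := minpoly (adjoin F (Set.range u)) τ with hμ
  have hμ0 : μ ≠ 0 := minpoly.ne_zero hτ
  obtain ⟨b, hb, hbμ⟩ :=
    IsLocalization.integerNormalization_spec (nonZeroDivisors (MvPolynomial κ F)) μ
  set g0 := IsLocalization.integerNormalization (nonZeroDivisors (MvPolynomial κ F)) μ
  have hb0 : algebraMap (MvPolynomial κ F) (adjoin F (Set.range u)) b ≠ 0 :=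
    fun h => nonZeroDivisors.ne_zero hb (hinj (by rw [h, map_zero]))
  obtain ⟨c, hc0, hc⟩ : ∃ c : adjoin F (Set.range u), c ≠ 0 ∧
      g0.primPart.map (algebraMap (MvPolynomial κ F) (adjoin F (Set.range u)))
        = Polynomial.C c * μ := by
    have h1 := congrArg (Polynomial.map (algebraMap (MvPolynomial κ F) (adjoin F (Set.range u))))
      g0.eq_C_content_mul_primPart
    rw [hbμ, Polynomial.map_mul, Polynomial.map_C, ← algebraMap_smul (adjoin F (Set.range u)),
      Polynomial.smul_eq_C_mul] at h1
    have h2 : algebraMap (MvPolynomial κ F) (adjoin F (Set.range u)) g0.content ≠ 0 := by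
      intro h
      rw [h, map_zero, zero_mul] at h1
      exact mul_ne_zero (Polynomial.C_ne_zero.2 hb0) hμ0 h1
    refine ⟨_⁻¹ * _, mul_ne_zero (inv_ne_zero h2) hb0, ?_⟩
    rw [map_mul, mul_assoc, h1, ← mul_assoc, ← map_mul, inv_mul_cancel₀ h2, map_one, one_mul]
  have hf : optionEquivLeft F κ ((optionEquivLeft F κ).symm g0.primPart) = g0.primPart :=
    AlgEquiv.apply_symm_apply _ _
  refine ⟨(optionEquivLeft F κ).symm g0.primPart, (c : K), ?_, ?_, ?_, fun P hP => ?_, ?_,
    fun j => ?_⟩
  · exact fun h => g0.primPart_ne_zero (by rw [← hf, h, map_zero])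
  · exact fun h => hc0 (Subtype.ext h)
  · rw [hev, hf, hc, map_mul, hμ, minpoly.aeval, mul_zero]
  · rw [hev] at hP
    have h1 : g0.primPart ∣ optionEquivLeft F κ P := by
      refine g0.isPrimitive_primPart.dvd_of_fraction_map_dvd_fraction_map
        (K := adjoin F (Set.range u)) ?_
      rw [hc, Polynomial.C_mul_dvd hc0]
      exact minpoly.dvd _ _ hP
    have h2 := map_dvd (optionEquivLeft F κ).symm h1
    rwa [AlgEquiv.symm_apply_apply] at h2
  · rw [← natDegree_optionEquivLeft, hf, ← Polynomial.natDegree_map_eq_of_injective hinj, hc,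
      Polynomial.natDegree_C_mul hc0]
  · rw [ker_coeff, hf, ← hφ, ← Polynomial.coeff_map, hc, Polynomial.coeff_C_mul]
    rfl

end Pool.Agent.Lib.MP_8865d3_nt.Tr
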