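import Pool.Agent.Lib.MP_8865d3_nt.Tr.Defs

/-! Complementary minors. -/

namespace Pool.Agent.Lib.MP_8865d3_nt.Tr

open MvPolynomial Finset Height NumberField Filter Real Pool.Agent.Lib.MP_651af7_nt
open Tb Fc
open IntermediateField (adjoin)
open Rt (Pl av mu)

theorem la {F K E E' : Type} [Field F] [Field K] [Algebra F K] [Fintype E] [Fintype E']
    [DecidableEq E] [DecidableEq E'] {r : ℕ} (R : Matrix E' E F) (X : E → K)
    (h0 : ∀ b, ∑ a, R b a • X a = 0)
    (h1 : ∀ c : E → F, ∑ a, c a • X a = 0 → ∃ g : E' → F, c = Matrix.vecMul g R)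
    (e₀ : E' ⊕ Fin r ≃ E) (hd : (R.submatrix id fun b => e₀ (.inl b)).det ≠ 0) :
    ∃ (t : Fin r → K) (B : Matrix E (Fin r) F), LinearIndependent F t ∧
      (∀ a, ∑ l, B a l • t l = X a) ∧ ∀ e : E' ⊕ Fin r ≃ E,
        (R.submatrix id fun b => e (.inl b)).det ^ 2 = ((R.submatrix id fun b => e₀ (.inl b)).det *
          (B.submatrix (fun l => e (.inr l)) id).det) ^ 2 := by
  obtain ⟨A, hA⟩ : ∃ A, A = R.submatrix id fun b => e₀ (.inl b) := ⟨_, rfl⟩
  obtain ⟨D, hD⟩ : ∃ D, D = R.submatrix id fun l => e₀ (.inr l) := ⟨_, rfl⟩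
  rw [← hA] at hd ⊢
  have hu : IsUnit A.det := Ne.isUnit hd
  obtain ⟨B, hB⟩ : ∃ B : Matrix E (Fin r) F,
      B = (Matrix.fromRows (-(A⁻¹ * D)) 1).submatrix e₀.symm id := ⟨_, rfl⟩
  have hR : R = (Matrix.fromCols A D).submatrix id e₀.symm := by
    ext b a
    obtain ⟨a | a, rfl⟩ := e₀.surjective a <;> simp [hA, hD]
  have hRB : R * B = 0 := by
    rw [hR, hB, Matrix.submatrix_mul_equiv, Matrix.fromCols_mul_fromRows, Matrix.mul_neg,
      Matrix.mul_nonsing_inv_cancel_left _ _ hu, Matrix.mul_one, neg_add_cancel]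
    rfl
  refine ⟨fun l => X (e₀ (.inr l)), B, Fintype.linearIndependent_iff.2 fun g hg l => ?_,
    fun a => ?_, fun e => ?_⟩
  · obtain ⟨g', h⟩ := h1 (fun a => Sum.elim 0 g (e₀.symm a)) (by
      rw [← e₀.sum_comp]
      simpa using hg)
    have h2 : g' = 0 := Matrix.eq_zero_of_vecMul_eq_zero hd (funext fun b => by
      have := congrFun h (e₀ (.inl b))
      rw [e₀.symm_apply_apply] at this
      rw [hA]
      exact this.symm)
    simpa [h2] using congrFun h (e₀ (.inr l))
  · obtain ⟨b | b, rfl⟩ := e₀.surjective a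
    · have h2 : ∑ a, (A⁻¹ * R) b a • X a = 0 := by
        simp only [Matrix.mul_apply, sum_smul, mul_smul]
        rw [sum_comm]
        simp only [← smul_sum, h0, smul_zero, sum_const_zero]
      have h3 : A⁻¹ * R = (Matrix.fromCols 1 (A⁻¹ * D)).submatrix id e₀.symm := by
        rw [← Matrix.nonsing_inv_mul A hu, ← Matrix.mul_fromCols, hR]
        rfl
      rw [h3, ← e₀.sum_comp, Fintype.sum_sum_type] at h2
      simp only [Matrix.submatrix_apply, id, e₀.symm_apply_apply, Matrix.fromCols_apply_inl,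
        Matrix.fromCols_apply_inr, Matrix.one_apply, ite_smul, one_smul, zero_smul, sum_ite_eq,
        mem_univ, if_true] at h2
      simp only [hB, Matrix.submatrix_apply, id, e₀.symm_apply_apply, Matrix.fromRows_apply_inl,
        Matrix.neg_apply, neg_smul, sum_neg_distrib]
      exact (eq_neg_of_add_eq_zero_left h2).symm
    · simp [hB, Matrix.one_apply]
  · obtain ⟨N, hN⟩ : ∃ N : Matrix (E' ⊕ Fin r) E F,
        N = Matrix.fromRows R ((1 : Matrix E E F).submatrix (fun l => e (.inr l)) id) := ⟨_, rfl⟩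
    obtain ⟨M, hM⟩ : ∃ M : Matrix E (E' ⊕ Fin r) F,
        M = Matrix.fromCols ((1 : Matrix E E F).submatrix id fun b => e₀ (.inl b)) B := ⟨_, rfl⟩
    have a1 : N.submatrix id e = Matrix.fromBlocks (R.submatrix id fun b => e (.inl b))
        (R.submatrix id fun l => e (.inr l)) 0 1 := by
      ext (i | i) (j | j) <;> simp [hN, Matrix.one_apply]
    have a2 : M.submatrix e₀ id = Matrix.fromBlocks 1 (-(A⁻¹ * D)) 0 1 := by
      ext (i | i) (j | j) <;> simp [hM, hB, Matrix.one_apply]
    have a3 : R * ((1 : Matrix E E F).submatrix id fun b => e₀ (.inl b)) = A := by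
      ext i j
      simp [hA, Matrix.mul_apply, Matrix.one_apply]
    have a4 : (1 : Matrix E E F).submatrix (fun l => e (.inr l)) id * B =
        B.submatrix (fun l => e (.inr l)) id := by
      ext i j
      simp [Matrix.mul_apply, Matrix.one_apply]
    have a5 : (N.submatrix id e₀).det = A.det * (B.submatrix (fun l => e (.inr l)) id).det := by
      have h := Matrix.det_mul (N.submatrix id e₀) (M.submatrix e₀ id)
      rw [Matrix.submatrix_mul_equiv, a2, Matrix.det_fromBlocks_zero₂₁, Matrix.det_one,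
        Matrix.det_one, mul_one, mul_one, Matrix.submatrix_id_id] at h
      rw [← h, hN, hM, Matrix.fromRows_mul_fromCols, a3, a4, hRB, Matrix.det_fromBlocks_zero₁₂]
    have a6 := Matrix.det_permute' (e.trans e₀.symm) (N.submatrix id e₀)
    have a7 : (N.submatrix id e₀).submatrix id (e.trans e₀.symm) = N.submatrix id e := by
      ext i j
      simp
    rw [a7, a1, Matrix.det_fromBlocks_zero₂₁, Matrix.det_one, mul_one, a5] at a6
    rw [a6, mul_pow, ← Int.cast_pow, ← Units.val_pow_eq_pow_val, Int.units_sq]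
    simp

end Pool.Agent.Lib.MP_8865d3_nt.Tr
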