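import Pool.Agent.Lib.MP_8865d3_nt.Tr.Vx

/-! Local bounds for the minors and for the sections. -/

namespace Pool.Agent.Lib.MP_8865d3_nt.Tr

open MvPolynomial Finset Height NumberField Filter Real Pool.Agent.Lib.MP_651af7_nt
open Tb Fc
open IntermediateField (adjoin)
open Rt (Pl av mu)

variable {k σ ν : Type} [Field k] [Fintype σ] [DecidableEq σ] [Fintype ν]
  {w : AbsoluteValue k ℝ} {M N : σ → ℕ} {a b : σ → ν → k}

theorem loc_low (hw : IsNonarchimedean w) {U : Finset (σ →₀ ℕ)} {c : (σ →₀ ℕ) → k}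
    (hc : ∀ m ∉ U, c m = 0) {r : ℕ} {B : Matrix (Bo N) (Fin r) k} {e : U → (Bo M ⊕ Fin r ≃ Bo N)}
    {ρ : k} (hρ : ρ ≠ 0) (he : ∀ m b s, (e m (.inl b) s : ℕ) = m.1 s + b s)
    (hd : ∀ m : U, (rm c m M).det ^ 2 = (ρ * (B.submatrix (fun l => e m (.inr l)) id).det) ^ 2)
    (ha : ∀ s, a s ≠ 0) (hb : ∀ s, b s ≠ 0) {m : σ →₀ ℕ} (hm : c m ≠ 0) :
    Fintype.card (Bo M) * (log (w (c m)) - ∑ s, m s * (ls (a s) w - ls (b s) w)) - log (w ρ) +
      ∑ s, (r * N s * ls (b s) w + (sm N s - sm M s) * (ls (a s) w - ls (b s) w)) ≤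
      ls (mi a b B) w := by
  obtain ⟨m₀, hU, hc0, hmax, hdet⟩ := vtx hw hc ⟨m, hm⟩ (fun s => -(ls (a s) w - ls (b s) w)) M
  choose β hβ hβ' using fun s => exists_ls (ha s) w
  choose γ hγ hγ' using fun s => exists_ls (hb s) w
  set E := e ⟨m₀, hU⟩ with hE
  set D := (B.submatrix (fun l => E (.inr l)) id).det with hD
  have h1 : w (c m₀) ^ Fintype.card (Bo M) = w ρ * w D := by
    have h := congrArg w (hd ⟨m₀, hU⟩)
    rw [map_pow, map_pow, hdet, map_mul] at h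
    exact (pow_left_inj₀ (by positivity) (by positivity) two_ne_zero).1 h
  have h2 : D ≠ 0 := by
    intro h
    rw [h, map_zero, mul_zero] at h1
    exact (pow_pos (w.pos hc0) _).ne' h1
  have h3 : Fintype.card (Bo M) * log (w (c m₀)) = log (w ρ) + log (w D) := by
    rw [← log_pow, h1, log_mul (w.pos hρ).ne' (w.pos h2).ne']
  have h4 : mi a b B (fun l => (E (.inr l), β, γ)) =
      (∏ l, wt a b (E (.inr l), β, γ)) * D := by
    rw [hD, ← Matrix.det_mul_column]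
    rfl
  have h5 : ∀ α : Bo N, wt a b (α, β, γ) ≠ 0 := fun α =>
    prod_ne_zero_iff.2 fun s _ => mul_ne_zero (pow_ne_zero _ (hβ s)) (pow_ne_zero _ (hγ s))
  have h6 : ∀ α : Bo N, log (w (wt a b (α, β, γ))) =
      ∑ s, (N s * ls (b s) w + ((α s : ℕ) : ℝ) * (ls (a s) w - ls (b s) w)) := fun α => by
    rw [wt, map_prod, log_prod fun s _ =>
      (w.pos (mul_ne_zero (pow_ne_zero _ (hβ s)) (pow_ne_zero _ (hγ s)))).ne']
    refine sum_congr rfl fun s _ => ?_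
    rw [map_mul, map_pow, map_pow, log_mul (pow_pos (w.pos (hβ s)) _).ne'
      (pow_pos (w.pos (hγ s)) _).ne', log_pow, log_pow, ← hβ', ← hγ',
      Nat.cast_sub (Nat.lt_succ_iff.1 (α s).2)]
    ring
  have h7 := le_ls (mi a b B) w (i := fun l => (E (.inr l), β, γ))
    (h4 ▸ mul_ne_zero (prod_ne_zero_iff.2 fun l _ => h5 _) h2)
  rw [h4, map_mul, log_mul (w.pos (prod_ne_zero_iff.2 fun l _ => h5 _)).ne' (w.pos h2).ne',
    map_prod, log_prod fun l _ => (w.pos (h5 _)).ne'] at h7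
  simp only [h6] at h7
  rw [sum_comm] at h7
  have h8 : ∀ s, ∑ l : Fin r, (N s * ls (b s) w +
      ((E (.inr l) s : ℕ) : ℝ) * (ls (a s) w - ls (b s) w)) =
      (r * N s * ls (b s) w + (sm N s - sm M s) * (ls (a s) w - ls (b s) w)) -
        Fintype.card (Bo M) * (m₀ s * (ls (a s) w - ls (b s) w)) := fun s => by
    rw [sum_add_distrib, ← sum_mul, ← sum_mul, sum_cmp E (he ⟨m₀, hU⟩) s, sum_const, card_univ,
      Fintype.card_fin, nsmul_eq_mul]
    ring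
  simp only [h8] at h7
  rw [sum_sub_distrib, ← mul_sum] at h7
  have h9 := mul_le_mul_of_nonneg_left (hmax m hm) (Nat.cast_nonneg (α := ℝ) (Fintype.card (Bo M)))
  simp only [mul_neg, sum_neg_distrib] at h9
  linarith

theorem sec_ne {x : σ → k} (hx : ∀ s, x s ≠ 0) (ha : ∀ s, a s ≠ 0) (hb : ∀ s, b s ≠ 0) :
    (fun i : Bo N × (σ → ν) × (σ → ν) => wt a b i * ∏ s, x s ^ (i.1 s : ℕ)) ≠ 0 := by
  choose α hα using fun s => Function.ne_iff.1 (ha s)
  choose γ hγ using fun s => Function.ne_iff.1 (hb s)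
  exact Function.ne_iff.2 ⟨(fun _ => 0, α, γ), mul_ne_zero
    (prod_ne_zero_iff.2 fun s _ => mul_ne_zero (pow_ne_zero _ (hα s)) (pow_ne_zero _ (hγ s)))
    (prod_ne_zero_iff.2 fun s _ => pow_ne_zero _ (hx s))⟩

theorem loc_up {x : σ → k} (hx : ∀ s, x s ≠ 0) (ha : ∀ s, a s ≠ 0) (hb : ∀ s, b s ≠ 0) :
    ls (fun i : Bo N × (σ → ν) × (σ → ν) => wt a b i * ∏ s, x s ^ (i.1 s : ℕ)) w ≤
      ∑ s, N s * (ls (b s) w + max (lam (x s) (a s) (b s) w) 0) := by
  refine ls_le (sec_ne hx ha hb) fun i => ?_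
  rw [wt, ← prod_mul_distrib, map_prod, exp_sum]
  refine prod_le_prod (fun s _ => w.nonneg _) fun s _ => ?_
  have h1 : w (a s (i.2.1 s) * x s) ≤ exp (ls (b s) w + max (lam (x s) (a s) (b s) w) 0) := by
    rw [map_mul, ← exp_log (w.pos (hx s))]
    refine (mul_le_mul_of_nonneg_right (le_exp_ls (a s) w _) (exp_pos _).le).trans ?_
    rw [← exp_add, exp_le_exp]
    linarith [le_max_left (lam (x s) (a s) (b s) w) 0, show lam (x s) (a s) (b s) w =
      log (w (x s)) + (ls (a s) w - ls (b s) w) from rfl]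
  have h2 : w (b s (i.2.2 s)) ≤ exp (ls (b s) w + max (lam (x s) (a s) (b s) w) 0) :=
    (le_exp_ls (b s) w _).trans (exp_le_exp.2 (le_add_of_nonneg_right (le_max_right _ _)))
  rw [mul_right_comm, ← mul_pow, map_mul, map_pow, map_pow, exp_nat_mul]
  refine (mul_le_mul (pow_le_pow_left₀ (w.nonneg _) h1 _) (pow_le_pow_left₀ (w.nonneg _) h2 _)
    (pow_nonneg (w.nonneg _) _) (pow_nonneg (exp_pos _).le _)).trans_eq ?_
  rw [← pow_add, Nat.add_sub_cancel' (Nat.lt_succ_iff.1 (i.1 s).2)]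

end Pool.Agent.Lib.MP_8865d3_nt.Tr
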