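import Pool.Agent.Lib.MP_8865d3_nt.Tr.MainT

/-! The statement over the function field of the abelian variety. -/

namespace Pool.Agent.Lib.MP_8865d3_nt.Tr

open MvPolynomial Finset Height NumberField Filter Real Pool.Agent.Lib.MP_651af7_nt
open Tb Fc Ds
open IntermediateField (adjoin)

variable {k : Type} [Field k] [NumberField k] {g n N e : ℕ}

theorem mainF {J : Ideal (MvPolynomial (Fin g) k)}
    (hA : Abelian (J.map (MvPolynomial.map (algebraMap k (AlgebraicClosure k)))))
    {F : Type} (K : Type) [Field F] [Field K] [Algebra k F] [Algebra k K] [Algebra F K]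
    [IsScalarTower k F K] [Algebra (MvPolynomial (Fin n) F) K]
    [IsScalarTower F (MvPolynomial (Fin n) F) K] [IsFractionRing (MvPolynomial (Fin n) F) K]
    {y : Fin g → F} (D : Nc.Pt J y) (hF : adjoin k (Set.range y) = ⊤)
    {φ ψ : Fin n → Fin (N + 1) → MvPolynomial (Fin g) k}
    (hφ : ∀ i, ∃ a, aeval y (φ i a) ≠ 0) (hψ : ∀ i, ∃ a, aeval y (ψ i a) ≠ 0)
    {ρ : Fin (e + 1) → MvPolynomial (Fin n) (MvPolynomial (Fin g) k)} (he : e ≠ 0)
    (hρ : map (aeval y).toRingHom (ρ (Fin.last e)) ≠ 0)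
    (hf : Irreducible
      (∑ j : Fin (e + 1), Polynomial.monomial j (map (aeval y).toRingHom (ρ j))))
    {ε : ℝ} (hε : 0 < ε) :
    ∃ (Θ : MvPolynomial (Fin n) (MvPolynomial (Fin g) k)) (c : ℝ),
      map (aeval y).toRingHom Θ ≠ 0 ∧ ∀ S : Finset (FinitePlace k), ∃ C : ℝ,
        ∀ (L : Type) [Field L] [NumberField L] [Algebra k L] (x : Fin g → k) (z : Fin n → k)
          (t : L), (∀ P, aeval y P = 0 → eval x P = 0) → eval z (map (eval x) Θ) ≠ 0 →
        ∑ j, eval z (map (eval x) (ρ j)) • t ^ (j : ℕ) = 0 →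
        ∑ v : InfinitePlace k, |e * lamI v t - v.mult * (trm (fun j => map (eval x) (ρ j)) z v.1 -
            trm ![map (eval x) (ρ (Fin.last e))] z v.1)| +
          ∑ v ∈ S, |e * lamF v t - (trm (fun j => map (eval x) (ρ j)) z v.1 -
            trm ![map (eval x) (ρ (Fin.last e))] z v.1)| +
          |∑ᶠ v ∈ (S : Set (FinitePlace k))ᶜ,
            (e * lamF v t - trm (fun j => map (eval x) (ρ j)) z v.1) -
            (∑ v : InfinitePlace k, v.mult * trm ![map (eval x) (ρ (Fin.last e))] z v.1 +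
              ∑ v ∈ S, trm ![map (eval x) (ρ (Fin.last e))] z v.1)| ≤
          ε * (logHeight x + ∑ i, logHeight₁ (z i)) + c * ∑ i, oS S
            (dfc (z i) (fun a => eval x (φ i a)) fun a => eval x (ψ i a)) + C := by
  let j := IsScalarTower.toAlgHom k F K
  let y' := fun a => j (y a)
  let u : Fin n → K := fun i => algebraMap (MvPolynomial (Fin n) F) K (X i)
  have inj := IsFractionRing.injective (MvPolynomial (Fin n) F) K
  have a0 : ∀ P : MvPolynomial (Fin g) k, aeval y' P = j (aeval y P) := fun P =>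
    (comp_aeval_apply _ _ _).symm
  have a0' : ∀ P : MvPolynomial (Fin g) k, aeval y' P = 0 ↔ aeval y P = 0 := fun P => by
    rw [a0, map_eq_zero_iff j j.injective]
  have a1 : adjoin k (Set.range y') = j.fieldRange := by
    rw [AlgHom.fieldRange_eq_map, ← hF, IntermediateField.adjoin_map, ← Set.range_comp]
    rfl
  let σ : F →+* adjoin k (Set.range y') := j.toRingHom.codRestrict _ fun a => a1.ge ⟨a, rfl⟩
  have hσ : Function.Surjective σ := fun b => (a1.le b.2).imp fun a ha => Subtype.ext ha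
  have hu : AlgebraicIndependent (adjoin k (Set.range y')) u :=
    ((algebraicIndependent_X _ F).map' (f := IsScalarTower.toAlgHom F (MvPolynomial (Fin n) F) K)
      inj).ringHom_of_comp_eq σ (RingHom.id K) hσ Function.injective_id rfl
  have a2 : ∀ c, algebraMap (MvPolynomial (Fin n) F) K (C c) = j c := fun c =>
    (IsScalarTower.algebraMap_apply F _ K c).symm
  have hK : adjoin (adjoin k (Set.range y')) (Set.range u) = ⊤ := eq_top_iff.2 fun a _ => by
    obtain ⟨p, q, -, rfl⟩ := IsFractionRing.div_surjective (MvPolynomial (Fin n) F) a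
    have : ∀ p, algebraMap (MvPolynomial (Fin n) F) K p ∈
        adjoin (adjoin k (Set.range y')) (Set.range u) := fun p => by
      induction p using MvPolynomial.induction_on with
      | C c => exact a2 c ▸ IntermediateField.algebraMap_mem _ (σ c)
      | add p q hp hq => exact map_add (algebraMap _ K) p q ▸ add_mem hp hq
      | mul_X p s hp =>
        exact map_mul (algebraMap _ K) p _ ▸ mul_mem hp (IntermediateField.subset_adjoin _ _ ⟨s, rfl⟩)
    exact div_mem (this p) (this q)
  have a3 : ∀ P : MvPolynomial (Fin n) (MvPolynomial (Fin g) k), aeval (Sum.elim y' u) (bk P) =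
      algebraMap (MvPolynomial (Fin n) F) K (map (aeval y).toRingHom P) := fun P => by
    refine (aeval_bk y' u P).trans ?_
    induction P using MvPolynomial.induction_on with
    | C c =>
      rw [map_C, map_C, eval_C, a2]
      exact a0 c
    | add P Q hP hQ => simp only [map_add, hP, hQ]
    | mul_X P s hP => simp only [map_mul, hP, map_X, eval_X, u]
  have D' : Nc.Pt J y' := ⟨D.hom, D.one.imp fun a ha => by simp only [y', ha, map_one],
    fun P d hP => by rw [a0', D.gen P d hP]⟩
  have b1 : ∀ {φ : Fin n → Fin (N + 1) → MvPolynomial (Fin g) k},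
      (∀ i, ∃ a, aeval y (φ i a) ≠ 0) → ∀ i, ∃ a, aeval y' (φ i a) ≠ 0 :=
    fun h i => (h i).imp fun a ha => mt (a0' _).1 ha
  have d1 := (sum_deg (a := fun j => map (aeval y).toRingHom (ρ j)) hρ).trans_ne he
  obtain ⟨Θ₁, c₁, t1, h₁⟩ := main hA D' hu hK (b1 hφ) (b1 hψ) (ρ := fun j => bk (ρ j))
    (by rw [a3]; exact (map_ne_zero_iff _ inj).2 hρ) (by
      have := ((hf.isPrimitive d1).irreducible_iff_irreducible_map_fraction_map (K := K)).1 hf
      simpa only [Polynomial.map_sum, Polynomial.map_monomial, a3] using this) (half_pos hε)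
  have a4 : ∀ P : MvPolynomial (Fin n) (MvPolynomial (Fin g) k),
      map (σ.comp (aeval y).toRingHom) P = mapEquiv (Fin n) (RingEquiv.ofBijective σ ⟨σ.injective, hσ⟩)
        (map (aeval y).toRingHom P) := fun P => (MvPolynomial.map_map _ _ P).symm
  have a5 : map (σ.comp (aeval y).toRingHom) (ρ (Fin.last e)) ≠ 0 := by
    rw [a4]
    exact (map_ne_zero_iff _ (RingEquiv.injective _)).2 hρ
  obtain ⟨Θ₂, c₂, t2, h₂⟩ := mainT hA D' hu hK (b1 hφ) (b1 hψ) (ρ := ρ)
    (θ := σ.comp (aeval y).toRingHom) (fun P => (a0 P).symm) a5 (Irreducible.isPrimitive (by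
      have := (MulEquiv.irreducible_iff (Polynomial.mapEquiv
        (mapEquiv (Fin n) (RingEquiv.ofBijective σ ⟨σ.injective, hσ⟩)))).2 hf
      simpa only [Polynomial.mapEquiv_apply, Polynomial.map_sum, Polynomial.map_monomial, a4,
        RingHom.coe_coe] using this)
      ((sum_deg (a := fun j => map (σ.comp (aeval y).toRingHom) (ρ j)) a5).trans_ne he))
    (half_pos hε)
  obtain ⟨Θ, hΘ⟩ := bk_surj (Θ₁ * Θ₂)
  refine ⟨Θ, c₁ + c₂, fun h => mul_ne_zero t1 t2 (by rw [← map_mul, ← hΘ, a3, h, map_zero]),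
    fun S => ?_⟩
  obtain ⟨C₁, k1⟩ := h₁ S
  obtain ⟨C₂, k2⟩ := h₂ S
  refine ⟨C₁ + C₂ + e * ∑ v : InfinitePlace k, v.mult * log 2, fun L _ _ _ x z t hx h0 ht => ?_⟩
  rw [← eval_bk, hΘ, map_mul, mul_ne_zero_iff] at h0
  have hx' := fun P h => hx P ((a0' P).1 h)
  obtain ⟨h2, h3⟩ := k1 x z hx' h0.1
  obtain ⟨h4, h5⟩ := k2 x z hx' h0.2
  have : Module.Finite k L := Module.Finite.of_restrictScalars_finite ℚ k L
  refine (ext_trm S t e (funext (gn_mo (a := fun j => eval (Sum.elim x z) (bk (ρ j))) h2) ▸ fs_gn _)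
    h4 (h3 _ (minpoly.monic (Algebra.IsIntegral.isIntegral t)) (minpoly.dvd k t ?_)) h5).trans_eq
    (by ring)
  simp only [mo, map_mul, map_sum, Polynomial.aeval_monomial, ← Algebra.smul_def, eval_bk, ht,
    mul_zero]

end Pool.Agent.Lib.MP_8865d3_nt.Tr
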