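import Mathlib

/-! The largest term of a family of polynomials. -/

namespace Pool.Agent.Lib.MP_8865d3_nt.Tr

/-- The logarithm of the largest absolute value of a term `c * z ^ a` of one of the `r j`. -/
noncomputable def trm {k ι : Type} [Field k] {n : ℕ} (r : ι → MvPolynomial (Fin n) k)
    (z : Fin n → k) (w : AbsoluteValue k ℝ) : ℝ :=
  Real.log (⨆ j, ⨆ a, w ((r j).coeff a * ∏ i, z i ^ a i))

end Pool.Agent.Lib.MP_8865d3_nt.Tr
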