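import Pool.Agent.Lib.MP_8865d3_nt.Tr.Hst

/-! The local heights of the poles of an equation in terms of its terms. -/

namespace Pool.Agent.Lib.MP_8865d3_nt.Tr

open MvPolynomial Finset Height NumberField Filter Real Pool.Agent.Lib.MP_651af7_nt
open Tb Fc
open IntermediateField (adjoin)
open Rt (Pl av mu)

variable {k K ι κ ν β : Type} [Field k] [NumberField k] [Field K] [Algebra k K] [Fintype ι]
  [Fintype κ] [Fintype ν] {𝓕 : Filter β} {v : β → K → k} {y : ι → K} {u : κ → K} {φ ψ : κ → ν → K}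

omit [NumberField k] in
theorem tm_sum (h : Sp 𝓕 v) {F : IntermediateField k K} {G : MvPolynomial κ F}
    {U : Finset (κ →₀ ℕ)} (hU : G.support ⊆ U) :
    ∀ᶠ p in 𝓕, v p (aeval u G) = ∑ a : U, tm v u G p a := by
  have h1 : aeval u G = ∑ a : U, (coeff a G : F) * ∏ i, u i ^ a.1 i := by
    rw [aeval_def, eval₂_eq', sum_subset hU fun a _ ha => by
      rw [notMem_support_iff.1 ha, map_zero, zero_mul], ← sum_coe_sort U]
    rfl
  filter_upwards [h.sum univ fun a : U => (coeff a G : F) * ∏ i, u i ^ a.1 i,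
    eventually_all.2 fun a : U => (h.mul (coeff a G : F) (∏ i, u i ^ a.1 i)).and
      ((h.prod univ fun i => u i ^ a.1 i).and (eventually_all.2 fun i => h.pow (u i) (a.1 i)))]
    with p p1 p2
  rw [h1, p1]
  exact sum_congr rfl fun a _ => by
    rw [(p2 a).1, (p2 a).2.1, tm, prod_congr rfl fun i _ => (p2 a).2.2 i]

omit [NumberField k] in
theorem log_sum_le {τ : Type} [Fintype τ] {x : τ → k} (h : ∑ a, x a ≠ 0) (w : AbsoluteValue k ℝ) :
    log (w (∑ a, x a)) ≤ ls x w + log (Fintype.card τ) := by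
  obtain ⟨a, -, -⟩ := exists_ne_zero_of_sum_ne_zero h
  have h1 : (0 : ℝ) < Fintype.card τ := Nat.cast_pos.2 (Fintype.card_pos_iff.2 ⟨a⟩)
  rw [log_le_iff_le_exp (w.pos h), exp_add, exp_log h1, mul_comm, ← nsmul_eq_mul]
  exact (w.sum_le _ _).trans (sum_le_card_nsmul _ _ _ fun a _ => le_exp_ls x w a)

theorem log_sum_fin {τ : Type} [Fintype τ] {x : τ → k} (h : ∑ a, x a ≠ 0) (w : FinitePlace k) :
    log (w.1 (∑ a, x a)) ≤ ls x w.1 := by
  obtain ⟨a, -, -⟩ := exists_ne_zero_of_sum_ne_zero h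
  have hw : IsNonarchimedean w.1 := FinitePlace.add_le w
  obtain ⟨b, -, hb⟩ := hw.finset_image_add_of_nonempty x ⟨a, mem_univ a⟩
  exact (log_le_iff_le_exp (w.1.pos h)).2 (hb.trans (le_exp_ls x w.1 b))

theorem one_trm [Nonempty ν] (E : Env 𝓕 v y) (hu : AlgebraicIndependent (adjoin k (Set.range y)) u)
    (hφ : Blk (adjoin k (Set.range y)) φ) (hψ : Blk (adjoin k (Set.range y)) ψ)
    {G : MvPolynomial κ (adjoin k (Set.range y))} (hG : G ≠ 0) {U : Finset (κ →₀ ℕ)}
    (hU : G.support ⊆ U) (h0 : 0 ∈ U) : Sml 𝓕 (HH v y u) (NN v u φ ψ) fun p S =>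
      iS S fun w => |log (w (v p (aeval u G))) - ls (fun a : U => tm v u G p a) w| := by
  classical
  have a0 : aeval u G ≠ 0 := fun h => hG (hu.eq_zero_of_aeval_eq_zero _ h)
  refine ((lin E hu hφ hψ hG one_ne_zero isRelPrime_one_right hU
    (by rwa [support_one, singleton_subset_iff])).add (sml_const (hh_nonneg v y u)
      fun S => iS S fun _ => 2 * log (Fintype.card U))).mono ?_
  filter_upwards [tm_sum (u := u) E.sp hU, E.sp.ne a0, E.sp.inv (aeval u G), E.sp.one] with p p1 p2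
    p3 p4
  refine ⟨rfl, fun S => ⟨rfl, ?_⟩⟩
  have t1 : tm v u (1 : MvPolynomial κ (adjoin k (Set.range y))) p 0 = 1 := by simp [tm, p4]
  have n0 : 0 ≤ log (Fintype.card U : ℝ) := log_natCast_nonneg _
  have h1 := pf_split S p2
  have h2 : oS S (fun w => log (w (v p (aeval u G)))) ≤ oS S (fun w =>
      max (ls (fun a : U => tm v u G p a) w) (ls (fun a : U =>
        tm v u (1 : MvPolynomial κ (adjoin k (Set.range y))) p a) w)) -
      oS S fun w => log⁺ (w (v p (aeval u G))⁻¹) := by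
    have f1 : FS fun w => max (ls (fun a : U => tm v u G p a) w)
      (ls (fun a : U => tm v u (1 : MvPolynomial κ (adjoin k (Set.range y))) p a) w) :=
      (fs_ls _).comp₂ (fs_ls _) max (max_self 0)
    rw [← oS_sub f1 (fs_pos _)]
    refine oS_mono (fs_log _) (f1.sub (fs_pos _)) fun w _ => ?_
    rw [map_inv₀, ← posLog_sub_posLog_inv]
    refine sub_le_sub_right (max_le (le_max_of_le_right ?_) (le_max_of_le_left ?_)) _
    · have h3 := le_ls (fun a : U => tm v u (1 : MvPolynomial κ (adjoin k (Set.range y))) p a) w.1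
        (i := ⟨0, h0⟩) (t1 ▸ one_ne_zero)
      rwa [t1, map_one, log_one] at h3
    · rw [p1] at p2 ⊢
      exact log_sum_fin p2 w
  have h3 : iS S (fun w => |log (w (v p (aeval u G))) - ls (fun a : U => tm v u G p a) w|) ≤
      iS S fun w => (ls (fun a : U => tm v u G p a) w - log (w (v p (aeval u G)))) +
        2 * log (Fintype.card U) := iS_mono fun s => by
    rw [p1] at p2 ⊢
    have h4 := log_sum_le p2 (av s)
    exact abs_le.2 ⟨by linarith, by linarith⟩
  rw [iS_add, iS_sub] at h3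
  rw [map_one, one_div, p3]
  linarith

omit [NumberField k] in
theorem gn_div {q : Polynomial k} {e : ℕ} (hq : q.Monic) (he : q.natDegree = e)
    {a : Fin (e + 1) → k} {c : k} (hc : c ≠ 0) (h : ∀ j, a j = c * q.coeff j)
    (w : AbsoluteValue k ℝ) : gn q w = ls a w - log (w c) := by
  have h1 : a (Fin.last e) ≠ 0 := by
    rw [h, Fin.val_last, ← he, hq.coeff_natDegree, mul_one]
    exact hc
  have g1 := pen_one hq w
  rw [gn, eq_sub_iff_add_eq, ← log_mul (by linarith) (w.pos hc).ne']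
  refine le_antisymm ?_ (ls_le (fun e => h1 (congrFun e _)) fun j => ?_)
  · obtain ⟨b, hb⟩ := q.exists_eq_gaussNorm w 1
    rw [one_pow, mul_one] at hb
    have h2 : q.coeff b ≠ 0 := fun e => by
      rw [hb, e, map_zero] at g1
      linarith
    have h3 := le_ls a w (i := ⟨b, Nat.lt_succ_of_le (he ▸ Polynomial.le_natDegree_of_ne_zero h2)⟩)
      (by rw [h]; exact mul_ne_zero hc h2)
    rwa [h, map_mul, mul_comm, ← hb] at h3
  · rw [exp_log (mul_pos (by linarith) (w.pos hc)), h, map_mul, mul_comm]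
    refine mul_le_mul_of_nonneg_right ?_ (w.nonneg c)
    simpa using q.le_gaussNorm w zero_le_one j

theorem trm_gn [Nonempty ν] (E : Env 𝓕 v y) (hu : AlgebraicIndependent (adjoin k (Set.range y)) u)
    (hφ : Blk (adjoin k (Set.range y)) φ) (hψ : Blk (adjoin k (Set.range y)) ψ)
    {g : Polynomial (MvPolynomial κ (adjoin k (Set.range y)))} (hg : g.IsPrimitive)
    {U : Finset (κ →₀ ℕ)} (hU : ∀ j, (g.coeff j).support ⊆ U) (h0 : 0 ∈ U) {P : Polynomial K}
    (hP : g.map (aeval u : MvPolynomial κ (adjoin k (Set.range y)) →ₐ[_] K).toRingHom =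
      Polynomial.C (aeval u g.leadingCoeff) * P) (hd : P.natDegree = g.natDegree)
    {q : β → Polynomial k} (hq : Rp 𝓕 v P q) :
    Sml 𝓕 (HH v y u) (NN v u φ ψ) fun p S => iS S (fun w => |gn (q p) w -
      (ls (fun i : Fin (g.natDegree + 1) × U => tm v u (g.coeff i.1) p i.2) w -
        ls (fun a : U => tm v u g.leadingCoeff p a) w)|) +
      |oS S (gn (q p)) - (iS S (ls fun a : U => tm v u g.leadingCoeff p a) +
        oS S (ls fun i : Fin (g.natDegree + 1) × U => tm v u (g.coeff i.1) p i.2))| := by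
  classical
  have hH := hh_nonneg v y u
  have l0 := Polynomial.leadingCoeff_ne_zero.2 hg.ne_zero
  have a0 : ∀ {G : MvPolynomial κ (adjoin k (Set.range y))}, G ≠ 0 → aeval u G ≠ 0 :=
    fun hG h => hG (hu.eq_zero_of_aeval_eq_zero _ h)
  have u0 : ∀ i, u i ≠ 0 := fun i => hu.ne_zero i
  let T := univ.filter fun j : Fin (g.natDegree + 1) => g.coeff j ≠ 0
  refine (((one_trm E hu hφ hψ l0 (hU _) h0).add (sml_sum hH T fun j hj =>
    one_trm E hu hφ hψ (mem_filter.1 hj).2 (hU j) h0)).add ((hst E hu hφ hψ hg hU hP hq).add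
      (sml_const hH fun S => iS S fun _ => 2 * log (Fintype.card U)))).mono ?_
  filter_upwards [hq, E.sp.ne (a0 l0), E.sp.zero, tm_ne E.sp u0 l0 (hU _),
    eventually_all.2 fun j : Fin (g.natDegree + 1) => (tm_sum (u := u) E.sp (hU j)).and
      (E.sp.mul (aeval u g.leadingCoeff) (P.coeff j)), tm_sum (u := u) E.sp (hU g.natDegree),
    (eventually_all_finset T).2 fun j hj => (E.sp.ne (a0 (mem_filter.1 hj).2)).and
      (tm_ne E.sp u0 (mem_filter.1 hj).2 (hU j))] with p p1 p2 p3 z0 p5 p6 p7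
  refine ⟨rfl, fun S => ⟨rfl, ?_⟩⟩
  set x := fun i : Fin (g.natDegree + 1) × U => tm v u (g.coeff i.1) p i.2 with hx
  set z := fun a : U => tm v u g.leadingCoeff p a with hz
  let r : Fin (g.natDegree + 1) → k := fun j => v p (aeval u (g.coeff j))
  have r0 : r ≠ 0 := fun h => p2 (congrFun h (Fin.last _))
  have x0 : x ≠ 0 := fun h => z0 (funext fun a => congrFun h (Fin.last _, a))
  have g1 : ∀ w, gn (q p) w = ls r w - log (w (v p (aeval u g.leadingCoeff))) :=
    gn_div p1.1 (p1.2.1.trans hd) p2 fun j => by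
      have h1 := congrArg (fun Q => Polynomial.coeff Q j) hP
      simp only [Polynomial.coeff_map, Polynomial.coeff_C_mul] at h1
      rw [p1.2.2 j ((Nat.lt_succ_iff.1 j.2).trans hd.ge), ← (p5 j).2, ← h1]
      rfl
  have xj : ∀ (j : Fin (g.natDegree + 1)) w, j ∈ T →
      ls (fun a : U => tm v u (g.coeff j) p a) w ≤ ls x w :=
    fun j w hj => ls_le (p7 j hj).2 fun a => le_exp_ls x w (j, a)
  have rT : ∀ j, r j ≠ 0 → j ∈ T := fun j h => mem_filter.2 ⟨mem_univ _, fun e => h (by
    simp only [r, e, map_zero, p3])⟩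
  have q1 : ∀ w, |ls r w - ls x w| ≤
      ∑ j ∈ T, |log (w (r j)) - ls (fun a : U => tm v u (g.coeff j) p a) w| := fun w => by
    have h1 := fun j hj => abs_le.1 (single_le_sum (s := T) (f := fun j =>
      |log (w (r j)) - ls (fun a : U => tm v u (g.coeff j) p a) w|) (fun _ _ => abs_nonneg _)
      (a := j) hj)
    obtain ⟨j, h2, h3⟩ := exists_ls r0 w
    obtain ⟨⟨i, a⟩, h4, h5⟩ := exists_ls x0 w
    have h6 : i ∈ T := mem_filter.2 ⟨mem_univ _, fun e => h4 (by simp [hx, tm, e, p3])⟩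
    have h7 := le_ls (fun a : U => tm v u (g.coeff i) p a) w (i := a) h4
    have h8 := le_ls r w (i := i) (p7 i h6).1
    exact abs_le.2 ⟨by linarith [(h1 i h6).1], by linarith [(h1 j (rT j h2)).2, xj j w (rT j h2)]⟩
  have q2 : iS S (fun w => |gn (q p) w - (ls x w - ls z w)|) ≤ iS S fun w =>
      |log (w (v p (aeval u g.leadingCoeff))) - ls z w| +
      ∑ j ∈ T, |log (w (r j)) - ls (fun a : U => tm v u (g.coeff j) p a) w| := iS_mono fun s => by
    have h1 := abs_le.1 (q1 (av s))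
    have h2 := le_abs_self (log (av s (v p (aeval u g.leadingCoeff))) - ls z (av s))
    have h3 := neg_le_abs (log (av s (v p (aeval u g.leadingCoeff))) - ls z (av s))
    rw [g1]
    exact abs_le.2 ⟨by linarith, by linarith⟩
  rw [iS_add, iS_sum] at q2
  have q3 : oS S (gn (q p)) ≤ iS S (ls z) + oS S (ls x) + iS S fun _ => log (Fintype.card U) := by
    have h1 := pf_split S p2
    have h2 : oS S (ls r) ≤ oS S (ls x) := oS_mono (fs_ls _) (fs_ls _) fun w _ => by
      obtain ⟨j, h2, h3⟩ := exists_ls r0 w.1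
      have h4 : r j = ∑ a : U, tm v u (g.coeff j) p a := (p5 j).1
      rw [h3, h4]
      exact (log_sum_fin (h4 ▸ h2) w).trans (xj j _ (rT j h2))
    have h3 : iS S (fun w => log (w (v p (aeval u g.leadingCoeff)))) ≤
        iS S fun w => ls z w + log (Fintype.card U) := iS_mono fun s => by
      have h4 : v p (aeval u g.leadingCoeff) = ∑ a, z a := p6
      rw [h4] at p2 ⊢
      exact log_sum_le p2 _
    rw [iS_add] at h3
    rw [funext g1, oS_sub (fs_ls _) (fs_log _)]
    linarith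
  have q4 : |oS S (gn (q p)) - (iS S (ls z) + oS S (ls x))| ≤ iS S (ls z) + oS S (ls x) -
      oS S (gn (q p)) + iS S fun _ => 2 * log (Fintype.card U) := by
    have h1 : 0 ≤ iS S fun _ => log (Fintype.card U : ℝ) := iS_nonneg fun _ => log_natCast_nonneg _
    rw [iS_mul]
    exact abs_le.2 ⟨by linarith, by linarith⟩
  linarith

end Pool.Agent.Lib.MP_8865d3_nt.Tr
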