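import Pool.Agent.Lib.MP_8865d3_nt.Tr.Main
import Pool.Agent.Lib.MP_8865d3_nt.Tr.Trm
import Pool.Agent.Lib.MP_8865d3_nt.Tr.RTrm

/-! The local heights of the roots against the terms of the equation. -/

namespace Pool.Agent.Lib.MP_8865d3_nt.Tr

open MvPolynomial Finset Height NumberField Filter Real Pool.Agent.Lib.MP_651af7_nt
open Tb Fc Ds
open IntermediateField (adjoin)

variable {k : Type} [Field k] {g n N e : ℕ}

theorem trm_eq {ι τ : Type} [Finite τ] [Nonempty τ] {r : ι → MvPolynomial (Fin n) k}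
    {z : Fin n → k} {x : τ → k}
    (h1 : ∀ j a, (r j).coeff a = 0 ∨ ∃ i, x i = (r j).coeff a * ∏ i, z i ^ a i)
    (h2 : ∀ i, ∃ j a, x i = (r j).coeff a * ∏ i, z i ^ a i) (w : AbsoluteValue k ℝ) :
    ls x w = trm r z w := by
  obtain ⟨j₀, -⟩ := h2 (Classical.arbitrary τ)
  have : Nonempty ι := ⟨j₀⟩
  have h3 := fun i => Finite.le_ciSup (fun i => w (x i)) i
  have h4 : ∀ j a, w ((r j).coeff a * ∏ i, z i ^ a i) ≤ ⨆ i, w (x i) := fun j a => by
    rcases h1 j a with h | ⟨i, h⟩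
    · rw [h, zero_mul, map_zero]
      exact (w.nonneg _).trans (h3 (Classical.arbitrary τ))
    · exact h ▸ h3 i
  have h5 := fun j => ciSup_le (h4 j)
  refine congrArg log (le_antisymm (ciSup_le fun i => ?_) (ciSup_le h5))
  obtain ⟨j, a, h⟩ := h2 i
  rw [h]
  exact (le_ciSup ⟨_, Set.forall_mem_range.2 (h4 j)⟩ a).trans
    (le_ciSup ⟨_, Set.forall_mem_range.2 h5⟩ j)

/-- A polynomial in two blocks of variables. -/
noncomputable def bk : MvPolynomial (Fin n) (MvPolynomial (Fin g) k) →+*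
    MvPolynomial (Fin g ⊕ Fin n) k := eval₂Hom (rename Sum.inl).toRingHom fun i => X (.inr i)

theorem aeval_bk {R : Type} [CommRing R] [Algebra k R] (a : Fin g → R) (b : Fin n → R)
    (P : MvPolynomial (Fin n) (MvPolynomial (Fin g) k)) :
    aeval (Sum.elim a b) (bk P) = eval b (map (aeval a).toRingHom P) := by
  induction P using MvPolynomial.induction_on with
  | C c =>
    rw [map_C, eval_C, bk, eval₂Hom_C]
    exact (aeval_rename _ _ _).trans (by rw [Sum.elim_comp_inl]; rfl)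
  | add P Q hP hQ => simp only [map_add, hP, hQ]
  | mul_X P s hP =>
    simp only [map_mul, hP]
    simp [bk]

theorem eval_bk (a : Fin g → k) (b : Fin n → k)
    (P : MvPolynomial (Fin n) (MvPolynomial (Fin g) k)) :
    eval (Sum.elim a b) (bk P) = eval b (map (eval a) P) := aeval_bk a b P

theorem bk_surj (Q : MvPolynomial (Fin g ⊕ Fin n) k) : ∃ P, bk P = Q := by
  induction Q using MvPolynomial.induction_on with
  | C c => exact ⟨C (C c), by simp [bk]⟩
  | add P Q hP hQ => exact hP.elim fun a ha => hQ.elim fun b hb => ⟨a + b, by rw [map_add, ha, hb]⟩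
  | mul_X P s hP =>
    obtain ⟨a, rfl⟩ := hP
    rcases s with s | s
    · exact ⟨a * C (X s), by simp [bk]⟩
    · exact ⟨a * X s, by simp [bk]⟩

theorem sum_coeff {R : Type} [CommRing R] (a : Fin (e + 1) → R) (j : Fin (e + 1)) :
    (∑ j : Fin (e + 1), Polynomial.monomial j (a j)).coeff j = a j := by
  rw [Polynomial.finsetSum_coeff, sum_eq_single j (fun i _ hi => by
    rw [Polynomial.coeff_monomial, if_neg fun h => hi (Fin.ext h)]) (by simp),
    Polynomial.coeff_monomial, if_pos rfl]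

theorem sum_deg {R : Type} [CommRing R] {a : Fin (e + 1) → R} (h : a (Fin.last e) ≠ 0) :
    (∑ j : Fin (e + 1), Polynomial.monomial j (a j)).natDegree = e :=
  Polynomial.natDegree_eq_of_le_of_coeff_ne_zero (Polynomial.natDegree_sum_le_of_forall_le _ _
    fun j _ => (Polynomial.natDegree_monomial_le _).trans (Nat.lt_succ_iff.1 j.2))
    ((sum_coeff a (Fin.last e)).trans_ne h)

variable [NumberField k]

theorem mainT {J : Ideal (MvPolynomial (Fin g) k)}
    (hA : Abelian (J.map (MvPolynomial.map (algebraMap k (AlgebraicClosure k)))))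
    {K : Type} [Field K] [Algebra k K] {y : Fin g → K} {u : Fin n → K} (D : Nc.Pt J y)
    (hu : AlgebraicIndependent (adjoin k (Set.range y)) u)
    (hK : adjoin (adjoin k (Set.range y)) (Set.range u) = ⊤)
    {φ ψ : Fin n → Fin (N + 1) → MvPolynomial (Fin g) k}
    (hφ : ∀ i, ∃ a, aeval y (φ i a) ≠ 0) (hψ : ∀ i, ∃ a, aeval y (ψ i a) ≠ 0)
    {ρ : Fin (e + 1) → MvPolynomial (Fin n) (MvPolynomial (Fin g) k)}
    {θ : MvPolynomial (Fin g) k →+* adjoin k (Set.range y)} (hθ : ∀ P, (θ P : K) = aeval y P)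
    (hρ : map θ (ρ (Fin.last e)) ≠ 0)
    (hf : (∑ j : Fin (e + 1), Polynomial.monomial j (map θ (ρ j))).IsPrimitive)
    {ε : ℝ} (hε : 0 < ε) :
    ∃ (Θ : MvPolynomial (Fin g ⊕ Fin n) k) (c : ℝ), aeval (Sum.elim y u) Θ ≠ 0 ∧
      ∀ S : Finset (FinitePlace k), ∃ C : ℝ, ∀ (x : Fin g → k) (z : Fin n → k),
        (∀ P, aeval y P = 0 → eval x P = 0) → eval (Sum.elim x z) Θ ≠ 0 →
        FS (trm (fun j => map (eval x) (ρ j)) z) ∧
        iS S (fun w => |pole (fun j => eval (Sum.elim x z) (bk (ρ j))) w -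
          (trm (fun j => map (eval x) (ρ j)) z w - trm ![map (eval x) (ρ (Fin.last e))] z w)|) +
          |oS S (pole fun j => eval (Sum.elim x z) (bk (ρ j))) -
            (iS S (trm ![map (eval x) (ρ (Fin.last e))] z) +
              oS S (trm (fun j => map (eval x) (ρ j)) z))| ≤
          ε * (logHeight x + ∑ i, logHeight₁ (z i)) + c * ∑ i, oS S
            (dfc (z i) (fun a => eval x (φ i a)) fun a => eval x (ψ i a)) + C := by
  classical
  obtain ⟨v, h, hv⟩ := sp_top (k := k) hK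
  have w1 : ∀ P, ∀ᶠ p in gen k (Sum.elim y u), v p (aeval (Sum.elim y u) P) = eval p P := fun P => by
    filter_upwards [hv, h.aeval (Sum.elim y u) P] with p p1 p2
    rw [p2, show (fun s => v p (Sum.elim y u s)) = p from funext (Sum.forall.2 p1)]
  have w2 : ∀ P, ∀ᶠ p in gen k (Sum.elim y u), v p (aeval y P) = eval (fun a => p (.inl a)) P :=
    fun P => by
      filter_upwards [hv, h.aeval y P] with p p1 p2
      rw [p2, funext p1.1]
  have b1 : ∀ {φ : Fin n → Fin (N + 1) → MvPolynomial (Fin g) k}, (∀ i, ∃ a, aeval y (φ i a) ≠ 0) →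
      Blk (adjoin k (Set.range y)) fun i a => aeval y (φ i a) := fun hφ =>
    ⟨fun i a => IntermediateField.algebra_adjoin_le_adjoin k _
      ((Algebra.adjoin_range_eq_range_aeval k y).ge ⟨_, rfl⟩), fun i => Function.ne_iff.2 (hφ i)⟩
  have b2 : ∀ P, aeval u (map θ P) = aeval (Sum.elim y u) (bk P) := fun P => by
    rw [aeval_bk, aeval_def, eval₂_map, eval_map]
    exact congrArg (fun f => eval₂ f u P) (RingHom.ext hθ)
  have l0 : aeval (Sum.elim y u) (bk (ρ (Fin.last e))) ≠ 0 := fun h =>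
    hρ (hu.eq_zero_of_aeval_eq_zero _ ((b2 _).trans h))
  obtain ⟨m1, m2⟩ := mo_monic (a := fun j => aeval (Sum.elim y u) (bk (ρ j))) l0
  have w3 : ∀ᶠ p in gen k (Sum.elim y u), eval p (bk (ρ (Fin.last e))) ≠ 0 :=
    ⟨_, l0, fun _ _ h => h⟩
  have d1 := sum_deg (a := fun j => map θ (ρ j)) hρ
  have d2 := sum_coeff fun j => map θ (ρ j)
  generalize hG : (∑ j : Fin (e + 1), Polynomial.monomial j (map θ (ρ j))) = G at hf d1 d2
  have d3 : G.leadingCoeff = map θ (ρ (Fin.last e)) := by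
    rw [Polynomial.leadingCoeff, d1]
    exact d2 (Fin.last e)
  let U := insert 0 (univ.biUnion fun j => (ρ j).support)
  have hU : ∀ j, (ρ j).support ⊆ U := fun j =>
    (subset_biUnion_of_mem (fun j => (ρ j).support) (mem_univ j)).trans (subset_insert _ _)
  obtain ⟨c, W, hW, k1⟩ := trm_gn (env (Nf.dn Nf.cf D hA) h) hu (b1 hφ) (b1 hψ) hf (U := U)
    (fun j => by
      rcases lt_or_ge j (e + 1) with h | h
      · rw [d2 ⟨j, h⟩]
        exact (support_map_subset _ _).trans (hU _)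
      · rw [Polynomial.coeff_eq_zero_of_natDegree_lt (by omega)]
        exact empty_subset _) (mem_insert_self _ _)
    (P := mo fun j => aeval (Sum.elim y u) (bk (ρ j))) (by
      rw [d3, b2, mo, ← mul_assoc, ← Polynomial.C_mul, mul_inv_cancel₀ l0, Polynomial.C_1, one_mul,
        ← hG, Polynomial.map_sum]
      exact sum_congr rfl fun j _ => by rw [Polynomial.map_monomial, ← b2]; rfl)
    (m2.trans d1.symm) (q := fun p => mo fun j => eval p (bk (ρ j))) (by
      filter_upwards [w3, eventually_all.2 fun j => (w1 (bk (ρ j))).and (h.mul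
        (aeval (Sum.elim y u) (bk (ρ (Fin.last e))))⁻¹ (aeval (Sum.elim y u) (bk (ρ j)))),
        h.inv (aeval (Sum.elim y u) (bk (ρ (Fin.last e))))] with p p1 p2 p3
      refine ⟨(mo_monic p1).1, (mo_monic p1).2.trans m2.symm, fun j hj => ?_⟩
      replace hj := Nat.lt_succ_of_le (hj.trans_eq m2)
      refine Eq.trans ?_ (congrArg (v p) (mo_coeff _ j)).symm
      rw [mo_coeff, dif_pos hj, dif_pos hj, (p2 _).2, p3, (p2 _).1, (p2 _).1]) ε hε
  choose i₁ hi₁ using hφ
  choose i₂ hi₂ using hψ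
  obtain ⟨Θ, a1, a2⟩ := inter_mem hW (hv.and (w3.and ((eventually_all.2 fun i => eventually_all.2
    fun a => (w2 (φ i a)).and (w2 (ψ i a))).and ((eventually_all.2 fun i =>
      (h.ne (hu.ne_zero i)).and ((h.ne (hi₁ i)).and (h.ne (hi₂ i)))).and
      (eventually_all.2 fun j => eventually_all.2 fun a : U => w2 ((ρ j).coeff a))))))
  refine ⟨Θ, c, a1, fun S => (k1 S).imp fun C k2 x z hx hΘ => ?_⟩
  obtain ⟨p1, ⟨p2, p3⟩, p4, p5, p6, p7⟩ := a2 _ (rel hu hx z) hΘ
  have k3 := k2 _ p1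
  have e1 : ∀ i w, |lam (z i) (fun a => eval x (φ i a)) (fun a => eval x (ψ i a)) w| = _ :=
    fun i => dfc_eq ((p3 i).symm.trans_ne (p6 i).1) ((p5 i _).1.symm.trans_ne (p6 i).2.1)
      ((p5 i _).2.symm.trans_ne (p6 i).2.2)
  have e2 := funext (gn_mo (a := fun j => eval (Sum.elim x z) (bk (ρ j))) p4)
  have e3 : ∀ j (a : U), tm v u (map θ (ρ j)) (Sum.elim x z) a =
      (map (eval x) (ρ j)).coeff a * ∏ i, z i ^ a.1 i := fun j a => by
    simp only [tm, coeff_map, hθ, p7, p3, Sum.elim_inl, Sum.elim_inr]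
  have e4 : ∀ j a, a ∉ U → (map (eval x) (ρ j)).coeff a = 0 := fun j a ha => by
    rw [coeff_map, notMem_support_iff.1 fun h => ha (hU j h), map_zero]
  have : Nonempty U := ⟨⟨0, mem_insert_self _ _⟩⟩
  have e5 := funext (trm_eq (r := fun j => map (eval x) (ρ j)) (z := z)
    (x := fun i : Fin (G.natDegree + 1) × U => tm v u (G.coeff i.1) (Sum.elim x z) i.2)
    (fun j a => (em (a ∈ U)).elim (fun ha => .inr ⟨(j.cast (by rw [d1]), ⟨a, ha⟩),
      (congrArg (fun G => tm v u G _ a) (d2 j)).trans (e3 j ⟨a, ha⟩)⟩) fun ha => .inl (e4 j a ha))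
    fun i => ⟨i.1.cast (by rw [d1]), i.2,
      (congrArg (fun G => tm v u G _ _) (d2 (i.1.cast (by rw [d1])))).trans (e3 _ _)⟩)
  have e6 := funext (trm_eq (r := ![map (eval x) (ρ (Fin.last e))]) (z := z)
    (x := fun a : U => tm v u G.leadingCoeff (Sum.elim x z) a)
    (fun j a => by
      rw [Subsingleton.elim j 0, d3]
      exact (em (a ∈ U)).elim (fun ha => .inr ⟨⟨a, ha⟩, e3 _ _⟩) fun ha => .inl (e4 _ a ha))
    fun a => ⟨0, a, d3 ▸ e3 _ a⟩)
  refine ⟨e5 ▸ fs_ls _, ?_⟩
  simpa only [e2, e5, e6, HH, NN, p2, p3, fun i a => (p5 i a).1, fun i a => (p5 i a).2,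
    Sum.elim_inl, Sum.elim_inr, e1] using k3

theorem ext_trm {L : Type} [Field L] [NumberField L] [Algebra k L] (S : Finset (FinitePlace k))
    (t : L) (e : ℕ) {f a b : AbsoluteValue k ℝ → ℝ} (hf : FS f) (ha : FS a) {R R' : ℝ}
    (h : iS S (fun w => |e * gn (minpoly k t) w - (minpoly k t).natDegree * f w|) +
      |e * oS S (gn (minpoly k t)) - (minpoly k t).natDegree * oS S f| ≤ R)
    (h' : iS S (fun w => |f w - (a w - b w)|) + |oS S f - (iS S b + oS S a)| ≤ R') :
    ∑ v : InfinitePlace k, |e * lamI v t - v.mult * (a v.1 - b v.1)| +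
      ∑ v ∈ S, |e * lamF v t - (a v.1 - b v.1)| +
      |∑ᶠ v ∈ (S : Set (FinitePlace k))ᶜ, (e * lamF v t - a v.1) -
        (∑ v : InfinitePlace k, v.mult * b v.1 + ∑ v ∈ S, b v.1)| ≤
      R + R' + e * ∑ v : InfinitePlace k, v.mult * log 2 := by
  have h1 := ext_root S t e hf h
  have h2 : ∑ᶠ v ∈ (S : Set (FinitePlace k))ᶜ, (e * lamF v t - a v.1) =
      ∑ᶠ v ∈ (S : Set (FinitePlace k))ᶜ, (e * lamF v t - f v.1) + (oS S f - oS S a) := by
    rw [← oS_sub hf ha, oS, ← finsum_mem_add_distrib' (((fs_gn (minpoly k t)).union hf).subset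
      fun v hv => not_not.1 fun h => ?_) ((hf.sub ha).subset fun _ h => h.2)]
    · exact finsum_mem_congr rfl fun v _ => by ring
    · simp only [Set.mem_union, Set.mem_ofPred_eq, not_or, not_not] at h
      have : Module.Finite k L := Module.Finite.of_restrictScalars_finite ℚ k L
      have h3 : (minpoly k t).natDegree * lamF v t = gn (minpoly k t) v.1 := root_fin v t
      rw [h.1, mul_eq_zero, Nat.cast_eq_zero] at h3
      exact hv.2 (by
        simp [h.2, h3.resolve_left (minpoly.natDegree_pos (Algebra.IsIntegral.isIntegral t)).ne'])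
  have h3 := sum_le_sum fun v (_ : v ∈ S) => abs_sub_le (e * lamF v t) (f v.1) (a v.1 - b v.1)
  have h4 := sum_le_sum fun (v : InfinitePlace k) (_ : v ∈ univ) =>
    show |e * lamI v t - v.mult * (a v.1 - b v.1)| ≤
        |e * lamI v t - v.mult * f v.1| + v.mult * |f v.1 - (a v.1 - b v.1)| by
      refine (abs_sub_le _ (v.mult * f v.1) _).trans (le_of_eq ?_)
      rw [← mul_sub, abs_mul, Nat.abs_cast]
  rw [sum_add_distrib] at h3 h4
  have h5 := abs_add_le (∑ᶠ v ∈ (S : Set (FinitePlace k))ᶜ, (e * lamF v t - f v.1))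
    (oS S f - (iS S b + oS S a))
  rw [iS_eq] at h'
  rw [h2, ← iS_eq, show ∀ A B C D : ℝ, A + (B - C) - D = A + (B - (D + C)) from fun _ _ _ _ => by
    ring]
  linarith

end Pool.Agent.Lib.MP_8865d3_nt.Tr
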