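import Pool.Agent.Lib.MP_8865d3_nt.Tr.Defs

/-! The choice of the box. -/

namespace Pool.Agent.Lib.MP_8865d3_nt.Tr

open MvPolynomial Finset Height NumberField Filter Real Pool.Agent.Lib.MP_651af7_nt
open Tb Fc
open IntermediateField (adjoin)
open Rt (Pl av mu)

theorem num_card {σ : Type} [Fintype σ] [DecidableEq σ] (M : σ → ℕ) :
    (Fintype.card (Bo M) : ℝ) = ∏ s, ((M s : ℝ) + 1) := by
  simp [Fintype.card_pi]

theorem num_sm {σ : Type} [Fintype σ] [DecidableEq σ] (M : σ → ℕ) (s : σ) :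
    sm M s = M s * Fintype.card (Bo M) / 2 := by
  have h := (Equiv.piCongrRight fun t => Fin.revPerm (n := M t + 1)).sum_comp
    fun α : Bo M => ((α s : ℕ) : ℝ)
  have h2 : ∀ α : Bo M, (((Equiv.piCongrRight fun t => Fin.revPerm (n := M t + 1)) α s : ℕ) : ℝ) =
      M s - (α s : ℕ) := fun α => by
    rw [← Nat.cast_sub (α s).is_le]
    exact congrArg _ ((Fin.val_rev _).trans (Nat.add_sub_add_right _ _ _))
  simp only [h2, sum_sub_distrib, sum_const, card_univ, nsmul_eq_mul] at h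
  rw [sm]
  linarith

theorem num_ratio {κ : Type} [Fintype κ] (d : κ → ℕ) {η : ℝ} (hη : 0 < η) :
    ∃ (L : ℕ) (t : ℝ), 0 ≤ t ∧ t ≤ η ∧
      ∏ i, ((L : ℝ) + d i + 1) = (1 + t) * ∏ _i : κ, ((L : ℝ) + 1) := by
  have h : Tendsto (fun L : ℕ => ∏ i, (1 + d i * (1 / ((L : ℝ) + 1)))) atTop
      (nhds (∏ i, (1 + (d i : ℝ) * 0))) :=
    tendsto_finsetProd _ fun i _ =>
      (tendsto_one_div_add_atTop_nhds_zero_nat.const_mul _).const_add _
  simp only [mul_zero, add_zero, prod_const_one] at h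
  obtain ⟨L, hL⟩ := (h.eventually (gt_mem_nhds (lt_add_of_pos_right 1 hη))).exists
  refine ⟨L, ∏ i, (1 + d i * (1 / ((L : ℝ) + 1))) - 1, sub_nonneg.2 ?_, by linarith, ?_⟩
  · exact prod_induction _ (1 ≤ ·) (fun _ _ => one_le_mul_of_one_le_of_one_le) le_rfl
      fun i _ => le_add_of_nonneg_right (by positivity)
  · rw [add_sub_cancel, ← prod_mul_distrib]
    refine prod_congr rfl fun i _ => ?_
    field_simp
    ring

theorem num {κ : Type} [Fintype κ] [DecidableEq κ] (d : Option κ → ℕ) {ε : ℝ} (hε : 0 < ε) :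
    ∃ M N : Option κ → ℕ, (∀ s, N s = M s + d s) ∧
      sm N none - sm M none ≤ (d none + ε) * Fintype.card (Bo M) ∧
      (Fintype.card (Bo N) - Fintype.card (Bo M)) * N none - (sm N none - sm M none) ≤
        ε * Fintype.card (Bo M) := by
  obtain ⟨A, hA⟩ := exists_nat_ge ((d none : ℝ) ^ 2 / ε)
  rw [div_le_iff₀ hε] at hA
  have p0 : (0 : ℝ) < ((A : ℝ) + d none + 1) ^ 2 := by positivity
  obtain ⟨L, t, t0, t1, h⟩ := num_ratio (fun i => d (some i)) (div_pos hε p0)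
  rw [le_div_iff₀ p0] at t1
  refine ⟨fun s => s.elim A fun _ => L, fun s => (s.elim A fun _ => L) + d s, fun _ => rfl, ?_⟩
  rw [num_sm, num_sm, num_card, num_card]
  simp only [Fintype.prod_option, Option.elim, Nat.cast_add, h]
  have D0 : (0 : ℝ) ≤ ∏ _i : κ, ((L : ℝ) + 1) := prod_nonneg fun _ _ => by positivity
  generalize ∏ _i : κ, ((L : ℝ) + 1) = D at D0
  have A0 : (0 : ℝ) ≤ A := A.cast_nonneg
  have e0 : (0 : ℝ) ≤ d none := (d none).cast_nonneg
  generalize (A : ℝ) = a at *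
  generalize (d none : ℝ) = e at *
  have k1 : t * ((a + e) * (a + e + 1)) ≤ ε :=
    (mul_le_mul_of_nonneg_left (by nlinarith) t0).trans t1
  have k2 : (t * ((a + e) * (a + e + 1)) + (e ^ 2 - e)) / 2 ≤ ε * (a + 1) := by
    nlinarith [mul_nonneg hε.le A0]
  have k3 := mul_le_mul_of_nonneg_right k2 D0
  constructor <;> linarith

end Pool.Agent.Lib.MP_8865d3_nt.Tr
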