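import Pool.Agent.Lib.MP_8865d3_nt.Tr.Sml
import Pool.Agent.Lib.MP_651af7_nt.Nc.Pen

/-! The coefficients of a polynomial against its values at integers. -/

namespace Pool.Agent.Lib.MP_8865d3_nt.Tr

open MvPolynomial Finset Height NumberField Filter Real Pool.Agent.Lib.MP_651af7_nt
open Tb Fc
open IntermediateField (adjoin)
open Rt (Pl av mu)

theorem pen_one {k : Type} [Field k] {q : Polynomial k} (hq : q.Monic) (w : AbsoluteValue k ℝ) :
    1 ≤ q.gaussNorm w 1 := by
  simpa [hq.coeff_natDegree] using q.le_gaussNorm w zero_le_one q.natDegree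

theorem pen_loc {k : Type} [Field k] {e s : ℕ} {Δ : ℤ}
    {M : (Fin (e + 1) ↪ Fin s) → Matrix (Fin (e + 1)) (Fin (e + 1)) ℤ} (d0 : (Δ : k) ≠ 0)
    (hM : ∀ f, M f * Matrix.vandermonde (fun i => ((f i : ℕ) : ℤ)) =
      Δ • (1 : Matrix (Fin (e + 1)) (Fin (e + 1)) ℤ))
    {q : Polynomial k} (hq : q.Monic) (he : q.natDegree = e) {w : AbsoluteValue k ℝ}
    (hw : IsNonarchimedean w) : ((s : ℝ) - e) * log (q.gaussNorm w 1) ≤
      ∑ c ∈ range s, log⁺ (w (q.eval (c : k))) + -s * log (w Δ) := by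
  have g1 := pen_one hq w
  have v0 := w.pos d0
  have v1 : log (w Δ) ≤ 0 := log_nonpos v0.le hw.apply_intCast_le_one
  have id1 : ∀ (f : Fin (e + 1) ↪ Fin s) (b : Fin (e + 1)),
      (Δ : k) * q.coeff b = ∑ i, (M f b i : k) * q.eval ((f i : ℕ) : k) := fun f b => by
    have h1 : ∀ j : Fin (e + 1), ∑ i, (M f b i : k) * ((f i : ℕ) : k) ^ (j : ℕ) =
        if b = j then (Δ : k) else 0 := fun j => by
      have := congrArg (fun x : ℤ => (x : k)) (congrFun (congrFun (hM f) b) j)
      simpa [Matrix.mul_apply, Matrix.one_apply, apply_ite] using this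
    simp only [Polynomial.eval_eq_sum_range, he, Finset.sum_range, mul_sum, mul_comm (q.coeff _),
      ← mul_assoc]
    rw [sum_comm]
    simp only [← sum_mul, h1, ite_mul, zero_mul, sum_ite_eq, mem_univ, if_true]
  obtain ⟨T, hT⟩ : ∃ T, T = univ.filter fun a : Fin s =>
    w (q.eval ((a : ℕ) : k)) < w Δ * q.gaussNorm w 1 := ⟨_, rfl⟩
  have u3 : T.card ≤ e := by
    by_contra h
    obtain ⟨f, hf⟩ := Function.Embedding.exists_of_card_le_finset (α := Fin (e + 1))
      ((Fintype.card_fin _).trans_le (not_le.1 h))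
    obtain ⟨b, hb⟩ := q.exists_eq_gaussNorm w 1
    rw [one_pow, mul_one] at hb
    have hbe : b < e + 1 := Nat.lt_succ_of_le (he ▸ Polynomial.le_natDegree_of_ne_zero fun h0 => by
      rw [hb, h0, map_zero] at g1
      exact absurd g1 (by norm_num))
    obtain ⟨i, -, hi⟩ := hw.finset_image_add_of_nonempty
      (fun i => (M f ⟨b, hbe⟩ i : k) * q.eval ((f i : ℕ) : k)) univ_nonempty
    rw [← id1, map_mul, map_mul] at hi
    have k2 := hf ⟨i, rfl⟩
    rw [hT, coe_filter, hb] at k2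
    exact (hi.trans (mul_le_of_le_one_left (w.nonneg _) hw.apply_intCast_le_one)).not_gt k2.2
  have g0 := log_nonneg g1
  have u4 : ∀ a : Fin s, log (q.gaussNorm w 1) - (if a ∈ T then log (q.gaussNorm w 1) else 0) +
      log (w Δ) ≤ log⁺ (w (q.eval ((a : ℕ) : k))) := fun a => by
    split_ifs with h
    · linarith [posLog_nonneg (x := w (q.eval ((a : ℕ) : k)))]
    · have := log_le_log (by positivity) (not_lt.1 fun h' => h (hT ▸ mem_filter.2 ⟨mem_univ _, h'⟩))
      rw [log_mul v0.ne' (by positivity)] at this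
      linarith [le_max_right 0 (log (w (q.eval ((a : ℕ) : k)))),
        posLog_apply (x := w (q.eval ((a : ℕ) : k)))]
  have u5 := sum_le_sum fun a (_ : a ∈ univ) => u4 a
  rw [Fin.sum_univ_eq_sum_range (fun c => log⁺ (w (q.eval (c : k))))] at u5
  simp only [sum_add_distrib, sum_sub_distrib, sum_const, card_univ, Fintype.card_fin,
    nsmul_eq_mul, sum_ite_mem, univ_inter] at u5
  linarith [mul_le_mul_of_nonneg_right (Nat.cast_le (α := ℝ).2 u3) g0]

theorem pen {k : Type} [Field k] [NumberField k] (e s : ℕ) (S : Finset (FinitePlace k)) :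
    ∃ C : ℝ, ∀ q : Polynomial k, q.Monic → q.natDegree = e →
      ((s : ℝ) - e) * oS S (gn q) ≤ ∑ c ∈ range s, oS S (fun w => log⁺ (w (q.eval (c : k)))) + C := by
  obtain ⟨Δ, M, hΔ, hM⟩ := Nc.pen_inv (n := e + 1) (c := fun a : Fin s => ((a : ℕ) : ℤ))
    fun a b h => Fin.ext (Nat.cast_injective h)
  refine ⟨oS S fun w => -s * log (w (Δ : k)), fun q hq he => ?_⟩
  have f1 := FS.sum (range s) fun c : ℕ => fs_pos (q.eval (c : k))
  have f2 := (fs_log (Δ : k)).mul (-s)
  rw [← oS_mul _ (fs_gn q), ← oS_sum _ fun c : ℕ => fs_pos (q.eval (c : k)), ← oS_add f1 f2]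
  exact oS_mono ((fs_gn q).mul _) (f1.add f2) fun w _ =>
    pen_loc (Int.cast_ne_zero.2 hΔ) hM hq he w.add_le

theorem val_le {k : Type} [Field k] [NumberField k] {q : Polynomial k} (hq : q.Monic) (c : ℕ)
    (w : FinitePlace k) : log⁺ (w.1 (q.eval (c : k))) ≤ gn q w.1 := by
  have hw : IsNonarchimedean w.1 := w.add_le
  have g1 := pen_one hq w.1
  obtain ⟨i, -, hi⟩ := hw.finset_image_add_of_nonempty (fun i => q.coeff i * (c : k) ^ i)
    (nonempty_range_add_one (n := q.natDegree))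
  rw [← Polynomial.eval_eq_sum_range, map_mul, map_pow] at hi
  have h1 := q.le_gaussNorm w.1 zero_le_one i
  rw [one_pow, mul_one] at h1
  rw [gn, ← posLog_eq_log (g1.trans (le_abs_self _))]
  exact posLog_le_posLog (w.1.nonneg _) (hi.trans ((mul_le_of_le_one_right (w.1.nonneg _)
    (pow_le_one₀ (w.1.nonneg _) hw.apply_natCast_le_one)).trans h1))

end Pool.Agent.Lib.MP_8865d3_nt.Tr
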