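import Pool.Agent.Lib.MP_8865d3_nt.Tr.Ker
import Pool.Agent.Lib.MP_8865d3_nt.Tr.Num
import Pool.Agent.Lib.MP_8865d3_nt.Tr.Js

/-! The poles of the norm of an algebraic function on a torus bundle. -/

namespace Pool.Agent.Lib.MP_8865d3_nt.Tr

open MvPolynomial Finset Height NumberField Filter Real Pool.Agent.Lib.MP_651af7_nt
open Tb Fc
open IntermediateField (adjoin)
open Rt (Pl av mu)

section point

variable {k κ : Type} [Field k] [Fintype κ] {U : Finset (Option κ →₀ ℕ)}
  {c : (Option κ →₀ ℕ) → k} {z : κ → k} {j : ℕ} {B : k} {w : AbsoluteValue k ℝ}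

theorem tor_log (hz : ∀ i, z i ≠ 0) {m : Option κ →₀ ℕ} (hc : c m ≠ 0) :
    log (w (c m * ∏ i, z i ^ m (some i))) = log (w (c m)) + ∑ i, m (some i) * log (w (z i)) := by
  rw [map_mul, log_mul (w.pos hc).ne' (w.pos (prod_ne_zero_iff.2 fun i _ =>
    pow_ne_zero _ (hz i))).ne', map_prod, log_prod fun i _ => (w.pos (pow_ne_zero _ (hz i))).ne']
  simp only [map_pow, log_pow]

theorem tor_any (hz : ∀ i, z i ≠ 0) (hB : B ≠ 0)
    (h : ∑ m ∈ U with m none = j, c m * ∏ i, z i ^ m (some i) = B) (w : AbsoluteValue k ℝ) :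
    ∃ m ∈ U, m none = j ∧ log (w B) ≤ log U.card + ∑ m ∈ U, |log (w (c m))| +
      ∑ i, m (some i) * log (w (z i)) := by
  obtain ⟨m, m1, m2⟩ := exists_max_image _ (fun m => w (c m * ∏ i, z i ^ m (some i)))
    (nonempty_of_sum_ne_zero (h ▸ hB))
  have h1 := (w.sum_le _ _).trans ((sum_le_card_nsmul _ _ _ m2).trans
    (nsmul_le_nsmul_left (w.nonneg _) (card_filter_le _ _)))
  rw [h, nsmul_eq_mul] at h1
  obtain ⟨m3, m4⟩ := mem_filter.1 m1
  have h2 : c m ≠ 0 := fun e => by
    rw [e, zero_mul, map_zero, mul_zero] at h1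
    exact (w.pos hB).not_ge h1
  have h3 := log_le_log (w.pos hB) h1
  rw [log_mul (Nat.cast_ne_zero.2 (card_ne_zero_of_mem m3)) (w.pos (mul_ne_zero h2
    (prod_ne_zero_iff.2 fun i _ => pow_ne_zero _ (hz i)))).ne', tor_log hz h2] at h3
  have h4 := (le_abs_self _).trans (single_le_sum (f := fun m => |log (w (c m))|)
    (fun _ _ => abs_nonneg _) m3)
  exact ⟨m, m3, m4, by linarith⟩

theorem tor_na (hw : IsNonarchimedean w) (hz : ∀ i, z i ≠ 0) (hB : B ≠ 0)
    (h : ∑ m ∈ U with m none = j, c m * ∏ i, z i ^ m (some i) = B) :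
    ∃ m ∈ U, c m ≠ 0 ∧ log (w B) ≤ log (w (c m)) + ∑ i, m (some i) * log (w (z i)) := by
  obtain ⟨m, m1, h1⟩ := hw.finset_image_add_of_nonempty (fun m => c m * ∏ i, z i ^ m (some i))
    (nonempty_of_sum_ne_zero (h ▸ hB))
  rw [h] at h1
  have h2 : c m ≠ 0 := fun e => by
    rw [e, zero_mul, map_zero] at h1
    exact (w.pos hB).not_ge h1
  exact ⟨m, (mem_filter.1 m1).1, h2, tor_log (w := w) hz h2 ▸ log_le_log (w.pos hB) h1⟩

theorem tor_pos {A q : k} (hA : A ≠ 0) (hq : q ≠ 0) :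
    log⁺ (w q⁻¹) = 0 ∨ log (w (A * q)) + log⁺ (w q⁻¹) = log (w A) := by
  rw [posLog_apply, map_inv₀, log_inv, map_mul, log_mul (w.pos hA).ne' (w.pos hq).ne']
  exact (le_total (-log (w q)) 0).imp max_eq_left fun h => by rw [max_eq_right h]; ring

end point

variable {k K ι κ ν β : Type} [Field k] [NumberField k] [Field K] [Algebra k K] [Fintype ι]
  [Fintype κ] [Fintype ν] {𝓕 : Filter β} {v : β → K → k} {y : ι → K} {u : κ → K} {φ ψ : κ → ν → K}

theorem tor [Nonempty ν] (E : Env 𝓕 v y) (hu : AlgebraicIndependent (adjoin k (Set.range y)) u)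
    (hφ : Blk (adjoin k (Set.range y)) φ) (hψ : Blk (adjoin k (Set.range y)) ψ) {τ : K}
    (h0 : τ ≠ 0) (hτ : IsIntegral (adjoin (adjoin k (Set.range y)) (Set.range u)) τ) :
    Sml 𝓕 (HH v y u) (NN v u φ ψ) fun p S => jS S fun w =>
      log⁺ (w (v p ((minpoly (adjoin (adjoin k (Set.range y)) (Set.range u))
        τ).coeff 0 : adjoin (adjoin k (Set.range y)) (Set.range u)))⁻¹) -
      (minpoly (adjoin (adjoin k (Set.range y)) (Set.range u)) τ).natDegree *
        log⁺ (w (v p τ)⁻¹) := by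
  classical
  intro ε hε
  obtain ⟨f, A, hf, hA, f0, hk, hd, hj⟩ := ker hu hτ
  have q0 := minpoly.coeff_zero_ne_zero hτ h0
  have q1 := hj (minpoly (adjoin (adjoin k (Set.range y)) (Set.range u)) τ).natDegree
  rw [(minpoly.monic hτ).coeff_natDegree, OneMemClass.coe_one, mul_one] at q1
  have q2 := hj 0
  generalize (minpoly (adjoin (adjoin k (Set.range y)) (Set.range u)) τ).natDegree = n at *
  replace q0 : (((minpoly (adjoin (adjoin k (Set.range y)) (Set.range u)) τ).coeff 0 :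
    adjoin (adjoin k (Set.range y)) (Set.range u)) : K) ≠ 0 := fun e => q0 (Subtype.ext e)
  generalize (((minpoly (adjoin (adjoin k (Set.range y)) (Set.range u)) τ).coeff 0 :
    adjoin (adjoin k (Set.range y)) (Set.range u)) : K) = q at *
  clear hj
  obtain ⟨C₀, c0, c1⟩ := E.bd κ u τ hτ
  obtain ⟨δ, d0, d1⟩ : ∃ δ : ℝ, 0 < δ ∧ δ * (2 * C₀ + 1 + f.support.card) = ε :=
    ⟨ε / (2 * C₀ + 1 + f.support.card), by positivity, div_mul_cancel₀ _ (by positivity)⟩
  obtain ⟨M, N, hN, n1, n2⟩ := num (fun o => f.degreeOf o) d0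
  have u0 : ∀ i, u i ≠ 0 := hu.ne_zero
  have b1 : ∀ {φ : κ → ν → K}, Blk (adjoin k (Set.range y)) φ →
      Blk (adjoin k (Set.range y)) fun o : Option κ => o.elim (fun _ => 1) φ := fun h =>
    ⟨fun o a => o.rec (one_mem _) fun i => h.1 i a, fun o => o.rec
      (fun e => one_ne_zero (congrFun e (Classical.arbitrary ν))) h.2⟩
  have hy : ∀ p, logHeight (fun a => v p (y a)) ≤ HH v y u p := fun p =>
    le_add_of_nonneg_right (sum_nonneg fun _ _ => zero_le_logHeight₁ _)
  obtain ⟨W, hW, k1⟩ := E.hyp _ ν (fun o : Option κ => o.elim τ u) _ _ f M N (HH v y u)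
    (fun o => o.rec h0 u0) (b1 hφ) (b1 hψ) hf f0 hk hN hy (fun z hz => E.bd κ u z (by
      refine (Algebra.adjoin_le (S := (integralClosure (adjoin (adjoin k (Set.range y))
        (Set.range u)) K).restrictScalars (adjoin k (Set.range y))) ?_ :) hz
      rintro _ ⟨_ | i, rfl⟩
      exacts [hτ, isIntegral_algebraMap (x := (⟨u i, IntermediateField.subset_adjoin _ _ ⟨i, rfl⟩⟩ :
        adjoin (adjoin k (Set.range y)) (Set.range u)))])) δ d0
  choose V hV k2 using fun m => E.fal _ (coeff m f).2 δ d0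
  have s1 : ∀ j, ∀ᶠ p in 𝓕, ∑ m ∈ f.support with m none = j,
      v p (coeff m f : adjoin k (Set.range y)) * ∏ i, v p (u i) ^ m (some i) =
      v p (∑ m ∈ f.support with m none = j, coeff m f • ∏ i, u i ^ m (some i)) := fun j => by
    filter_upwards [E.sp.sum (f.support.filter fun m => m none = j)
      fun m => coeff m f • ∏ i, u i ^ m (some i), (eventually_all_finset f.support).2 fun m _ =>
      (E.sp.mul (coeff m f : adjoin k (Set.range y)) (∏ i, u i ^ m (some i))).and
        ((E.sp.prod univ fun i => u i ^ m (some i)).and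
          (eventually_all.2 fun i => E.sp.pow (u i) (m (some i))))] with p p1 p2
    refine (p1.trans (sum_congr rfl fun m hm => ?_)).symm
    obtain ⟨a1, a2, a3⟩ := p2 m (mem_filter.1 hm).1
    exact a1.trans (by rw [a2, prod_congr rfl fun i _ => a3 i])
  obtain ⟨κ', hκ⟩ : ∃ κ' : κ → ℝ, κ' = fun i => |(Fintype.card (Bo N) - Fintype.card (Bo M) : ℝ) *
    N (some i)| + |sm N (some i) - sm M (some i)| := ⟨_, rfl⟩
  have κ0 : ∀ i, 0 ≤ κ' i := fun i => hκ ▸ add_nonneg (abs_nonneg _) (abs_nonneg _)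
  refine ⟨∑ i, (κ' i + f.degreeOf (some i)), _, inter_mem (inter_mem hW
    ((biInter_finset_mem f.support).2 fun m _ => hV m)) (((s1 0).and ((s1 n).and c1)).and
    ((E.sp.mul A q).and ((E.sp.ne hA).and ((E.sp.ne q0).and ((E.sp.ne h0).and
      (eventually_all.2 fun i => E.sp.ne (u0 i))))))), fun S => ?_⟩
  obtain ⟨C, k1⟩ := k1 S
  choose C' k2 using fun m => k2 m S
  refine ⟨2 * δ * C₀ + iS S (fun _ => log f.support.card) + ∑ m ∈ f.support, C' m + |C|,
    fun p ⟨⟨p1, p2⟩, ⟨p3, p4, p5⟩, p6, p7, p8, p9, p10⟩ => ?_⟩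
  rw [q2, p6] at p3
  rw [q1] at p4
  have fl := fun i => (fs_lam (v p (u i)) (fun a => v p (φ i a)) fun a => v p (ψ i a)).abs
  have f1 := FS.sum univ fun i => (fl i).mul (f.degreeOf (some i))
  have f2 := (fs_log (v p A * v p q)).add (fs_pos (v p q)⁻¹)
  have r1 := k1 p p1 (fun w => log (w (v p A * v p q)) + max (log⁺ (w (v p q)⁻¹) -
    n * log⁺ (w (v p τ)⁻¹)) 0 - (log f.support.card + ∑ m ∈ f.support,
      |log (w (v p (coeff m f : adjoin k (Set.range y))))|)) _ (f2.sub f1) (fun s => by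
      obtain ⟨m, m1, m2, m3⟩ := tor_any p10 (mul_ne_zero p7 p8) p3 (av s)
      obtain ⟨m', m4, m5, m6⟩ := tor_any p10 p7 p4 (av s)
      have t1 := posLog_sub_posLog_inv (x := av s (v p τ))
      have t2 := mul_nonneg n.cast_nonneg (posLog_nonneg (x := av s (v p τ)))
      have t3 := mul_nonneg n.cast_nonneg (posLog_nonneg (x := av s (v p τ)⁻¹))
      rw [← map_inv₀] at t1
      rcases le_total (log⁺ (av s (v p q)⁻¹) - n * log⁺ (av s (v p τ)⁻¹)) 0 with t | t
      · refine ⟨m, m1, ?_⟩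
        simp only [Fintype.sum_option, m2, max_eq_right t, Option.elim, Nat.cast_zero]
        linarith
      rcases tor_pos (w := av s) p7 p8 with t4 | t4
      · refine ⟨m, m1, ?_⟩
        simp only [Fintype.sum_option, m2, max_eq_left t, Option.elim, Nat.cast_zero]
        linarith
      · refine ⟨m', m4, ?_⟩
        simp only [Fintype.sum_option, m5, max_eq_left t, Option.elim, ← t1]
        linarith) fun w => by
      have t : ∀ m ∈ f.support, ∑ i, m (some i) * log (w.1 (v p (u i))) + ∑ i, m (some i) *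
          (ls (fun a => v p (φ i a)) w.1 - ls (fun a => v p (ψ i a)) w.1) ≤ ∑ i,
          f.degreeOf (some i) * |lam (v p (u i)) (fun a => v p (φ i a)) (fun a => v p (ψ i a)) w.1| :=
        fun m hm => by
          rw [← sum_add_distrib]
          exact sum_le_sum fun i _ => (mul_add _ _ _).symm.trans_le ((mul_le_mul_of_nonneg_left
            (le_abs_self _) (Nat.cast_nonneg _)).trans (mul_le_mul_of_nonneg_right
              (Nat.cast_le.2 (monomial_le_degreeOf _ hm)) (abs_nonneg _)))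
      rcases tor_pos (w := w.1) p7 p8 with t4 | t4
      · obtain ⟨m, m1, m2, m3⟩ := tor_na w.add_le p10 (mul_ne_zero p7 p8) p3
        refine ⟨m, m2, ?_⟩
        simp only [Fintype.sum_option, Option.elim, sub_self]
        linarith [t m m1]
      · obtain ⟨m, m1, m2, m3⟩ := tor_na w.add_le p10 p7 p4
        refine ⟨m, m2, ?_⟩
        simp only [Fintype.sum_option, Option.elim, sub_self]
        linarith [t m m1]
  have e1 : lam (v p τ) (fun _ : ν => v p 1) (fun _ => v p 1) =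
      fun w => log⁺ (w (v p τ)) - log⁺ (w (v p τ)⁻¹) := funext fun w => by
    rw [lam, sub_self, add_zero, map_inv₀, posLog_sub_posLog_inv]
  have e2 : (fun w : AbsoluteValue k ℝ => max (log⁺ (w (v p τ)) - log⁺ (w (v p τ)⁻¹)) 0) =
      fun w => log⁺ (w (v p τ)) := funext fun w => by
    rw [map_inv₀, posLog_sub_posLog_inv, max_comm, posLog_apply]
  simp only [Fintype.sum_option, Option.elim, e1, e2, iS_sub, iS_add, iS_sum, oS_sub f2 f1,
    oS_add (fs_log _) (fs_pos _), oS_sum _ fun i => (fl i).mul _, oS_mul _ (fl _),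
    oS_sub (fs_pos _) (fs_pos _)] at r1
  have g0 : ∀ i, 0 ≤ oS S fun w =>
      |lam (v p (u i)) (fun a => v p (φ i a)) (fun a => v p (ψ i a)) w| := fun i =>
    oS_nonneg fun _ => abs_nonneg _
  have r2 := sum_le_sum fun i (_ : i ∈ univ) => show ((Fintype.card (Bo N) -
      Fintype.card (Bo M) : ℝ) * N (some i) * oS S (fun w => max (lam (v p (u i))
        (fun a => v p (φ i a)) (fun a => v p (ψ i a)) w) 0) - (sm N (some i) - sm M (some i)) *
        oS S (lam (v p (u i)) (fun a => v p (φ i a)) fun a => v p (ψ i a))) ≤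
      κ' i * NN v u φ ψ p S by
    have l0 := fs_lam (v p (u i)) (fun a => v p (φ i a)) fun a => v p (ψ i a)
    have l1 := l0.comp₂ l0 (fun a _ => max a 0) (max_self 0)
    refine le_trans ?_ (mul_le_mul_of_nonneg_left (single_le_sum (fun i _ => g0 i) (mem_univ i))
      (κ0 i))
    rw [← oS_mul _ l0, ← oS_mul _ l1, ← oS_sub (l1.mul _) (l0.mul _), ← oS_mul _ (fl i), hκ]
    refine oS_mono ((l1.mul _).sub (l0.mul _)) ((fl i).mul _) fun w _ => ?_
    rw [add_mul, ← abs_mul (sm N _ - _)]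
    exact sub_le_iff_le_add.2 (le_trans (mul_le_mul (le_abs_self _)
      (max_le (le_abs_self _) (abs_nonneg _)) (le_max_right _ _) (abs_nonneg _))
      (by linarith [neg_abs_le ((sm N (some i) - sm M (some i)) *
        lam (v p (u i)) (fun a => v p (φ i a)) (fun a => v p (ψ i a)) w.1)]))
  have r3 := sum_le_sum fun i (_ : i ∈ univ) => mul_le_mul_of_nonneg_left
    (single_le_sum (fun i _ => g0 i) (mem_univ i)) (Nat.cast_nonneg (α := ℝ) (f.degreeOf (some i)))
  have r4 := sum_le_sum fun m (hm : m ∈ f.support) => (k2 m p (Set.mem_iInter₂.1 p2 m hm)).trans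
    (add_le_add_left (mul_le_mul_of_nonneg_left (hy p) d0.le) _)
  have r5 := pf_split S (mul_ne_zero p7 p8)
  have r6 := mul_le_mul_of_nonneg_right n1 (oS_nonneg (S := S) fun w =>
    posLog_nonneg (x := w (v p τ)⁻¹))
  have r7 := mul_le_mul_of_nonneg_right n2 (oS_nonneg (S := S) fun w =>
    posLog_nonneg (x := w (v p τ)))
  have r8 := mul_le_mul_of_nonneg_left ((oS_pos_le S (v p τ)).trans p5) d0.le
  have r9 := mul_le_mul_of_nonneg_left ((oS_pos_le S (v p τ)⁻¹).trans
    ((logHeight₁_inv _).trans_le p5)) d0.le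
  have r10 : 0 ≤ (∑ i, κ' i) * NN v u φ ψ p S + δ * HH v y u p + |C| := add_nonneg (add_nonneg
    (mul_nonneg (sum_nonneg fun i _ => κ0 i) (nn_nonneg _ _ _ _ _ _))
    (mul_nonneg d0.le (hh_nonneg _ _ _ _))) (abs_nonneg _)
  have r11 : (1 : ℝ) ≤ Fintype.card (Bo M) := Nat.one_le_cast.2 Fintype.card_pos
  have r12 := le_mul_of_one_le_left r10 r11
  simp only [← sum_mul, sum_add_distrib, sum_const, nsmul_eq_mul, hd] at r2 r3 r4 r6
  change _ ≤ _ * NN v u φ ψ p S at r3
  simp only [jS, oS_sub (fs_pos _) ((fs_pos _).mul _), oS_mul _ (fs_pos _), sum_add_distrib]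
  have r13 := le_of_mul_le_mul_left (a := (Fintype.card (Bo M) : ℝ)) (c := δ * oS S (fun w =>
    log⁺ (w (v p τ))) + (n + δ) * oS S (fun w => log⁺ (w (v p τ)⁻¹)) +
      ((∑ i, κ' i) * NN v u φ ψ p S + δ * HH v y u p + |C|))
    (r1.trans (by linarith [le_abs_self C])) (by linarith)
  rw [← d1]
  linarith

end Pool.Agent.Lib.MP_8865d3_nt.Tr
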