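import Pool.Agent.Lib.MP_8865d3_nt.Tr.Defs

/-! Transport of the generic point. -/

namespace Pool.Agent.Lib.MP_8865d3_nt.Tr

open MvPolynomial Finset Height NumberField Filter Real Pool.Agent.Lib.MP_651af7_nt
open Tb Fc
open IntermediateField (adjoin)
open Rt (Pl av mu)

variable {k K K' ι κ ν : Type} [Field k] [Field K] [Algebra k K] [Field K'] [Algebra k K']
  {y : ι → K} {u : κ → K}

theorem trf_map (j : K →ₐ[k] K') (y : ι → K) :
    (adjoin k (Set.range y)).map j = adjoin k (Set.range fun a => j (y a)) := by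
  rw [IntermediateField.adjoin_map, ← Set.range_comp]
  rfl

theorem trf_mem (j : K →ₐ[k] K') {z : K} (hz : z ∈ adjoin k (Set.range y)) :
    j z ∈ adjoin k (Set.range fun a => j (y a)) := by
  rw [← trf_map]
  exact ⟨z, hz, rfl⟩

theorem trf (j : K →ₐ[k] K') (hu : AlgebraicIndependent (adjoin k (Set.range y)) u)
    (hK : adjoin (adjoin k (Set.range y)) (Set.range u) = ⊤) :
    AlgebraicIndependent (adjoin k (Set.range fun a => j (y a))) (fun i => j (u i)) ∧
      ∃ i : K ≃+* adjoin (adjoin k (Set.range fun a => j (y a))) (Set.range fun i => j (u i)),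
        ∀ z, (i z : K') = j z := by
  let f : adjoin k (Set.range y) →+* adjoin k (Set.range fun a => j (y a)) :=
    ((j : K →+* K').comp (adjoin k (Set.range y)).subtype).codRestrict _ fun z => trf_mem j z.2
  have hf : Function.Surjective f := by
    rintro ⟨z, hz⟩
    rw [← trf_map] at hz
    obtain ⟨w, hw, e⟩ := hz
    exact ⟨⟨w, hw⟩, Subtype.ext e⟩
  refine ⟨hu.ringHom_of_comp_eq f (j : K →+* K') hf j.injective (RingHom.ext fun _ => rfl), ?_⟩
  have h1 : ∀ z, j z ∈ adjoin (adjoin k (Set.range fun a => j (y a)))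
      (Set.range fun i => j (u i)) := by
    intro z
    have hz : z ∈ adjoin (adjoin k (Set.range y)) (Set.range u) := by
      rw [hK]
      trivial
    induction hz using IntermediateField.adjoin_induction with
    | mem x hx =>
      obtain ⟨i, rfl⟩ := hx
      exact IntermediateField.subset_adjoin _ _ ⟨i, rfl⟩
    | algebraMap x => exact IntermediateField.algebraMap_mem _ (f x)
    | add a b _ _ ha hb => rw [map_add]; exact add_mem ha hb
    | inv a _ ha => rw [map_inv₀]; exact inv_mem ha
    | mul a b _ _ ha hb => rw [map_mul]; exact mul_mem ha hb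
  have h2 : ∀ w ∈ adjoin (adjoin k (Set.range fun a => j (y a))) (Set.range fun i => j (u i)),
      ∃ z, j z = w := by
    intro w hw
    induction hw using IntermediateField.adjoin_induction with
    | mem x hx =>
      obtain ⟨i, rfl⟩ := hx
      exact ⟨u i, rfl⟩
    | algebraMap x =>
      obtain ⟨z, rfl⟩ := hf x
      exact ⟨z, rfl⟩
    | add a b _ _ ha hb =>
      obtain ⟨a, rfl⟩ := ha
      obtain ⟨b, rfl⟩ := hb
      exact ⟨a + b, map_add j a b⟩
    | inv a _ ha =>
      obtain ⟨a, rfl⟩ := ha
      exact ⟨a⁻¹, map_inv₀ j a⟩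
    | mul a b _ _ ha hb =>
      obtain ⟨a, rfl⟩ := ha
      obtain ⟨b, rfl⟩ := hb
      exact ⟨a * b, map_mul j a b⟩
  refine ⟨RingEquiv.ofBijective ((j : K →+* K').codRestrict _ h1)
    ⟨fun a b e => j.injective (congrArg Subtype.val e), fun w => ?_⟩, fun _ => rfl⟩
  obtain ⟨z, hz⟩ := h2 w.1 w.2
  exact ⟨z, Subtype.ext hz⟩

theorem Blk.map (j : K →ₐ[k] K') {φ : κ → ν → K} (h : Blk (adjoin k (Set.range y)) φ) :
    Blk (adjoin k (Set.range fun a => j (y a))) fun i a => j (φ i a) :=
  ⟨fun i a => trf_mem j (h.1 i a), fun i e => h.2 i (funext fun a =>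
    j.injective ((congrFun e a).trans (map_zero j).symm))⟩

theorem rel (hu : AlgebraicIndependent (adjoin k (Set.range y)) u) {x : ι → k}
    (hx : ∀ P, aeval y P = 0 → eval x P = 0) (z : κ → k) (P : MvPolynomial (ι ⊕ κ) k)
    (hP : aeval (Sum.elim y u) P = 0) : eval (Sum.elim x z) P = 0 := by
  let y' : ι → adjoin k (Set.range y) := fun a =>
    ⟨y a, IntermediateField.subset_adjoin _ _ ⟨a, rfl⟩⟩
  let g : MvPolynomial ι k →ₐ[k] adjoin k (Set.range y) := aeval y'
  let T : MvPolynomial (ι ⊕ κ) k →ₐ[k] MvPolynomial κ (MvPolynomial ι k) :=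
    aeval (Sum.elim (fun a => C (X a)) X)
  have hg : ∀ q, (g q : K) = aeval y q := fun q => by
    have e : (adjoin k (Set.range y)).val.comp g = aeval y := algHom_ext fun a => by simp [g, y']
    exact DFunLike.congr_fun e q
  have e1 : ∀ Q, aeval u (map (g : MvPolynomial ι k →+* adjoin k (Set.range y)) (T Q)) =
      aeval (Sum.elim y u) Q := fun Q => by
    induction Q using MvPolynomial.induction_on with
    | C a => simp [T, g]
    | add p q hp hq => simp only [map_add, hp, hq]
    | mul_X p s hp =>
      rw [map_mul, map_mul, map_mul, map_mul, hp]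
      rcases s with a | i <;> simp [T, g, y']
  have e2 : ∀ Q, eval z (map (eval x) (T Q)) = eval (Sum.elim x z) Q := fun Q => by
    induction Q using MvPolynomial.induction_on with
    | C a => simp [T]
    | add p q hp hq => simp only [map_add, hp, hq]
    | mul_X p s hp =>
      rw [map_mul, map_mul, map_mul, map_mul, hp]
      rcases s with a | i <;> simp [T]
  have h1 := hu.eq_zero_of_aeval_eq_zero _ ((e1 P).trans hP)
  have h2 : map (eval x) (T P) = 0 := by
    ext m
    rw [coeff_map, coeff_zero]
    apply hx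
    have h3 := congrArg (coeff m) h1
    rw [coeff_map, coeff_zero] at h3
    rw [← hg]
    exact congrArg Subtype.val h3
  rw [← e2, h2, map_zero]

end Pool.Agent.Lib.MP_8865d3_nt.Tr
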