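import Pool.Agent.Lib.MP_8865d3_nt.Tr.Fac
import Pool.Agent.Lib.MP_8865d3_nt.Tr.Trf
import Pool.Agent.Lib.MP_651af7_nt.Av.LosA

/-! The share of every rational factor. -/

namespace Pool.Agent.Lib.MP_8865d3_nt.Tr

open MvPolynomial Finset Height NumberField Filter Real Pool.Agent.Lib.MP_651af7_nt
open Tb Fc
open IntermediateField (adjoin)
open Rt (Pl av mu)

variable {k K ι κ ν β : Type} [Field k] [NumberField k] [Field K] [Algebra k K] [Fintype ι]
  [Fintype κ] [Fintype ν] {𝓕 : Filter β} {v : β → K → k} {y : ι → K} {u : κ → K} {φ ψ : κ → ν → K}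

omit [NumberField k] in
theorem ult_spec (U : Ultrafilter β) : ∃ v' : β → Av.Up U k → k,
    Sp U v' ∧ ∀ f, ∀ᶠ p in (U : Filter β), v' p (Av.germ U f) = f p := by
  choose r hr using Av.germ_surj (k := k) U
  have e : ∀ f, ∀ᶠ p in (U : Filter β), r (Av.germ U f) p = f p := fun f => (Av.germ_eq U).1 (hr _)
  refine ⟨fun p z => r z p, ⟨fun a b => ?_, fun a b => ?_, fun c => e fun _ => c⟩, e⟩
  · simpa only [map_add, hr, Pi.add_apply] using e (r a + r b)
  · simpa only [map_mul, hr, Pi.mul_apply] using e (r a * r b)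

omit [NumberField k] in
theorem ult_lift (U : Ultrafilter β) {g : β → Polynomial k} {D : ℕ}
    (hg : ∀ᶠ p in (U : Filter β), (g p).Monic ∧ (g p).natDegree ≤ D) :
    ∃ G : Polynomial (Av.Up U k), G.Monic ∧
      (∀ᶠ p in (U : Filter β), (g p).natDegree = G.natDegree) ∧
      ∀ n, G.coeff n = Av.germ U fun p => (g p).coeff n := by
  obtain ⟨d, -, hd⟩ := (Ultrafilter.eventually_exists_mem_iff
    (P := fun d p => (g p).natDegree = d) (Set.finite_Iic D)).1 (hg.mono fun p hp => ⟨_, hp.2, rfl⟩)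
  obtain ⟨G, hG⟩ : ∃ G : Polynomial (Av.Up U k), ∀ n,
      G.coeff n = if n < d + 1 then Av.germ U fun p => (g p).coeff n else 0 :=
    ⟨∑ i ∈ range (d + 1), Polynomial.monomial i (Av.germ U fun p => (g p).coeff i), fun n => by
      simp [Polynomial.coeff_monomial]⟩
  have h1 : G.natDegree ≤ d :=
    Polynomial.natDegree_le_iff_coeff_eq_zero.2 fun n hn => by rw [hG, if_neg (by omega)]
  have h2 : G.coeff d = 1 := by
    rw [hG, if_pos (by omega), ← map_one (Av.germ U), Av.germ_eq]
    filter_upwards [hg, hd] with p a b using b ▸ a.1.coeff_natDegree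
  have h3 : G.natDegree = d :=
    Polynomial.natDegree_eq_of_le_of_coeff_ne_zero h1 (h2 ▸ one_ne_zero)
  refine ⟨G, Polynomial.monic_of_natDegree_le_of_coeff_eq_one d h1 h2, h3 ▸ hd, fun n => ?_⟩
  rw [hG]
  split_ifs with hn
  · rfl
  · refine (Av.germ_eq_zero.2 (hd.mono fun p hp => ?_)).symm
    exact Polynomial.coeff_eq_zero_of_natDegree_lt (by omega)

theorem ult [Nonempty ν] (h : Sp 𝓕 v)
    (hE : ∀ (K' : Type) [Field K'] [Algebra k K'] (j : K →ₐ[k] K') (β' : Type) (𝓕' : Filter β')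
      (v' : β' → K' → k), Sp 𝓕' v' → Env 𝓕' v' fun a => j (y a))
    (hu : AlgebraicIndependent (adjoin k (Set.range y)) u)
    (hK : adjoin (adjoin k (Set.range y)) (Set.range u) = ⊤)
    (hφ : Blk (adjoin k (Set.range y)) φ) (hψ : Blk (adjoin k (Set.range y)) ψ)
    {P : Polynomial K} (hP : Irreducible P) (hm : P.Monic) {q : β → Polynomial k}
    (hq : Rp 𝓕 v P q) :
    Sml (𝓕.comap Prod.fst ⊓ 𝓟 {p : β × Polynomial k × Polynomial k |
        p.2.1.Monic ∧ p.2.2.Monic ∧ p.2.1 * p.2.2 = q p.1})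
      (fun p => HH v y u p.1) (fun p => NN v u φ ψ p.1) fun p S => jS S fun w =>
        p.2.1.natDegree * gn (q p.1) w - P.natDegree * gn p.2.1 w := by
  refine sml_of_ultra (fun p S => nn_nonneg _ _ _ _ _ _) fun U hU => ?_
  have h1 : Tendsto Prod.fst (U : Filter (β × Polynomial k × Polynomial k)) 𝓕 :=
    tendsto_iff_comap.2 (hU.trans inf_le_left)
  have h2 : ∀ᶠ p in (U : Filter (β × Polynomial k × Polynomial k)),
      p.2.1.Monic ∧ p.2.2.Monic ∧ p.2.1 * p.2.2 = q p.1 :=
    le_principal_iff.1 (hU.trans inf_le_right)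
  have h3 := h1.eventually hq
  let j : K →ₐ[k] Av.Up U k :=
    { toFun := fun z => Av.germ U fun p => v p.1 z
      map_one' := by
        rw [← map_one (Av.germ U), Av.germ_eq]
        exact h1.eventually h.one
      map_zero' := Av.germ_eq_zero.2 (h1.eventually h.zero)
      map_mul' := fun a b => by
        rw [← map_mul, Av.germ_eq]
        exact h1.eventually (h.mul a b)
      map_add' := fun a b => by
        rw [← map_add, Av.germ_eq]
        exact h1.eventually (h.add a b)
      commutes' := fun c => (Av.germ_eq U).2 (h1.eventually (h.const c)) }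
  obtain ⟨v', s', e'⟩ := ult_spec (k := k) U
  have ej : ∀ z, ∀ᶠ p in (U : Filter (β × Polynomial k × Polynomial k)), v' p (j z) = v p.1 z :=
    fun z => e' _
  have hd : ∀ᶠ p in (U : Filter (β × Polynomial k × Polynomial k)),
      p.2.1.natDegree + p.2.2.natDegree = P.natDegree := by
    filter_upwards [h2, h3] with p a b
    rw [← a.1.natDegree_mul a.2.1, a.2.2, b.2.1]
  obtain ⟨G, g1, g2, g3⟩ := ult_lift U (g := fun p => p.2.1) (D := P.natDegree) (by
    filter_upwards [h2, hd] with p a b using ⟨a.1, by omega⟩)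
  obtain ⟨G', -, -, g4⟩ := ult_lift U (g := fun p => p.2.2) (D := P.natDegree) (by
    filter_upwards [h2, hd] with p a b using ⟨a.2.1, by omega⟩)
  have hGG : P.map (j : K →+* Av.Up U k) = G * G' := by
    ext n
    simp only [Polynomial.coeff_mul, g3, g4, ← map_mul, ← map_sum, Polynomial.coeff_map]
    refine (Av.germ_eq U).2 ?_
    filter_upwards [h2, h3, h1.eventually h.zero] with p a b c
    simp only [Finset.sum_apply, Pi.mul_apply]
    rw [← Polynomial.coeff_mul, a.2.2]
    rcases le_or_gt n P.natDegree with hn | hn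
    · exact (b.2.2 n hn).symm
    · rw [Polynomial.coeff_eq_zero_of_natDegree_lt hn, c,
        Polynomial.coeff_eq_zero_of_natDegree_lt (b.2.1 ▸ hn)]
  obtain ⟨hu', i, hi⟩ := trf j hu hK
  have hPi : (P.map i.toRingHom).map (algebraMap _ (Av.Up U k)) =
      P.map (j : K →+* Av.Up U k) := by
    rw [Polynomial.map_map]
    exact congrArg (P.map ·) (RingHom.ext hi)
  refine (fac (hE _ j _ U v' s') hu' (hφ.map j) (hψ.map j) (P := P.map i.toRingHom)
    ((MulEquiv.irreducible_iff (Polynomial.mapEquiv i)).2 hP) (hm.map _) g1 ⟨G', hPi.trans hGG⟩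
    (q := fun p => q p.1) (g := fun p => p.2.1) ?_ ?_).mono ?_
  · rw [hPi]
    filter_upwards [h3, (eventually_all_finite (Set.finite_Iic P.natDegree)).2
      fun n _ => ej (P.coeff n)] with p a b
    rw [hm.natDegree_map]
    refine ⟨a.1, a.2.1, fun n hn => ?_⟩
    rw [Polynomial.coeff_map, a.2.2 n hn]
    exact (b n hn).symm
  · filter_upwards [h2, g2, (eventually_all_finite (Set.finite_Iic G.natDegree)).2
      fun n _ => e' fun p => p.2.1.coeff n] with p a b c
    exact ⟨a.1, b, fun n hn => by rw [g3, c n hn]⟩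
  · filter_upwards [g2, eventually_all.2 fun a => ej (y a), eventually_all.2 fun a => ej (u a),
      eventually_all.2 fun a => eventually_all.2 fun b => ej (φ a b),
      eventually_all.2 fun a => eventually_all.2 fun b => ej (ψ a b)] with p a b c d e
    simp only [HH, NN, a, b, c, d, e, hm.natDegree_map, le_refl, and_self, implies_true]

theorem both [Nonempty ν] (h : Sp 𝓕 v)
    (hE : ∀ (K' : Type) [Field K'] [Algebra k K'] (j : K →ₐ[k] K') (β' : Type) (𝓕' : Filter β')
      (v' : β' → K' → k), Sp 𝓕' v' → Env 𝓕' v' fun a => j (y a))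
    (hu : AlgebraicIndependent (adjoin k (Set.range y)) u)
    (hK : adjoin (adjoin k (Set.range y)) (Set.range u) = ⊤)
    (hφ : Blk (adjoin k (Set.range y)) φ) (hψ : Blk (adjoin k (Set.range y)) ψ)
    {P : Polynomial K} (hP : Irreducible P) (hm : P.Monic) {q : β → Polynomial k}
    (hq : Rp 𝓕 v P q) {ε : ℝ} (hε : 0 < ε) :
    ∃ c : ℝ, ∃ W ∈ 𝓕, ∀ S, ∃ C : ℝ, ∀ p ∈ W, ∀ g : Polynomial k, g.Monic → g ∣ q p →
      iS S (fun w => |P.natDegree * gn g w - g.natDegree * gn (q p) w|) +
        |P.natDegree * oS S (gn g) - g.natDegree * oS S (gn (q p))| ≤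
        ε * HH v y u p + c * NN v u φ ψ p S + C := by
  obtain ⟨c, W', hW', h1⟩ := ult h hE hu hK hφ hψ hP hm hq (ε / 3) (by positivity)
  obtain ⟨W, hW, h2⟩ := mem_comap.1 (mem_inf_principal.1 hW')
  refine ⟨3 * c, _, inter_mem hW hq, fun S => ?_⟩
  obtain ⟨C, hC⟩ := h1 S
  choose D hD using fun s : Pl S => gn_mul_any s P.natDegree
  obtain ⟨E, hE'⟩ : ∃ E, ∑ s : Pl S, mu s * |P.natDegree * D s| = E := ⟨_, rfl⟩
  refine ⟨3 * C + E + |E|, fun p hp g hg ⟨g', e⟩ => ?_⟩
  have hg' : g'.Monic := hg.of_mul_monic_left (e ▸ hp.2.1)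
  have a1 := hC (p, g, g') (h2 (a := (p, g, g')) hp.1 ⟨hg, hg', e.symm⟩)
  have a2 := hC (p, g', g) (h2 (a := (p, g', g)) hp.1 ⟨hg', hg, (mul_comm _ _).trans e.symm⟩)
  have hd : (g * g').natDegree = P.natDegree := e ▸ hp.2.2.1
  have hn : (P.natDegree : ℝ) = g.natDegree + g'.natDegree := by
    rw [← hd, hg.natDegree_mul hg', Nat.cast_add]
  have f1 := fun (r : Polynomial k) (a : ℝ) => (fs_gn r).mul a
  have hf := (f1 g P.natDegree).sub (f1 (q p) g.natDegree)
  have a3 := jS_le hf ((f1 (q p) g'.natDegree).sub (f1 g' P.natDegree))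
    (fun s : Pl S => P.natDegree * D s) (fun s => by
      have := mul_le_mul_of_nonneg_left (abs_le.1 (hD s g g' hg hg' hd)).1 P.natDegree.cast_nonneg
      rw [e]
      rw [hn] at this ⊢
      linarith) fun w _ => by
      rw [e, gn_mul hg hg' w, hn]
      linarith
  have a4 := abs_le_jS hf (a3.trans (add_le_add a2 hE'.le)) (R' := _) (le_trans (le_of_eq (by
    congr 1; funext w; ring)) a1)
  rw [oS_sub (f1 _ _) (f1 _ _), oS_mul _ (fs_gn _), oS_mul _ (fs_gn _)] at a4
  refine a4.trans ?_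
  rw [← le_sub_iff_add_le', max_le_iff]
  constructor <;> linarith [le_abs_self E, abs_nonneg E]

end Pool.Agent.Lib.MP_8865d3_nt.Tr
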